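import Mathlib

set_option linter.all false

section

/-! Geometry of the Cayley tree of a free group, and hyperbolic isometries of translation
length one. -/

namespace Pool.Agent.MP_e4304e_gt

open FreeGroup

variable {α : Type} [DecidableEq α]

/-- The element of the free group given by one signed letter. -/
def sg (β : α × Bool) : FreeGroup α := mk [β]

omit [DecidableEq α] in
lemma sg_true (b : α) : sg (b, true) = of b := rfl

omit [DecidableEq α] in
lemma sg_not (b : α) (e : Bool) : sg (b, !e) = (sg (b, e))⁻¹ := by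
  simp [sg, inv_mk, invRev]

omit [DecidableEq α] in
lemma sg_false (b : α) : sg (b, false) = (of b)⁻¹ := sg_not b true

lemma toWord_sg (β : α × Bool) : (sg β).toWord = [β] := by
  simp [sg]

lemma norm_sg (β : α × Bool) : (sg β).norm = 1 := by
  simp [FreeGroup.norm, toWord_sg]

omit [DecidableEq α] in
lemma sg_inj {β γ : α × Bool} (h : sg β = sg γ) : β = γ := by
  classical
  have := congrArg toWord h
  simpa [toWord_sg] using this

omit [DecidableEq α] in
lemma mk_cons' (β : α × Bool) (l : List (α × Bool)) : mk (β :: l) = sg β * mk l := by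
  simp [sg, mul_mk]

lemma toWord_mul_of_norm {x y : FreeGroup α} (h : (x * y).norm = x.norm + y.norm) :
    (x * y).toWord = x.toWord ++ y.toWord := by
  apply (toWord_mul_sublist x y).eq_of_length
  simpa [FreeGroup.norm] using h

lemma norm_mk_of_reduced {l : List (α × Bool)} (h : IsReduced l) : (mk l).norm = l.length := by
  simp [FreeGroup.norm, h.reduce_eq]

lemma norm_sg_mul (β : α × Bool) (x : FreeGroup α) :
    (sg β * x).norm = x.norm + 1 ∨ (sg β * x).norm + 1 = x.norm := by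
  have hx : x.toWord = reduce x.toWord := (reduce_toWord x).symm
  have h1 : (sg β * x).toWord = reduce (β :: x.toWord) := by
    rw [toWord_mul, toWord_sg]; rfl
  unfold FreeGroup.norm
  rw [h1, reduce.cons, ← hx]
  cases hw : x.toWord with
  | nil => simp
  | cons hd tl =>
    simp only
    split_ifs <;> simp

lemma norm_mul_sg (x : FreeGroup α) (β : α × Bool) :
    (x * sg β).norm = x.norm + 1 ∨ (x * sg β).norm + 1 = x.norm := by
  obtain ⟨b, e⟩ := β
  have := norm_sg_mul (b, !e) x⁻¹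
  rw [sg_not, ← mul_inv_rev, norm_inv_eq, norm_inv_eq] at this
  exact this

lemma norm_sep {x z : FreeGroup α} {β : α × Bool} (h1 : (x * sg β).norm = x.norm + 1)
    (h2 : (sg β * z).norm = z.norm + 1) : (x * sg β * z).norm = x.norm + 1 + z.norm := by
  have e1 : (x * sg β).toWord = x.toWord ++ [β] := by
    rw [toWord_mul_of_norm (by rw [h1, norm_sg]), toWord_sg]
  have e2 : (sg β * z).toWord = [β] ++ z.toWord := by
    rw [toWord_mul_of_norm (by rw [h2, norm_sg, add_comm]), toWord_sg]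
  have r1 : IsReduced (x.toWord ++ [β]) := e1 ▸ isReduced_toWord
  have r2 : IsReduced ([β] ++ z.toWord) := e2 ▸ isReduced_toWord
  have r3 := r1.append_overlap r2 (by simp)
  have : x * sg β * z = mk (x.toWord ++ [β] ++ z.toWord) := by
    rw [← mul_mk, ← mul_mk, mk_toWord, mk_toWord]; rfl
  rw [this, norm_mk_of_reduced r3]
  simp [FreeGroup.norm]; omega

/-- Distance in the Cayley tree. -/
def dist' (x y : FreeGroup α) : ℕ := (x⁻¹ * y).norm

lemma dist_comm' (x y : FreeGroup α) : dist' x y = dist' y x := by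
  unfold dist'; rw [← norm_inv_eq]; simp

lemma dist_tri (x y z : FreeGroup α) : dist' x z ≤ dist' x y + dist' y z := by
  unfold dist'
  have := norm_mul_le (x⁻¹ * y) (y⁻¹ * z)
  simpa [mul_assoc] using this

@[simp] lemma dist_self' (x : FreeGroup α) : dist' x x = 0 := by simp [dist']

lemma dist_eq_zero' {x y : FreeGroup α} : dist' x y = 0 ↔ x = y := by
  simp [dist', inv_mul_eq_one]

lemma dist_one (x : FreeGroup α) : dist' 1 x = x.norm := by simp [dist']

lemma dist_mul_sg (x : FreeGroup α) (β : α × Bool) : dist' x (x * sg β) = 1 := by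
  simp [dist', norm_sg]

lemma dist_step (x y : FreeGroup α) (β : α × Bool) :
    dist' x (y * sg β) = dist' x y + 1 ∨ dist' x (y * sg β) + 1 = dist' x y := by
  unfold dist'
  rw [← mul_assoc]
  exact norm_mul_sg _ _

/-- An edge from `u` to `u * β` separates `x` (on the side of `u`) from `z`. -/
lemma dist_sep {x z u : FreeGroup α} {β : α × Bool} (h1 : dist' x (u * sg β) = dist' x u + 1)
    (h2 : dist' z u = dist' z (u * sg β) + 1) :
    dist' x z = dist' x u + 1 + dist' (u * sg β) z := by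
  rw [dist_comm' z, dist_comm' z] at h2
  unfold dist' at *
  rw [← mul_assoc] at h1
  have h3 : (sg β * ((u * sg β)⁻¹ * z)).norm = ((u * sg β)⁻¹ * z).norm + 1 := by
    rw [← h2]; congr 1; group
  have := norm_sep h1 h3
  rw [← this]; congr 1; group

/-- `y` lies on the geodesic from the base vertex `1` to `z`. -/
def Btw (y z : FreeGroup α) : Prop := z.norm = y.norm + dist' y z

lemma Btw.word {y z : FreeGroup α} (h : Btw y z) : z.toWord = y.toWord ++ (y⁻¹ * z).toWord := by
  have h' : (y * (y⁻¹ * z)).norm = y.norm + (y⁻¹ * z).norm := by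
    simpa [Btw, dist'] using h
  simpa using toWord_mul_of_norm h'

lemma Btw.refl (y : FreeGroup α) : Btw y y := by simp [Btw]

lemma Btw.one (y : FreeGroup α) : Btw 1 y := by simp [Btw, dist_one]

lemma Btw.le {y z : FreeGroup α} (h : Btw y z) : y.norm ≤ z.norm := by
  unfold Btw at h; omega

lemma Btw.trans {x y z : FreeGroup α} (h1 : Btw x y) (h2 : Btw y z) : Btw x z := by
  unfold Btw at *
  have := dist_tri x y z
  have := dist_tri 1 x z
  simp only [dist_one] at this
  omega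

lemma Btw.dist_add {x y z : FreeGroup α} (h1 : Btw x y) (h2 : Btw y z) :
    dist' x z = dist' x y + dist' y z := by
  have h3 := h1.trans h2
  unfold Btw at *
  omega

lemma btw_of_word {y z : FreeGroup α} {l : List (α × Bool)} (h : z.toWord = y.toWord ++ l) :
    Btw y z := by
  have hz : z = y * mk l := by
    rw [← mk_toWord (x := z), h, ← mul_mk, mk_toWord]
  have h1 : z.norm = y.norm + l.length := by simp [FreeGroup.norm, h]
  have h2 : dist' y z ≤ l.length := by
    rw [hz]; unfold dist'; simpa using norm_mk_le (L₁ := l)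
  have := dist_tri 1 y z
  simp only [dist_one] at this
  unfold Btw; omega

lemma Btw.total {x y z : FreeGroup α} (h1 : Btw x z) (h2 : Btw y z) (h : x.norm ≤ y.norm) :
    Btw x y := by
  have e := h1.word.symm.trans h2.word
  have p1 : x.toWord <+: z.toWord := ⟨_, h1.word.symm⟩
  have p2 : y.toWord <+: z.toWord := ⟨_, h2.word.symm⟩
  obtain ⟨l, hl⟩ := List.prefix_of_prefix_length_le p1 p2 h
  exact btw_of_word hl.symm

lemma Btw.unique {x y z : FreeGroup α} (h1 : Btw x z) (h2 : Btw y z) (h : x.norm = y.norm) :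
    x = y := by
  have := h1.total h2 h.le
  unfold Btw at this
  exact dist_eq_zero'.1 (by omega)

lemma Btw.step {p y : FreeGroup α} (h : Btw p y) (hne : p.norm < y.norm) :
    ∃ β, Btw (p * sg β) y ∧ (p * sg β).norm = p.norm + 1 := by
  have hw := h.word
  cases hl : (p⁻¹ * y).toWord with
  | nil =>
    rw [hl] at hw
    simp [FreeGroup.norm, hw] at hne
  | cons β l =>
    rw [hl] at hw
    have r : IsReduced (p.toWord ++ [β]) := by
      have : IsReduced (p.toWord ++ β :: l) := hw ▸ isReduced_toWord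
      have h2 : p.toWord ++ β :: l = (p.toWord ++ [β]) ++ l := by simp
      rw [h2] at this
      exact List.IsChain.left_of_append this
    have e : p * sg β = mk (p.toWord ++ [β]) := by rw [← mul_mk, mk_toWord]; rfl
    have w : (p * sg β).toWord = p.toWord ++ [β] := by rw [e, toWord_mk, r.reduce_eq]
    refine ⟨β, btw_of_word (l := l) ?_, ?_⟩
    · rw [w, hw]; simp
    · simp [FreeGroup.norm, w]

lemma exists_sg_of_norm_one {z : FreeGroup α} (h : z.norm = 1) : ∃ β, z = sg β := by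
  obtain ⟨β, h1, h2⟩ := (Btw.one z).step (by simp [h])
  exact ⟨β, by simpa using (h1.unique (Btw.refl z) (by simpa [h] using h2)).symm⟩

section Act

variable {G : Type} [Group G] [MulAction G (FreeGroup α)] {ι : Type}

/-- `G` acts on the Cayley tree by automorphisms preserving orientation and type of edges. -/
def TreeAct (G : Type) [Group G] [MulAction G (FreeGroup α)] (ty : α → ι) : Prop :=
  ∀ (g : G) (x : FreeGroup α) (b : α), ∃ b', ty b' = ty b ∧ g • (x * of b) = g • x * of b'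

variable {ty : α → ι}

omit [DecidableEq α] in
lemma TreeAct.sg (hG : TreeAct G ty) (g : G) (x : FreeGroup α) (b : α) (e : Bool) :
    ∃ b', ty b' = ty b ∧ g • (x * sg (b, e)) = g • x * sg (b', e) := by
  cases e
  · obtain ⟨b', h1, h2⟩ := hG g (x * (of b)⁻¹) b
    refine ⟨b', h1, ?_⟩
    rw [sg_false, sg_false]
    have : x * (of b)⁻¹ * of b = x := by group
    rw [this] at h2
    rw [h2]; group
  · exact hG g x b

lemma TreeAct.dist_le (hG : TreeAct G ty) (g : G) (x y : FreeGroup α) :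
    dist' (g • x) (g • y) ≤ dist' x y := by
  have key : ∀ (l : List (α × Bool)) (x : FreeGroup α),
      dist' (g • x) (g • (x * mk l)) ≤ l.length := by
    intro l
    induction l with
    | nil => intro x; simp [← one_eq_mk]
    | cons β l ih =>
      intro x
      obtain ⟨b, e⟩ := β
      obtain ⟨b', -, h2⟩ := hG.sg g x b e
      have h3 := ih (x * Pool.Agent.MP_e4304e_gt.sg (b, e))
      rw [mk_cons', ← mul_assoc]
      have h4 := dist_tri (g • x) (g • (x * Pool.Agent.MP_e4304e_gt.sg (b, e)))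
        (g • (x * Pool.Agent.MP_e4304e_gt.sg (b, e) * mk l))
      rw [h2, dist_mul_sg] at h4
      rw [h2] at h3
      simp only [List.length_cons]; omega
  have := key (x⁻¹ * y).toWord x
  rw [mk_toWord] at this
  simpa [dist', FreeGroup.norm] using this

lemma TreeAct.dist_eq (hG : TreeAct G ty) (g : G) (x y : FreeGroup α) :
    dist' (g • x) (g • y) = dist' x y := by
  apply le_antisymm (hG.dist_le g x y)
  have := hG.dist_le g⁻¹ (g • x) (g • y)
  simpa using this

/-- `y` is on the axis of `m`, which moves it along an edge of type `t` and sign `e`. -/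
def Ax (ty : α → ι) (m : G) (t : ι) (e : Bool) (y : FreeGroup α) : Prop :=
  ∃ c, ty c = t ∧ m • y = y * sg (c, e)

omit [DecidableEq α] in
lemma Ax.conj (hG : TreeAct G ty) {m : G} {t : ι} {e : Bool} {y : FreeGroup α}
    (h : Ax ty m t e y) (g : G) : Ax ty (g * m * g⁻¹) t e (g • y) := by
  obtain ⟨c, h1, h2⟩ := h
  obtain ⟨c', h3, h4⟩ := hG.sg g y c e
  refine ⟨c', h3.trans h1, ?_⟩
  rw [← h4, ← h2, mul_smul, mul_smul, inv_smul_smul]

omit [DecidableEq α] in
lemma Ax.fwd (hG : TreeAct G ty) {m : G} {t : ι} {e : Bool} {y : FreeGroup α}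
    (h : Ax ty m t e y) : Ax ty m t e (m • y) := by
  simpa using h.conj hG m

omit [DecidableEq α] in
lemma Ax.bwd (hG : TreeAct G ty) {m : G} {t : ι} {e : Bool} {y : FreeGroup α}
    (h : Ax ty m t e y) : Ax ty m t e (m⁻¹ • y) := by
  simpa using h.conj hG m⁻¹

omit [DecidableEq α] in
lemma Ax.inv (hG : TreeAct G ty) {m : G} {t : ι} {e : Bool} {y : FreeGroup α}
    (h : Ax ty m t e y) : Ax ty m⁻¹ t (!e) y := by
  obtain ⟨c, h1, h2⟩ := h.bwd hG
  refine ⟨c, h1, ?_⟩
  rw [smul_inv_smul] at h2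
  rw [sg_not, eq_mul_inv_iff_mul_eq, ← h2]

lemma Ax.dist {m : G} {t : ι} {e : Bool} {y : FreeGroup α} (h : Ax ty m t e y) :
    dist' y (m • y) = 1 := by
  obtain ⟨c, -, h2⟩ := h
  rw [h2, dist_mul_sg]

lemma Ax.disp_le (hG : TreeAct G ty) {m : G} {t : ι} {e : Bool} {y : FreeGroup α}
    (h : Ax ty m t e y) (x : FreeGroup α) : dist' x (m • x) ≤ 2 * dist' x y + 1 := by
  have h1 := dist_tri x y (m • x)
  have h2 := dist_tri y (m • y) (m • x)
  rw [h.dist, hG.dist_eq, dist_comm' y x] at h2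
  omega

/-- `y` is the point of the axis of `m` nearest to `x`. -/
def Near (ty : α → ι) (m : G) (t : ι) (e : Bool) (x y : FreeGroup α) : Prop :=
  Ax ty m t e y ∧ dist' x (m • y) = dist' x y + 1 ∧ dist' x (m⁻¹ • y) = dist' x y + 1

lemma Ax.exists_near (hG : TreeAct G ty) {m : G} {t : ι} {e : Bool} {y : FreeGroup α}
    (h : Ax ty m t e y) (x : FreeGroup α) : ∃ y, Near ty m t e x y := by
  classical
  have hex : ∃ n, ∃ y, Ax ty m t e y ∧ dist' x y = n := ⟨_, y, h, rfl⟩
  obtain ⟨y, hy, hn⟩ := Nat.find_spec hex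
  have hmin : ∀ y', Ax ty m t e y' → dist' x y ≤ dist' x y' := fun y' h' => by
    rw [hn]; exact Nat.find_min' hex ⟨y', h', rfl⟩
  refine ⟨y, hy, ?_, ?_⟩
  · have h1 := hmin _ (hy.fwd hG)
    obtain ⟨c, -, h2⟩ := hy
    rw [h2] at h1 ⊢
    have := dist_step x y (c, e)
    omega
  · have h1 := hmin _ (hy.bwd hG)
    obtain ⟨c, -, h2⟩ := hy.inv hG
    rw [h2] at h1 ⊢
    have := dist_step x y (c, !e)
    omega

lemma Near.disp (hG : TreeAct G ty) {m : G} {t : ι} {e : Bool} {x y : FreeGroup α}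
    (h : Near ty m t e x y) : dist' x (m • x) = 2 * dist' x y + 1 := by
  obtain ⟨⟨c, -, h2⟩, h3, h4⟩ := h
  have h5 : dist' (m • x) y = dist' (m • x) (y * sg (c, e)) + 1 := by
    rw [← h2, hG.dist_eq, ← h4, ← hG.dist_eq m x, smul_inv_smul]
  rw [h2] at h3
  have h6 := dist_sep h3 h5
  rw [← h2, hG.dist_eq, dist_comm' y x] at h6
  omega

lemma Near.inv (hG : TreeAct G ty) {m : G} {t : ι} {e : Bool} {x y : FreeGroup α}
    (h : Near ty m t e x y) : Near ty m⁻¹ t (!e) x y :=
  ⟨h.1.inv hG, h.2.2, by simpa using h.2.1⟩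

lemma Near.conj (hG : TreeAct G ty) {m : G} {t : ι} {e : Bool} {x y : FreeGroup α}
    (h : Near ty m t e x y) (g : G) : Near ty (g * m * g⁻¹) t e (g • x) (g • y) := by
  refine ⟨h.1.conj hG g, ?_, ?_⟩
  · rw [mul_smul, mul_smul, inv_smul_smul, hG.dist_eq, hG.dist_eq, h.2.1]
  · have : (g * m * g⁻¹)⁻¹ = g * m⁻¹ * g⁻¹ := by group
    rw [this, mul_smul, mul_smul, inv_smul_smul, hG.dist_eq, hG.dist_eq, h.2.2]

lemma Near.btw_fwd {m : G} {t : ι} {e : Bool} {y : FreeGroup α}
    (h : Near ty m t e 1 y) : Btw y (m • y) := by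
  have := h.2.1
  rw [dist_one, dist_one] at this
  unfold Btw; rw [h.1.dist, this]

lemma Near.btw_disp (hG : TreeAct G ty) {m : G} {t : ι} {e : Bool} {y : FreeGroup α}
    (h : Near ty m t e 1 y) : Btw (m • y) (m • 1) := by
  have h1 := h.disp hG
  have h2 := h.2.1
  simp only [dist_one] at h1 h2
  unfold Btw
  rw [hG.dist_eq, dist_comm', dist_one]; omega

lemma Near.norm_fwd {m : G} {t : ι} {e : Bool} {y : FreeGroup α}
    (h : Near ty m t e 1 y) : (m • y).norm = y.norm + 1 := by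
  simpa only [dist_one] using h.2.1

lemma Near.norm_disp (hG : TreeAct G ty) {m : G} {t : ι} {e : Bool} {y : FreeGroup α}
    (h : Near ty m t e 1 y) : (m • (1 : FreeGroup α)).norm = 2 * y.norm + 1 := by
  simpa only [dist_one] using h.disp hG

/-- Adjacent vertices lie on the same side of an edge, unless they span this edge. -/
lemma side_adj {u p : FreeGroup α} {β γ : α × Bool} (hne : β.1 ≠ γ.1)
    (h : dist' p (u * sg β) = dist' p u + 1) :
    dist' (p * sg γ) (u * sg β) = dist' (p * sg γ) u + 1 := by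
  rcases dist_step (p * sg γ) u β with h1 | h1
  · exact h1
  · exfalso
    have h2 := dist_sep h h1.symm
    rw [dist_mul_sg] at h2
    have h3 : p = u := dist_eq_zero'.1 (by omega)
    have h4 : u * sg β = p * sg γ := dist_eq_zero'.1 (by omega)
    rw [h3] at h4
    exact hne (congrArg Prod.fst (sg_inj (mul_left_cancel h4)))

lemma side_axis (hG : TreeAct G ty) {μ : G} {t : ι} {e : Bool} {u : FreeGroup α} {β : α × Bool}
    (hβ : ty β.1 ≠ t) {v' : FreeGroup α} (hv' : Ax ty μ t e v') :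
    ∀ (n : ℕ) (v : FreeGroup α), dist' v' v = n → Ax ty μ t e v →
      dist' v (u * sg β) = dist' v u + 1 → dist' v' (u * sg β) = dist' v' u + 1 := by
  intro n
  induction n using Nat.strong_induction_on with
  | _ n ih =>
    intro v hn hv hs
    by_cases h0 : dist' v' v = 0
    · rw [dist_eq_zero'.1 h0]; exact hs
    have hnear : ¬ Near ty μ t e v' v := fun hh => by
      have := hh.disp hG
      rw [hv'.dist] at this
      omega
    obtain ⟨c, hc1, hc2⟩ := hv
    obtain ⟨c', hc1', hc2'⟩ := Ax.inv hG ⟨c, hc1, hc2⟩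
    have a1 := dist_step v' v (c, e)
    have a2 := dist_step v' v (c', !e)
    rcases a1 with a1 | a1
    · rcases a2 with a2 | a2
      · exact absurd ⟨⟨c, hc1, hc2⟩, by rw [hc2, a1], by rw [hc2', a2]⟩ hnear
      · refine ih _ (by omega) (v * sg (c', !e)) rfl ?_ ?_
        · rw [← hc2']; exact Ax.bwd hG ⟨c, hc1, hc2⟩
        · exact side_adj (fun h => hβ (by rw [h]; exact hc1')) hs
    · refine ih _ (by omega) (v * sg (c, e)) rfl ?_ ?_
      · rw [← hc2]; exact Ax.fwd hG ⟨c, hc1, hc2⟩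
      · exact side_adj (fun h => hβ (by rw [h]; exact hc1)) hs

/-- Either the middle edge of `[1, m • 1]` separates `1` from the axis of `μ`, or
moving the base point to `m • 1` increases the displacement of `μ`. -/
lemma dichotomy (hG : TreeAct G ty) {m μ : G} {t t' : ι} {e e' : Bool} {u v : FreeGroup α}
    (hu : Near ty m t e 1 u) (hv : Near ty μ t' e' 1 v) (ht : t ≠ t') :
    Btw (m • u) v ∨ (μ • (1 : FreeGroup α)).norm < dist' (m • 1) (μ • m • (1 : FreeGroup α)) := by
  have hu' := hu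
  obtain ⟨⟨c, hc1, hc2⟩, h3, h4⟩ := hu'
  rcases dist_step v u (c, e) with h1 | h1
  · right
    obtain ⟨v', hv'⟩ := hv.1.exists_near hG (m • 1)
    have h5 := side_axis hG (β := (c, e)) (by simpa [hc1] using ht) hv'.1 _ v rfl hv.1 h1
    have h6 : dist' (m • 1) u = dist' (m • 1) (u * sg (c, e)) + 1 := by
      rw [← hc2, hG.dist_eq, ← h4, ← hG.dist_eq m 1, smul_inv_smul]
    have h7 := dist_sep h5 h6
    rw [← hc2, hG.dist_eq, dist_comm' u 1] at h7
    have h8 := hv'.1.disp_le hG 1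
    have h9 := hv'.disp hG
    have h10 := dist_tri 1 u v'
    rw [dist_comm' u v'] at h10
    rw [dist_comm' _ v'] at h9
    rw [dist_one] at h8
    omega
  · left
    rw [hc2] at h3
    have h5 := dist_sep h3 h1.symm
    rw [← hc2] at h5 h3
    simp only [dist_one] at h5 h3
    unfold Btw; omega

lemma push_dist (hG : TreeAct G ty) {m : G} {t : ι} {e : Bool} {u v : FreeGroup α}
    (hu : Near ty m t e 1 u) (h : Btw (m • u) v) : dist' (m • 1) v + 1 ≤ v.norm := by
  have h1 := dist_tri (m • 1) (m • u) v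
  rw [hG.dist_eq, dist_one] at h1
  have h2 := hu.norm_fwd
  unfold Btw at h
  omega

lemma descend (hG : TreeAct G ty) {m μ : G} {t t' : ι} {e e' : Bool} {u v : FreeGroup α}
    (hu : Near ty m t e 1 u) (hv : Near ty μ t' e' 1 v) (h : Btw (m • u) v) :
    dist' (m • 1) (μ • m • (1 : FreeGroup α)) < (μ • (1 : FreeGroup α)).norm := by
  have h1 := push_dist hG hu h
  have h2 := hv.1.disp_le hG (m • 1)
  have h3 := hv.norm_disp hG
  omega

lemma descend_two (hG : TreeAct G ty) {m₁ m₂ μ : G} {t₁ t₂ t' : ι} {e₁ e₂ e' : Bool}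
    {u₁ u₂ v : FreeGroup α}
    (hu₁ : Near ty m₁ t₁ e₁ 1 u₁) (hu₂ : Near ty m₂ t₂ e₂ 1 u₂) (hv : Near ty μ t' e' 1 v)
    (h₁ : Btw (m₁ • u₁) u₂) (h₂ : Btw (m₂ • u₂) v) :
    dist' (m₂ • m₁ • 1) (μ • m₂ • m₁ • (1 : FreeGroup α)) < (μ • (1 : FreeGroup α)).norm := by
  have h1 := push_dist hG hu₁ h₁
  have h2 := hv.1.disp_le hG (m₂ • m₁ • 1)
  have h3 := hv.norm_disp hG
  have h4 := dist_tri (m₂ • m₁ • 1) (m₂ • u₂) v
  rw [hG.dist_eq] at h4
  have h5 := hu₂.norm_fwd
  unfold Btw at h₂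
  omega

end Act

end Pool.Agent.MP_e4304e_gt

end

section

/-! The free complete square complex with one vertex, and the exactly factorised group it
defines. -/

namespace Pool.Agent.MP_e4304e_gt

open FreeGroup hiding map_mul map_one map_inv

/-- Letters: generators, and the new sides created when a corner is completed to a square. -/
inductive Tm (ι : Type) : Type
  | base (t : ι) : Tm ι
  | node (x y : Tm ι) (u v : Bool) : Tm ι

namespace Tm

variable {ι : Type}

noncomputable instance : DecidableEq (Tm ι) := Classical.decEq _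

def valid : Tm ι → Prop
  | base _ => True
  | node x y u v => (¬ ∃ y0, y = node y0 x (!v) u ∧ valid y) ∧
      (¬ ∃ x0, x = node x0 y (!u) v ∧ valid x) ∧
      (¬ ∃ x0 y0, x = node x0 y0 (!u) (!v) ∧ y = node y0 x0 (!v) (!u) ∧ valid x ∧ valid y)

lemma valid_node (x y : Tm ι) (u v : Bool) : valid (node x y u v) ↔
    (¬ ∃ y0, y = node y0 x (!v) u ∧ valid y) ∧
      (¬ ∃ x0, x = node x0 y (!u) v ∧ valid x) ∧
      (¬ ∃ x0 y0, x = node x0 y0 (!u) (!v) ∧ y = node y0 x0 (!v) (!u) ∧ valid x ∧ valid y) := by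
  rw [valid]

lemma valid_symm {x y : Tm ι} {u v : Bool} (h : valid (node x y u v)) : valid (node y x v u) := by
  rw [valid_node] at *
  obtain ⟨h1, h2, h3⟩ := h
  refine ⟨h2, h1, ?_⟩
  rintro ⟨y0, x0, e1, e2, v1, v2⟩
  exact h3 ⟨x0, y0, e2, e1, v2, v1⟩

def size : Tm ι → ℕ
  | base _ => 0
  | node x y _ _ => size x + size y + 1

def ty : Tm ι → ι
  | base t => t
  | node x _ _ _ => ty x

/-- Squares: `a false`, `a true` are bottom and top, `b false`, `b true` left and right. -/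
def IsSq (a b : Bool → Tm ι) : Prop :=
  ∃ u v, valid (node (a u) (b v) u v) ∧ a (!u) = node (a u) (b v) u v ∧
    b (!v) = node (b v) (a u) v u

lemma IsSq.symm {a b : Bool → Tm ι} (h : IsSq a b) : IsSq b a := by
  obtain ⟨u, v, h1, h2, h3⟩ := h
  exact ⟨v, u, valid_symm h1, h3, h2⟩

lemma IsSq.ty_eq {a b : Bool → Tm ι} (h : IsSq a b) (u v : Bool) : ty (a u) = ty (a v) := by
  obtain ⟨u0, v0, -, h2, -⟩ := h
  have : ty (a (!u0)) = ty (a u0) := by rw [h2, ty]
  cases u <;> cases v <;> cases u0 <;> simp_all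

lemma exists_prim {x y : Tm ι} {u v : Bool} (h : valid (node x y u v)) :
    ∃ a b : Bool → Tm ι, IsSq a b ∧ a u = x ∧ b v = y ∧ a (!u) = node x y u v ∧
      b (!v) = node y x v u := by
  refine ⟨fun w => if w = u then x else node x y u v,
    fun w => if w = v then y else node y x v u, ⟨u, v, ?_, ?_, ?_⟩, ?_, ?_, ?_, ?_⟩ <;>
  simp [h]

lemma exists_sq (x y : Tm ι) (u v : Bool) :
    ∃ a b : Bool → Tm ι, IsSq a b ∧ a u = x ∧ b v = y := by
  by_cases h : valid (node x y u v)
  · obtain ⟨a, b, h1, h2, h3, -⟩ := exists_prim h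
    exact ⟨a, b, h1, h2, h3⟩
  · rw [valid_node, not_and_or, not_and_or, not_not, not_not, not_not] at h
    rcases h with ⟨y0, e, hv⟩ | ⟨x0, e, hv⟩ | ⟨x0, y0, e1, e2, hv, -⟩
    · rw [e] at hv
      obtain ⟨a, b, h1, h2, h3, h4, h5⟩ := exists_prim (valid_symm hv)
      exact ⟨a, b, h1, h2, by rw [e, ← h5, Bool.not_not]⟩
    · rw [e] at hv
      obtain ⟨a, b, h1, h2, h3, h4, h5⟩ := exists_prim hv
      exact ⟨a, b, h1, by rw [e, ← h4, Bool.not_not], h3⟩
    · rw [e1] at hv
      obtain ⟨a, b, h1, h2, h3, h4, h5⟩ := exists_prim hv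
      exact ⟨a, b, h1, by rw [e1, ← h4, Bool.not_not], by rw [e2, ← h5, Bool.not_not]⟩

/-- The four ways in which the corner `(u, v)` of a square is related to its first corner. -/
lemma IsSq.cases {a b : Bool → Tm ι} (h : IsSq a b) (u v : Bool) :
    (valid (node (a u) (b v) u v) ∧ a (!u) = node (a u) (b v) u v ∧
      b (!v) = node (b v) (a u) v u) ∨
    (b v = node (b (!v)) (a u) (!v) u ∧ valid (b v) ∧ a (!u) = node (a u) (b (!v)) u (!v)) ∨
    (a u = node (a (!u)) (b v) (!u) v ∧ valid (a u) ∧ b (!v) = node (b v) (a (!u)) v (!u)) ∨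
    (a u = node (a (!u)) (b (!v)) (!u) (!v) ∧ b v = node (b (!v)) (a (!u)) (!v) (!u) ∧
      valid (a u) ∧ valid (b v)) := by
  obtain ⟨u0, v0, h1, h2, h3⟩ := h
  have h1' := valid_symm h1
  by_cases hu : u0 = u
  · by_cases hv : v0 = v
    · subst hu hv; exact Or.inl ⟨h1, h2, h3⟩
    · have : v0 = !v := Bool.eq_not_iff.2 hv
      subst hu this
      rw [Bool.not_not] at h3
      exact Or.inr (Or.inl ⟨h3, h3 ▸ h1', h2⟩)
  · have hu' : u0 = !u := Bool.eq_not_iff.2 hu
    by_cases hv : v0 = v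
    · subst hu' hv
      rw [Bool.not_not] at h2
      exact Or.inr (Or.inr (Or.inl ⟨h2, h2 ▸ h1, h3⟩))
    · have : v0 = !v := Bool.eq_not_iff.2 hv
      subst hu' this
      rw [Bool.not_not] at h2 h3
      exact Or.inr (Or.inr (Or.inr ⟨h2, h3, h2 ▸ h1, h3 ▸ h1'⟩))

lemma sq_unique {a b a' b' : Bool → Tm ι} (h : IsSq a b) (h' : IsSq a' b') {u v : Bool}
    (ha : a u = a' u) (hb : b v = b' v) : a (!u) = a' (!u) ∧ b (!v) = b' (!v) := by
  have c := h.cases u v
  have c' := h'.cases u v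
  rw [← ha, ← hb] at c'
  generalize a u = x at *
  generalize b v = y at *
  generalize a (!u) = x1 at *
  generalize b (!v) = y1 at *
  generalize a' (!u) = x2 at *
  generalize b' (!v) = y2 at *
  rcases c with ⟨c1, c2, c3⟩ | ⟨c1, c2, c3⟩ | ⟨c1, c2, c3⟩ | ⟨c1, c2, c3, c4⟩ <;>
  rcases c' with ⟨d1, d2, d3⟩ | ⟨d1, d2, d3⟩ | ⟨d1, d2, d3⟩ | ⟨d1, d2, d3, d4⟩
  · exact ⟨c2.trans d2.symm, c3.trans d3.symm⟩
  · exact absurd ⟨_, d1, d2⟩ ((valid_node ..).1 c1).1
  · exact absurd ⟨_, d1, d2⟩ ((valid_node ..).1 c1).2.1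
  · exact absurd ⟨_, _, d1, d2, d3, d4⟩ ((valid_node ..).1 c1).2.2
  · exact absurd ⟨_, c1, c2⟩ ((valid_node ..).1 d1).1
  · have := c1.symm.trans d1
    simp only [node.injEq] at this
    rw [c3, d3, this.1]; simp
  · have e1 := congrArg size c1
    have e2 := congrArg size d1
    simp only [size] at e1 e2; omega
  · have e1 := c1.symm.trans d2
    simp at e1
  · exact absurd ⟨_, c1, c2⟩ ((valid_node ..).1 d1).2.1
  · have e1 := congrArg size c1
    have e2 := congrArg size d1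
    simp only [size] at e1 e2; omega
  · have := c1.symm.trans d1
    simp only [node.injEq] at this
    rw [c3, d3, this.1]; simp
  · have e1 := c1.symm.trans d1
    simp at e1
  · exact absurd ⟨_, _, c1, c2, c3, c4⟩ ((valid_node ..).1 d1).2.2
  · have e1 := c2.symm.trans d1
    simp at e1
  · have e1 := c1.symm.trans d1
    simp at e1
  · have := c1.symm.trans d1
    simp only [node.injEq] at this
    exact ⟨this.1, this.2.1⟩

/-- The graph on letters given by opposite sides of squares is a forest. -/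
lemma forest {Γ : Type} [Group Γ] (f : (Bool → Tm ι) → (Bool → Tm ι) → Γ) :
    ∃ Φ : Tm ι → Γ, ∀ a b, IsSq a b → Φ (a true) = Φ (a false) * f a b := by
  let Φ : Tm ι → Γ := fun z => Tm.rec (motive := fun _ => Γ) (fun _ => 1)
    (fun x y u v Φx _ =>
      if u then Φx * (f (fun w => if w = u then x else node x y u v)
        (fun w => if w = v then y else node y x v u))⁻¹
      else Φx * f (fun w => if w = u then x else node x y u v)
        (fun w => if w = v then y else node y x v u)) z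
  have hΦ : ∀ x y u v, Φ (node x y u v) =
      if u then Φ x * (f (fun w => if w = u then x else node x y u v)
        (fun w => if w = v then y else node y x v u))⁻¹
      else Φ x * f (fun w => if w = u then x else node x y u v)
        (fun w => if w = v then y else node y x v u) := fun _ _ _ _ => rfl
  refine ⟨Φ, ?_⟩
  rintro a b ⟨u, v, -, h2, h3⟩
  have ea : (fun w => if w = u then a u else node (a u) (b v) u v) = a := by
    funext w; rw [← h2]; cases w <;> cases u <;> simp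
  have eb : (fun w => if w = v then b v else node (b v) (a u) v u) = b := by
    funext w; rw [← h3]; cases w <;> cases v <;> simp
  have := hΦ (a u) (b v) u v
  rw [ea, eb, ← h2] at this
  cases u
  · simpa using this
  · simp only [Bool.not_true, if_true] at this
    rw [this]; group

/-- `Sw p q q' p'` says that `p * q = q' * p'` is one of the defining relations. -/
def Sw (p q q' p' : Tm ι × Bool) : Prop :=
  ∃ a b : Bool → Tm ι, IsSq a b ∧ p = (a (!q.2), p.2) ∧ p' = (a q.2, p.2) ∧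
    q = (b p.2, q.2) ∧ q' = (b (!p.2), q.2)

lemma Sw.symm {p q q' p' : Tm ι × Bool} (h : Sw p q q' p') : Sw q' p' p q := by
  obtain ⟨a, b, h, h1, h2, h3, h4⟩ := h
  have e1 : p'.2 = p.2 := by rw [h2]
  have e2 : q'.2 = q.2 := by rw [h4]
  exact ⟨b, a, h.symm, by rw [e1, e2]; exact h4, by rw [e1, e2]; exact h3,
    by rw [e1, e2]; exact h2, by rw [e1, e2]; exact h1⟩

lemma exists_sw (p q : Tm ι × Bool) : ∃ r : (Tm ι × Bool) × (Tm ι × Bool), Sw p q r.1 r.2 := by
  obtain ⟨a, b, h, h1, h2⟩ := exists_sq p.1 q.1 (!q.2) p.2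
  exact ⟨((b (!p.2), q.2), (a q.2, p.2)), a, b, h, by rw [h1], rfl, by rw [h2], rfl⟩

lemma Sw.unique {p q q' p' q'' p'' : Tm ι × Bool} (h : Sw p q q' p') (h' : Sw p q q'' p'') :
    q' = q'' ∧ p' = p'' := by
  obtain ⟨a, b, h, h1, h2, h3, h4⟩ := h
  obtain ⟨a', b', h', h1', h2', h3', h4'⟩ := h'
  have := sq_unique h h' (u := !q.2) (v := p.2)
    (congrArg Prod.fst (h1.symm.trans h1')) (congrArg Prod.fst (h3.symm.trans h3'))
  rw [Bool.not_not] at this
  rw [h2, h4, h2', h4', this.1, this.2]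
  exact ⟨rfl, rfl⟩

lemma Sw.flip_left {p q q' p' : Tm ι × Bool} (h : Sw p q q' p') :
    Sw (p.1, !p.2) q' q (p'.1, !p'.2) := by
  obtain ⟨a, b, h, h1, h2, h3, h4⟩ := h
  have e2 : q'.2 = q.2 := by rw [h4]
  refine ⟨a, b, h, ?_, ?_, ?_, ?_⟩
  · rw [e2]; exact Prod.ext (show p.1 = a (!q.2) from congrArg Prod.fst h1) rfl
  · rw [e2, h2]
  · rw [e2]; exact h4
  · rw [e2, Bool.not_not]; exact h3

lemma Sw.flip_right {p q q' p' : Tm ι × Bool} (h : Sw p q q' p') :
    Sw p' (q.1, !q.2) (q'.1, !q'.2) p := by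
  obtain ⟨a, b, h, h1, h2, h3, h4⟩ := h
  have e1 : p'.2 = p.2 := by rw [h2]
  refine ⟨a, b, h, ?_, ?_, ?_, ?_⟩
  · rw [e1, Bool.not_not]; exact h2
  · rw [e1]; exact h1
  · rw [e1]; exact Prod.ext (show q.1 = b p.2 from congrArg Prod.fst h3) rfl
  · rw [e1, h4]

lemma Sw.ty_left {p q q' p' : Tm ι × Bool} (h : Sw p q q' p') :
    ty p'.1 = ty p.1 ∧ p'.2 = p.2 := by
  obtain ⟨a, b, h, h1, h2, h3, h4⟩ := h
  refine ⟨?_, by rw [h2]⟩
  rw [h2, h1]; exact h.ty_eq _ _

lemma Sw.ty_right {p q q' p' : Tm ι × Bool} (h : Sw p q q' p') :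
    ty q'.1 = ty q.1 ∧ q'.2 = q.2 := by
  have := h.symm.ty_left
  exact ⟨this.1.symm, this.2.symm⟩

noncomputable def tr (p q : Tm ι × Bool) : (Tm ι × Bool) × (Tm ι × Bool) :=
  (exists_sw p q).choose

lemma sw_tr (p q : Tm ι × Bool) : Sw p q (tr p q).1 (tr p q).2 := (exists_sw p q).choose_spec

lemma Sw.tr_eq {p q q' p' : Tm ι × Bool} (h : Sw p q q' p') : tr p q = (q', p') := by
  have := (sw_tr p q).unique h
  exact Prod.ext this.1 this.2

noncomputable def trL : List (Tm ι × Bool) → Tm ι × Bool → List (Tm ι × Bool)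
  | [], _ => []
  | q :: l, p => (tr p q).1 :: trL l (tr p q).2

lemma trL_step {l l' : List (Tm ι × Bool)} (h : Red.Step l l') (p : Tm ι × Bool) :
    mk (trL l p) = mk (trL l' p) := by
  obtain @⟨l1, l2, x, e⟩ := h
  induction l1 generalizing p with
  | nil =>
    have h1 := (sw_tr p (x, e)).flip_right.tr_eq
    simp only [List.nil_append, trL]
    simp only at h1
    rw [h1, mk_cons', mk_cons']
    simp only
    rw [sg_not]; group
  | cons q l1 ih =>
    simp only [List.cons_append, trL, mk_cons']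
    rw [ih]

/-- The action of one signed letter on the free group on the letters of the other kind. -/
noncomputable def tau (p : Tm ι × Bool) : FreeGroup (Tm ι) → FreeGroup (Tm ι) :=
  Quot.lift (fun l => mk (trL l p)) (fun _ _ h => trL_step h p)

lemma tau_mk (p : Tm ι × Bool) (l : List (Tm ι × Bool)) : tau p (mk l) = mk (trL l p) := rfl

lemma tau_one (p : Tm ι × Bool) : tau p 1 = 1 := rfl

lemma tau_sg_mul {p q q' p' : Tm ι × Bool} (h : Sw p q q' p') (x : FreeGroup (Tm ι)) :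
    tau p (sg q * x) = sg q' * tau p' x := by
  rw [← mk_toWord (x := x), ← mk_cons', tau_mk, tau_mk, trL, h.tr_eq, mk_cons']

lemma tau_tau (p : Tm ι × Bool) (x : FreeGroup (Tm ι)) : tau (p.1, !p.2) (tau p x) = x := by
  rw [← mk_toWord (x := x)]
  generalize x.toWord = l
  induction l generalizing p with
  | nil => rfl
  | cons q l ih =>
    rw [mk_cons', tau_sg_mul (sw_tr p q), tau_sg_mul (sw_tr p q).flip_left, ih]

noncomputable def tauPerm (a : Tm ι) : Equiv.Perm (FreeGroup (Tm ι)) where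
  toFun := tau (a, true)
  invFun := tau (a, false)
  left_inv x := tau_tau (a, true) x
  right_inv x := tau_tau (a, false) x

noncomputable def rho : FreeGroup (Tm ι) →* Equiv.Perm (FreeGroup (Tm ι)) :=
  FreeGroup.lift tauPerm

lemma rho_sg (p : Tm ι × Bool) (x : FreeGroup (Tm ι)) : rho (sg p) x = tau p x := by
  obtain ⟨a, e⟩ := p
  cases e
  · rw [sg_false, map_inv, rho, FreeGroup.lift_apply_of]; rfl
  · rw [sg_true, rho, FreeGroup.lift_apply_of]; rfl

lemma rho_one (h : FreeGroup (Tm ι)) : rho h 1 = 1 := by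
  rw [← mk_toWord (x := h)]
  generalize h.toWord = l
  induction l with
  | nil => rw [← one_eq_mk, rho.map_one]; rfl
  | cons q l ih => rw [mk_cons', map_mul, Equiv.Perm.mul_apply, ih, rho_sg, tau_one]

noncomputable def lam : FreeGroup (Tm ι) →* Equiv.Perm (FreeGroup (Tm ι)) :=
  MulAction.toPermHom _ _

lemma lam_apply (k x : FreeGroup (Tm ι)) : lam k x = k * x := rfl

lemma rho_lam {p q q' p' : Tm ι × Bool} (h : Sw p q q' p') :
    rho (sg p) * lam (sg q) = lam (sg q') * rho (sg p') := by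
  ext x
  simp only [Equiv.Perm.mul_apply, lam_apply, rho_sg, tau_sg_mul h]

noncomputable def K0 : FreeGroup (Tm ι) →*
    Equiv.Perm (FreeGroup (Tm ι)) × Equiv.Perm (FreeGroup (Tm ι)) := lam.prod rho

noncomputable def H0 : FreeGroup (Tm ι) →*
    Equiv.Perm (FreeGroup (Tm ι)) × Equiv.Perm (FreeGroup (Tm ι)) := rho.prod lam

lemma H0_K0 {p q q' p' : Tm ι × Bool} (h : Sw p q q' p') :
    H0 (sg p) * K0 (sg q) = K0 (sg q') * H0 (sg p') :=
  Prod.ext (rho_lam h) (rho_lam h.symm).symm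

lemma H0_K0_letter (P : Tm ι × Bool → FreeGroup (Tm ι) → Tm ι × Bool → Prop)
    (h0 : ∀ p, P p 1 p)
    (h1 : ∀ p q q' p' x p'', Sw p q q' p' → P p' x p'' → P p (sg q * x) p'')
    (p : Tm ι × Bool) (k : FreeGroup (Tm ι)) :
    ∃ k' p', H0 (sg p) * K0 k = K0 k' * H0 (sg p') ∧ P p k p' := by
  rw [← mk_toWord (x := k)]
  generalize k.toWord = l
  induction l generalizing p with
  | nil => exact ⟨1, p, by simp [← one_eq_mk], h0 p⟩
  | cons q l ih =>
    obtain ⟨k', p', e, hP⟩ := ih (tr p q).2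
    refine ⟨sg (tr p q).1 * k', p', ?_, ?_⟩
    · rw [mk_cons', map_mul, ← mul_assoc, H0_K0 (sw_tr p q), mul_assoc, e, map_mul, mul_assoc]
    · rw [mk_cons']; exact h1 _ _ _ _ _ _ (sw_tr p q) hP

lemma H0_K0_all (h k : FreeGroup (Tm ι)) : ∃ k' h', H0 h * K0 k = K0 k' * H0 h' := by
  rw [← mk_toWord (x := h)]
  generalize h.toWord = l
  induction l with
  | nil => exact ⟨k, 1, by simp [← one_eq_mk]⟩
  | cons p l ih =>
    obtain ⟨k', h', e⟩ := ih
    obtain ⟨k'', p', e', -⟩ := H0_K0_letter (fun _ _ _ => True) (fun _ => trivial)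
      (fun _ _ _ _ _ _ _ _ => trivial) p k'
    refine ⟨k'', sg p' * h', ?_⟩
    rw [mk_cons', map_mul, mul_assoc, e, ← mul_assoc, e', map_mul, mul_assoc]

def sub (ι : Type) : Subgroup (Equiv.Perm (FreeGroup (Tm ι)) × Equiv.Perm (FreeGroup (Tm ι))) where
  carrier := {g | ∃ k h, g = K0 k * H0 h}
  one_mem' := ⟨1, 1, by simp⟩
  mul_mem' := by
    rintro _ _ ⟨k, h, rfl⟩ ⟨k', h', rfl⟩
    obtain ⟨k'', h'', e⟩ := H0_K0_all h k'
    refine ⟨k * k'', h'' * h', ?_⟩
    rw [map_mul, map_mul, mul_assoc, ← mul_assoc (H0 h), e]; group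
  inv_mem' := by
    rintro _ ⟨k, h, rfl⟩
    obtain ⟨k'', h'', e⟩ := H0_K0_all h⁻¹ k⁻¹
    exact ⟨k'', h'', by rw [← e]; simp⟩

end Tm

open Tm

/-- The free exactly factorised group. -/
def GG (ι : Type) : Type := sub ι

variable {ι : Type}

noncomputable instance : Group (GG ι) := inferInstanceAs (Group (sub ι))

noncomputable def KK : FreeGroup (Tm ι) →* GG ι :=
  K0.codRestrict (sub ι) fun k => ⟨k, 1, by simp⟩

noncomputable def HH : FreeGroup (Tm ι) →* GG ι :=
  H0.codRestrict (sub ι) fun h => ⟨1, h, by simp⟩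

noncomputable instance : MulAction (GG ι) (FreeGroup (Tm ι)) where
  smul g x := (show sub ι from g).1.1 x
  one_smul _ := rfl
  mul_smul _ _ _ := rfl

lemma KK_smul (k x : FreeGroup (Tm ι)) : (KK k : GG ι) • x = k * x := rfl

lemma HH_smul (h x : FreeGroup (Tm ι)) : (HH h : GG ι) • x = rho h x := rfl

lemma HH_smul_one (h : FreeGroup (Tm ι)) : (HH h : GG ι) • (1 : FreeGroup (Tm ι)) = 1 :=
  rho_one h

lemma fact_KH (g : GG ι) : ∃ k h, g = KK k * HH h := by
  obtain ⟨g, k, h, e⟩ := g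
  exact ⟨k, h, Subtype.ext e⟩

lemma exact_KH {k h : FreeGroup (Tm ι)} (e : (KK k : GG ι) = HH h) : k = 1 ∧ h = 1 := by
  have e0 : K0 k = H0 h := congrArg Subtype.val e
  have e1 : lam k 1 = rho h 1 := congrArg (fun g => g.1 1) e0
  have e2 : rho k 1 = lam h 1 := congrArg (fun g => g.2 1) e0
  rw [rho_one, lam_apply, mul_one] at e1 e2
  exact ⟨e1, e2.symm⟩

lemma HH_smul_of (h : FreeGroup (Tm ι)) (b : Tm ι) :
    ∃ b', ty b' = ty b ∧ (HH h : GG ι) • of b = of b' := by
  rw [← mk_toWord (x := h)]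
  generalize h.toWord = l
  induction l with
  | nil => exact ⟨b, rfl, by rw [← one_eq_mk, map_one, one_smul]⟩
  | cons p l ih =>
    obtain ⟨b', h1, h2⟩ := ih
    have h3 := sw_tr p (b', true)
    refine ⟨(tr p (b', true)).1.1, h3.ty_right.1.trans h1, ?_⟩
    rw [mk_cons', map_mul, mul_smul, h2, HH_smul, rho_sg, ← sg_true, ← mul_one (sg _),
      tau_sg_mul h3, tau_one, mul_one, ← sg_true]
    congr 1
    exact Prod.ext rfl h3.ty_right.2

lemma smul_mul_of_fact {g : GG ι} {x x' η : FreeGroup (Tm ι)} (e : g * KK x = KK x' * HH η)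
    (z : FreeGroup (Tm ι)) : g • (x * z) = x' * (HH η : GG ι) • z := by
  rw [← KK_smul x, ← mul_smul, e, mul_smul, KK_smul]

lemma treeAct : TreeAct (GG ι) (ty : Tm ι → ι) := by
  intro g x b
  obtain ⟨x', η, e⟩ := fact_KH (g * KK x)
  obtain ⟨b', h1, h2⟩ := HH_smul_of η b
  refine ⟨b', h1, ?_⟩
  have h3 := smul_mul_of_fact e 1
  rw [mul_one, HH_smul_one, mul_one] at h3
  rw [smul_mul_of_fact e, h2, h3]

/-- The forest property for the generators. -/
lemma base_forest (f : ι → FreeGroup (Tm ι) → Tm ι → ℤ) : ∃ Φ : Tm ι → ℤ,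
    ∀ j p b b', (HH (of (base j)) : GG ι)⁻¹ • (p * of b) =
      (HH (of (base j)) : GG ι)⁻¹ • p * of b' → Φ b' - Φ b = f j p b := by
  obtain ⟨Ψ, hΨ⟩ := forest (Γ := FreeGroup (Tm ι)) (fun _ b => of (b false))
  obtain ⟨Φ, hΦ⟩ := forest (Γ := Multiplicative ℤ) (fun b a => Multiplicative.ofAdd
    (f (ty (a false)) ((Ψ (base (ty (a false))))⁻¹ * Ψ (a false)) (b false)))
  refine ⟨fun b => (Φ b).toAdd, ?_⟩
  intro j p b b' hb
  obtain ⟨p', α, e, hP⟩ := H0_K0_letter
    (fun α x α' => α.2 = false → α'.2 = false ∧ ty α'.1 = ty α.1 ∧ Ψ α'.1 = Ψ α.1 * x)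
    (fun α h => ⟨h, rfl, by simp⟩)
    (fun α q q' α' x α'' hs hP h => by
      have t := hs.ty_left
      obtain ⟨c1, c2, c3⟩ := hP (t.2.trans h)
      refine ⟨c1, c2.trans t.1, ?_⟩
      rw [c3, ← mul_assoc]
      congr 1
      obtain ⟨a, b, hab, h1, h2, h3, -⟩ := hs
      have := hΨ a b hab
      rw [h] at h3
      rw [h3, h2, h1]
      cases q.2
      · simp only [Bool.not_false, this, sg_false]; group
      · simp only [Bool.not_true, this, sg_true])
    (base j, false) p
  obtain ⟨c1, c2, c3⟩ := hP rfl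
  have e' : (HH (of (base j)) : GG ι)⁻¹ * KK p = KK p' * HH (sg α) := by
    rw [← map_inv, ← sg_false]; exact Subtype.ext e
  have h3 := smul_mul_of_fact e' 1
  rw [mul_one, HH_smul_one, mul_one] at h3
  have hs := sw_tr α (b, true)
  rw [smul_mul_of_fact e', h3, HH_smul, rho_sg, ← sg_true b, ← mul_one (sg (b, true)),
    tau_sg_mul hs, tau_one, mul_one, ← sg_true] at hb
  have hb' := sg_inj (mul_left_cancel hb)
  rw [hb'] at hs
  obtain ⟨A, B, hAB, h1, -, h3, h4⟩ := hs
  rw [c1] at h3 h4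
  simp only [Bool.not_true, Bool.not_false, Prod.mk.injEq, and_true] at h1 h3 h4
  have h1' : α.1 = A false := congrArg Prod.fst h1
  have := hΦ B A hAB.symm
  rw [← h1', ← h3, ← h4, c2, c3] at this
  simp only [ty, inv_mul_cancel_left] at this
  simp only [this, toAdd_mul, toAdd_ofAdd]
  ring

end Pool.Agent.MP_e4304e_gt

end

section

/-! The biquandle of an exactly factorised group, in relational form. -/

namespace Pool.Agent.MP_e4304e_gt

open FreeGroup hiding map_mul map_one map_inv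

variable {ι : Type}

/-- Colours. -/
abbrev Col (ι : Type) := FreeGroup (Tm ι) × FreeGroup (Tm ι)

lemma fact_HK (g : GG ι) : ∃ h k, g = HH h * KK k := by
  obtain ⟨k, h, e⟩ := fact_KH g⁻¹
  exact ⟨h⁻¹, k⁻¹, by rw [map_inv, map_inv, ← mul_inv_rev, ← e, inv_inv]⟩

lemma uniq_HK {h k h' k' : FreeGroup (Tm ι)} (e : (HH h * KK k : GG ι) = HH h' * KK k') :
    h = h' ∧ k = k' := by
  have : (KK (k * k'⁻¹) : GG ι) = HH (h⁻¹ * h') := by
    rw [map_mul, map_mul, map_inv, map_inv, eq_inv_mul_iff_mul_eq, ← mul_assoc, e]; group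
  obtain ⟨e1, e2⟩ := exact_KH this
  exact ⟨inv_mul_eq_one.1 e2, mul_inv_eq_one.1 e1⟩

lemma uniq_KH {h k h' k' : FreeGroup (Tm ι)} (e : (KK k * HH h : GG ι) = KK k' * HH h') :
    h = h' ∧ k = k' := by
  have : (HH h⁻¹ * KK k⁻¹ : GG ι) = HH h'⁻¹ * KK k'⁻¹ := by
    simp only [map_inv, ← mul_inv_rev, e]
  simpa using uniq_HK this

/-- The colouring rule at a positive crossing: incoming over and under colours `o`, `u`,
outgoing colours `o'`, `u'`. -/
def PosCr (o u o' u' : Col ι) : Prop :=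
  o.1 * u.1 = u'.1 * o'.1 ∧ o.2 * u.2 = u'.2 * o'.2 ∧
    (KK o.2 * HH u.1 : GG ι) = HH u'.1 * KK o'.2

def Cr (e : Bool) (o u o' u' : Col ι) : Prop :=
  if e then PosCr o u o' u' else PosCr o' u' o u

@[simp] lemma Cr_true (o u o' u' : Col ι) : Cr true o u o' u' ↔ PosCr o u o' u' := Iff.rfl
@[simp] lemma Cr_false (o u o' u' : Col ι) : Cr false o u o' u' ↔ PosCr o' u' o u := Iff.rfl

lemma Cr_not (e : Bool) (o u o' u' : Col ι) : Cr (!e) o u o' u' ↔ Cr e o' u' o u := by
  cases e <;> rfl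

def rev (x : Col ι) : Col ι := (x.1⁻¹, x.2⁻¹)

@[simp] lemma rev_rev (x : Col ι) : rev (rev x) = x := by simp [rev]

lemma rev_inj {x y : Col ι} (h : rev x = rev y) : x = y := by
  rw [← rev_rev x, h, rev_rev]

lemma PosCr.rev_over {o u o' u' : Col ι} (h : PosCr o u o' u') : PosCr (rev o) u' (rev o') u := by
  obtain ⟨h1, h2, h3⟩ := h
  refine ⟨?_, ?_, ?_⟩ <;> simp only [rev, map_inv] <;>
    rw [inv_mul_eq_iff_eq_mul, ← mul_assoc, eq_mul_inv_iff_mul_eq]
  · exact h1.symm
  · exact h2.symm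
  · exact h3.symm

lemma PosCr.rev_under {o u o' u' : Col ι} (h : PosCr o u o' u') :
    PosCr o' (rev u) o (rev u') := by
  obtain ⟨h1, h2, h3⟩ := h
  refine ⟨?_, ?_, ?_⟩ <;> simp only [rev, map_inv] <;>
    rw [mul_inv_eq_iff_eq_mul, mul_assoc, eq_inv_mul_iff_mul_eq]
  · exact h1.symm
  · exact h2.symm
  · exact h3.symm

lemma Cr.rev_over {e : Bool} {o u o' u' : Col ι} (h : Cr e o u o' u') :
    Cr (!e) (rev o') u (rev o) u' := by
  cases e
  · exact PosCr.rev_over h
  · exact PosCr.rev_over h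

lemma Cr.rev_under {e : Bool} {o u o' u' : Col ι} (h : Cr e o u o' u') :
    Cr (!e) o (rev u') o' (rev u) := by
  cases e
  · exact PosCr.rev_under h
  · exact PosCr.rev_under h

lemma Cr.mirror {e : Bool} {o u o' u' : Col ι} (h : Cr e o u o' u') :
    Cr (!e) (rev o) (rev u) (rev o') (rev u') := by
  have := h.rev_over.rev_under
  rw [Bool.not_not] at this
  exact (Cr_not _ _ _ _ _).2 this

lemma posCr_ex (o u : Col ι) : ∃ o' u', PosCr o u o' u' := by
  obtain ⟨h, k, e⟩ := fact_HK (KK o.2 * HH u.1 : GG ι)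
  exact ⟨(h⁻¹ * o.1 * u.1, k), (h, o.2 * u.2 * k⁻¹), by group, by group, e⟩

lemma PosCr.uniq {o u o' u' o'' u'' : Col ι} (h : PosCr o u o' u') (h' : PosCr o u o'' u'') :
    o' = o'' ∧ u' = u'' := by
  obtain ⟨h1, h2, h3⟩ := h
  obtain ⟨h1', h2', h3'⟩ := h'
  obtain ⟨e1, e2⟩ := uniq_HK (h3.symm.trans h3')
  rw [h1, e1] at h1'
  rw [h2, e2] at h2'
  exact ⟨Prod.ext (mul_left_cancel h1') e2, Prod.ext e1 (mul_right_cancel h2')⟩

lemma cr_ex (e : Bool) (o u : Col ι) : ∃ o' u', Cr e o u o' u' := by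
  cases e
  · obtain ⟨o', u', h⟩ := posCr_ex (rev o) (rev u)
    refine ⟨rev o', rev u', ?_⟩
    have := Cr.mirror (e := true) h
    simpa using this
  · exact posCr_ex o u

lemma Cr.uniq {e : Bool} {o u o' u' o'' u'' : Col ι} (h : Cr e o u o' u')
    (h' : Cr e o u o'' u'') : o' = o'' ∧ u' = u'' := by
  cases e
  · have := PosCr.uniq h.mirror h'.mirror
    exact ⟨rev_inj this.1, rev_inj this.2⟩
  · exact PosCr.uniq h h'

/-- sideways existence -/
lemma cr_ex_side (e : Bool) (o u' : Col ι) : ∃ u o', Cr e o u o' u' := by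
  obtain ⟨o', u, h⟩ := cr_ex (!e) o (rev u')
  exact ⟨rev u, o', by simpa using h.rev_under⟩

lemma Cr.uniq_side {e : Bool} {o u o' u' u₂ o₂ : Col ι} (h : Cr e o u o' u')
    (h' : Cr e o u₂ o₂ u') : u = u₂ ∧ o' = o₂ := by
  have := h.rev_under.uniq h'.rev_under
  exact ⟨rev_inj this.2, this.1⟩

lemma Cr.kink_ou {e : Bool} {x m y : Col ι} (h : Cr e x m m y) : x = y := by
  cases e
  · obtain ⟨h1, h2, -⟩ := h
    exact Prod.ext (mul_left_cancel h1).symm (mul_left_cancel h2).symm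
  · obtain ⟨h1, h2, -⟩ := h
    exact Prod.ext (mul_right_cancel h1) (mul_right_cancel h2)

lemma Cr.kink_uo {e : Bool} {x m y : Col ι} (h : Cr e m x y m) : x = y :=
  (Cr.kink_ou (e := !e) ((Cr_not _ _ _ _ _).2 h)).symm

lemma kink_ou_ex (e : Bool) (x : Col ι) : ∃ m, Cr e x m m x := by
  cases e
  · obtain ⟨h, k, e⟩ := fact_HK (KK x.2 * (HH x.1)⁻¹ : GG ι)
    refine ⟨(h⁻¹, k), rfl, rfl, ?_⟩
    simp only [map_inv]
    rw [eq_inv_mul_iff_mul_eq, ← mul_assoc, ← e]; group
  · obtain ⟨k, h, e⟩ := fact_KH ((HH x.1)⁻¹ * KK x.2 : GG ι)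
    refine ⟨(h⁻¹, k), rfl, rfl, ?_⟩
    simp only [map_inv]
    rw [mul_inv_eq_iff_eq_mul, mul_assoc, ← e]; group

lemma kink_uo_ex (e : Bool) (x : Col ι) : ∃ m, Cr e m x x m := by
  obtain ⟨m, h⟩ := kink_ou_ex (!e) x
  exact ⟨m, (Cr_not _ _ _ _ _).1 h⟩

lemma ybe_eq {t0 m0 b0 t1 m1 b1 t2 m2 b2 t1' m1' b1' t2' m2' b2' : Col ι}
    (h1 : PosCr t0 m0 t1 m1) (h2 : PosCr t1 b0 t2 b1) (h3 : PosCr m1 b1 m2 b2)
    (g1 : PosCr m0 b0 m1' b1') (g2 : PosCr t0 b1' t1' b2') (g3 : PosCr t1' m1' t2' m2') :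
    t2 = t2' ∧ m2 = m2' ∧ b2 = b2' := by
  obtain ⟨a1, a2, a3⟩ := h1
  obtain ⟨b1a, b2a, b3⟩ := h2
  obtain ⟨c1, c2, c3⟩ := h3
  obtain ⟨d1, d2, d3⟩ := g1
  obtain ⟨e1, e2, e3⟩ := g2
  obtain ⟨f1, f2, f3⟩ := g3
  have A : (HH b2.1 * KK (m2.2 * t2.2) : GG ι) = HH b2'.1 * KK (m2'.2 * t2'.2) := by
    have l : (KK t0.2 * KK m0.2 * HH b0.1 : GG ι) = HH b2.1 * KK (m2.2 * t2.2) := by
      rw [← map_mul, a2, map_mul, mul_assoc, b3, ← mul_assoc, c3, map_mul, mul_assoc]
    have r : (KK t0.2 * KK m0.2 * HH b0.1 : GG ι) = HH b2'.1 * KK (m2'.2 * t2'.2) := by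
      rw [mul_assoc, d3, ← mul_assoc, e3, mul_assoc, ← map_mul, f2]
    exact l.symm.trans r
  have B : (HH (b2.1 * m2.1) * KK t2.2 : GG ι) = HH (b2'.1 * m2'.1) * KK t2'.2 := by
    have l : (KK t0.2 * HH m0.1 * HH b0.1 : GG ι) = HH (b2.1 * m2.1) * KK t2.2 := by
      rw [a3, mul_assoc, b3, ← mul_assoc, ← map_mul, c1]
    have r : (KK t0.2 * HH m0.1 * HH b0.1 : GG ι) = HH (b2'.1 * m2'.1) * KK t2'.2 := by
      rw [mul_assoc, ← map_mul, d1, map_mul, ← mul_assoc, e3, mul_assoc, f3, map_mul, mul_assoc]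
    exact l.symm.trans r
  obtain ⟨A1, A2⟩ := uniq_HK A
  obtain ⟨B1, B2⟩ := uniq_HK B
  rw [A1] at B1
  rw [B2] at A2
  have M1 := mul_left_cancel B1
  have M2 := mul_right_cancel A2
  have C : b2.1 * m2.1 * t2.1 = b2'.1 * m2'.1 * t2'.1 := by
    have l : t0.1 * m0.1 * b0.1 = b2.1 * m2.1 * t2.1 := by
      rw [a1, mul_assoc, b1a, ← mul_assoc, c1]
    have r : t0.1 * m0.1 * b0.1 = b2'.1 * m2'.1 * t2'.1 := by
      rw [mul_assoc, d1, ← mul_assoc, e1, mul_assoc, f1, mul_assoc]
    exact l.symm.trans r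
  have D : b2.2 * (m2.2 * t2.2) = b2'.2 * (m2'.2 * t2'.2) := by
    have l : t0.2 * m0.2 * b0.2 = b2.2 * (m2.2 * t2.2) := by
      rw [a2, mul_assoc, b2a, ← mul_assoc, c2, mul_assoc]
    have r : t0.2 * m0.2 * b0.2 = b2'.2 * (m2'.2 * t2'.2) := by
      rw [mul_assoc, d2, ← mul_assoc, e2, mul_assoc, f2]
    exact l.symm.trans r
  rw [A1, M1] at C
  rw [M2, B2] at D
  exact ⟨Prod.ext (mul_left_cancel C) B2, Prod.ext M1 M2, Prod.ext A1 (mul_right_cancel D)⟩

/-- The colourings of a triangle before the third move extend to colourings after it. -/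
def R3Prop (ι : Type) (ea eb ec oT oM oB : Bool) : Prop :=
  ∀ t0 t1 t2 m0 m1 m2 b0 b1 b2 : Col ι,
    Cr ea (if oT then t0 else t1) (if oM then m0 else m1)
      (if oT then t1 else t2) (if oM then m1 else m2) →
    Cr eb (if oT then t1 else t0) (if oB then b0 else b1)
      (if oT then t2 else t1) (if oB then b1 else b2) →
    Cr ec (if oM then m1 else m0) (if oB then b1 else b0)
      (if oM then m2 else m1) (if oB then b2 else b1) →
    ∃ t1 m1 b1 : Col ι,
    Cr ea (if oT then t1 else t0) (if oM then m1 else m0)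
      (if oT then t2 else t1) (if oM then m2 else m1) ∧
    Cr eb (if oT then t0 else t1) (if oB then b1 else b0)
      (if oT then t1 else t2) (if oB then b2 else b1) ∧
    Cr ec (if oM then m0 else m1) (if oB then b0 else b1)
      (if oM then m1 else m2) (if oB then b1 else b2)

lemma r3_pos : R3Prop ι true true true true true true := by
  intro t0 t1 t2 m0 m1 m2 b0 b1 b2 h1 h2 h3
  simp only [if_true, Cr_true] at *
  obtain ⟨m1', b1', g1⟩ := posCr_ex m0 b0
  obtain ⟨t1', b2', g2⟩ := posCr_ex t0 b1'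
  obtain ⟨t2', m2', g3⟩ := posCr_ex t1' m1'
  obtain ⟨rfl, rfl, rfl⟩ := ybe_eq h1 h2 h3 g1 g2 g3
  exact ⟨t1', m1', b1', g3, g2, g1⟩

lemma R3Prop.mirror {ea eb ec oT oM oB : Bool} (h : R3Prop ι ea eb ec oT oM oB) :
    R3Prop ι (!ea) (!eb) (!ec) oT oM oB := by
  intro t0 t1 t2 m0 m1 m2 b0 b1 b2 h1 h2 h3
  obtain ⟨t, m, b, g1, g2, g3⟩ := h (rev t0) (rev t1) (rev t2) (rev m0) (rev m1) (rev m2)
    (rev b0) (rev b1) (rev b2)
    (by have := h1.mirror; simpa [apply_ite rev] using this)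
    (by have := h2.mirror; simpa [apply_ite rev] using this)
    (by have := h3.mirror; simpa [apply_ite rev] using this)
  refine ⟨rev t, rev m, rev b, ?_, ?_, ?_⟩
  · have := g1.mirror; simpa [apply_ite rev] using this
  · have := g2.mirror; simpa [apply_ite rev] using this
  · have := g3.mirror; simpa [apply_ite rev] using this

lemma R3Prop.flipT {ea eb ec oM oB : Bool} (h : R3Prop ι ea eb ec true oM oB) :
    R3Prop ι (!ea) (!eb) ec false oM oB := by
  intro t0 t1 t2 m0 m1 m2 b0 b1 b2 h1 h2 h3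
  obtain ⟨t, m, b, g1, g2, g3⟩ := h (rev t2) (rev t1) (rev t0) m0 m1 m2 b0 b1 b2
    (by have := h1.rev_over; simpa using this)
    (by have := h2.rev_over; simpa using this) h3
  refine ⟨rev t, m, b, ?_, ?_, g3⟩
  · have := g1.rev_over; simpa using this
  · have := g2.rev_over; simpa using this

lemma R3Prop.flipM {ea eb ec oT oB : Bool} (h : R3Prop ι ea eb ec oT true oB) :
    R3Prop ι (!ea) eb (!ec) oT false oB := by
  intro t0 t1 t2 m0 m1 m2 b0 b1 b2 h1 h2 h3
  obtain ⟨t, m, b, g1, g2, g3⟩ := h t0 t1 t2 (rev m2) (rev m1) (rev m0) b0 b1 b2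
    (by have := h1.rev_under; simpa using this) h2
    (by have := h3.rev_over; simpa using this)
  refine ⟨t, rev m, b, ?_, g2, ?_⟩
  · have := g1.rev_under; simpa using this
  · have := g3.rev_over; simpa using this

lemma R3Prop.flipB {ea eb ec oT oM : Bool} (h : R3Prop ι ea eb ec oT oM true) :
    R3Prop ι ea (!eb) (!ec) oT oM false := by
  intro t0 t1 t2 m0 m1 m2 b0 b1 b2 h1 h2 h3
  obtain ⟨t, m, b, g1, g2, g3⟩ := h t0 t1 t2 m0 m1 m2 (rev b2) (rev b1) (rev b0) h1
    (by have := h2.rev_under; simpa using this)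
    (by have := h3.rev_under; simpa using this)
  refine ⟨t, m, rev b, g1, ?_, ?_⟩
  · have := g2.rev_under; simpa using this
  · have := g3.rev_under; simpa using this

lemma r3_all {ea eb ec oT oM oB : Bool} (h1 : ea = eb ↔ oM = oB) (h2 : eb = ec ↔ oT = oM) :
    R3Prop ι ea eb ec oT oM oB := by
  have p := r3_pos (ι := ι)
  have a1 := p.flipT
  have a2 := p.flipM
  have a3 := p.flipB
  have a4 := a1.flipM
  have a5 := a1.flipB
  have a6 := a2.flipB
  have a7 := a4.flipB
  have q := p.mirror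
  have c1 := a1.mirror
  have c2 := a2.mirror
  have c3 := a3.mirror
  have c4 := a4.mirror
  have c5 := a5.mirror
  have c6 := a6.mirror
  have c7 := a7.mirror
  simp only [Bool.not_true, Bool.not_false] at *
  cases ea <;> cases eb <;> cases ec <;> cases oT <;> cases oM <;> cases oB <;>
    first | assumption | simp at h1 h2

end Pool.Agent.MP_e4304e_gt

end
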