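import Mathlib
import Pool.Agent.Mg.Fe4304eq.G451b05

set_option linter.all false

section

/-! Peak reduction. -/

namespace Pool.Agent.MP_e4304e_gt

section

variable {S L Γ : Type} [Group Γ]

/-- The peak at `s` between the moves `a` and `b` can be circumvented below the height of `s`. -/
def PeakOK (act : S → L → S) (e : L → Γ) (Good : S → Prop) (ht : S → ℕ) (s : S) (a b : L) : Prop :=
  ∀ N : S → Γ, (∀ t c, Good t → ht t < ht s → ht (act t c) < ht s → N t = e c * N (act t c)) →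
    e a * N (act s a) = e b * N (act s b)

open Classical in
noncomputable def nf (act : S → L → S) (e : L → Γ) (ht : S → ℕ) (s : S) : Γ :=
  if h : ∃ a, ht (act s a) < ht s then e h.choose * nf act e ht (act s h.choose) else 1
termination_by ht s
decreasing_by exact h.choose_spec

theorem peak_reduction (act : S → L → S) (e : L → Γ) (Good : S → Prop) (ht : S → ℕ)
    (inv : L → L) (hinv : ∀ s a, act (act s a) (inv a) = s) (einv : ∀ a, e (inv a) = (e a)⁻¹)
    (hcl : ∀ s a, Good s → Good (act s a))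
    (hne : ∀ s a, Good s → ht (act s a) ≠ ht s)
    (hpk : ∀ s a b, Good s → ht (act s a) < ht s → ht (act s b) < ht s →
      PeakOK act e Good ht s a b) :
    ∃ N : S → Γ, (∀ s, (∀ a, ¬ ht (act s a) < ht s) → N s = 1) ∧
      ∀ s a, Good s → N s = e a * N (act s a) := by
  have up : ∀ m, (∀ s a, Good s → ht s < m → ht (act s a) < ht s →
      nf act e ht s = e a * nf act e ht (act s a)) → ∀ t c, Good t → ht t < m →
      ht (act t c) < m → nf act e ht t = e c * nf act e ht (act t c) := by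
    intro m H t c hg h1 h2
    rcases lt_or_gt_of_ne (hne t c hg) with h | h
    · exact H t c hg h1 h
    · have := H (act t c) (inv c) (hcl _ _ hg) h2 (by rwa [hinv])
      rw [hinv, einv] at this
      rw [this]; group
  have key : ∀ m, ∀ s a, Good s → ht s < m → ht (act s a) < ht s →
      nf act e ht s = e a * nf act e ht (act s a) := by
    intro m
    induction m with
    | zero => intro s a _ h; omega
    | succ m ih =>
      intro s a hg h1 h2
      have hex : ∃ a, ht (act s a) < ht s := ⟨a, h2⟩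
      rw [nf, dif_pos hex]
      refine hpk s _ a hg hex.choose_spec h2 _ ?_
      intro t c hgt h3 h4
      exact up m ih t c hgt (by omega) (by omega)
  refine ⟨nf act e ht, ?_, ?_⟩
  · intro s h
    rw [nf, dif_neg]
    rintro ⟨a, ha⟩
    exact h a ha
  · intro s a hg
    exact up (ht s + ht (act s a) + 1) (key _) s a hg (by omega) (by omega)

end

end Pool.Agent.MP_e4304e_gt

end

section

/-! The action of the generators of the pure virtual braid group on tuples of colours, and the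
peak property. -/

namespace Pool.Agent.MP_e4304e_gt

open FreeGroup hiding map_mul map_one map_inv
open Tm

/-- A crossing of strand `i` over strand `j` with sign `e`. -/
structure Ltr (n : ℕ) where
  i : Fin n
  j : Fin n
  e : Bool
  ne : i ≠ j

variable {n : ℕ}

def Ltr.inv (a : Ltr n) : Ltr n := ⟨a.i, a.j, !a.e, a.ne⟩

@[simp] lemma Ltr.inv_inv (a : Ltr n) : a.inv.inv = a := by simp [Ltr.inv]

abbrev St (n : ℕ) := Fin n → Col (Fin n)

def Step (a : Ltr n) (s s' : St n) : Prop :=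
  Cr a.e (s a.i) (s a.j) (s' a.i) (s' a.j) ∧ ∀ l, l ≠ a.i → l ≠ a.j → s' l = s l

lemma step_ex (a : Ltr n) (s : St n) : ∃ s', Step a s s' := by
  obtain ⟨o, u, h⟩ := cr_ex a.e (s a.i) (s a.j)
  refine ⟨Function.update (Function.update s a.i o) a.j u, ?_, ?_⟩
  · simpa [Function.update_of_ne a.ne] using h
  · intro l h1 h2
    simp [Function.update_of_ne h1, Function.update_of_ne h2]

lemma Step.uniq {a : Ltr n} {s s' s'' : St n} (h : Step a s s') (h' : Step a s s'') :
    s' = s'' := by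
  funext l
  have := h.1.uniq h'.1
  by_cases h1 : l = a.i
  · rw [h1, this.1]
  by_cases h2 : l = a.j
  · rw [h2, this.2]
  rw [h.2 l h1 h2, h'.2 l h1 h2]

noncomputable def act (s : St n) (a : Ltr n) : St n := (step_ex a s).choose

lemma step_act (s : St n) (a : Ltr n) : Step a s (act s a) := (step_ex a s).choose_spec

lemma Step.act_eq {a : Ltr n} {s s' : St n} (h : Step a s s') : act s a = s' :=
  (step_act s a).uniq h

lemma Step.inv {a : Ltr n} {s s' : St n} (h : Step a s s') : Step a.inv s' s :=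
  ⟨(Cr_not _ _ _ _ _).2 h.1, fun l h1 h2 => (h.2 l h1 h2).symm⟩

lemma act_inv (s : St n) (a : Ltr n) : act (act s a) a.inv = s := (step_act s a).inv.act_eq

lemma act_other (s : St n) (a : Ltr n) {l : Fin n} (h1 : l ≠ a.i) (h2 : l ≠ a.j) :
    act s a l = s l := (step_act s a).2 l h1 h2

def Disj (a b : Ltr n) : Prop := a.i ≠ b.i ∧ a.i ≠ b.j ∧ a.j ≠ b.i ∧ a.j ≠ b.j

lemma act_comm (s : St n) {a b : Ltr n} (h : Disj a b) : act (act s a) b = act (act s b) a := by
  obtain ⟨h1, h2, h3, h4⟩ := h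
  funext l
  have a1 := (step_act s a).1
  have a2 := (step_act (act s b) a).1
  have b1 := (step_act s b).1
  have b2 := (step_act (act s a) b).1
  rw [act_other s b h1 h2, act_other s b h3 h4] at a2
  rw [act_other s a h1.symm h3.symm, act_other s a h2.symm h4.symm] at b2
  have ea := a1.uniq a2
  have eb := b1.uniq b2
  by_cases c1 : l = a.i
  · rw [c1, act_other _ b h1 h2, ea.1]
  by_cases c2 : l = a.j
  · rw [c2, act_other _ b h3 h4, ea.2]
  by_cases c3 : l = b.i
  · rw [c3, act_other _ a h1.symm h3.symm, eb.1]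
  by_cases c4 : l = b.j
  · rw [c4, act_other _ a h2.symm h4.symm, eb.2]
  rw [act_other _ b c3 c4, act_other _ a c1 c2, act_other _ a c1 c2, act_other _ b c3 c4]

lemma act_hex (s : St n) {i j k : Fin n} (hij : i ≠ j) (hik : i ≠ k) (hjk : j ≠ k) :
    act (act (act s ⟨i, j, true, hij⟩) ⟨i, k, true, hik⟩) ⟨j, k, true, hjk⟩ =
    act (act (act s ⟨j, k, true, hjk⟩) ⟨i, k, true, hik⟩) ⟨i, j, true, hij⟩ := by
  set s1 := act s ⟨i, j, true, hij⟩
  set s2 := act s1 ⟨i, k, true, hik⟩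
  set s3 := act s2 ⟨j, k, true, hjk⟩
  set t1 := act s ⟨j, k, true, hjk⟩
  set t2 := act t1 ⟨i, k, true, hik⟩
  set t3 := act t2 ⟨i, j, true, hij⟩
  have a1 : Step _ s s1 := step_act _ _
  have a2 : Step _ s1 s2 := step_act _ _
  have a3 : Step _ s2 s3 := step_act _ _
  have b1 : Step _ s t1 := step_act _ _
  have b2 : Step _ t1 t2 := step_act _ _
  have b3 : Step _ t2 t3 := step_act _ _
  have c1 := a1.1
  have c2 := a2.1
  have c3 := a3.1
  have d1 := b1.1
  have d2 := b2.1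
  have d3 := b3.1
  simp only [Cr_true] at c1 c2 c3 d1 d2 d3
  rw [a1.2 k hik.symm hjk.symm] at c2
  rw [a2.2 j hij.symm hjk] at c3
  rw [b1.2 i hij hik] at d2
  rw [b2.2 j hij.symm hjk] at d3
  obtain ⟨e1, e2, e3⟩ := ybe_eq c1 c2 c3 d1 d2 d3
  funext l
  by_cases h1 : l = i
  · rw [h1, a3.2 i hij hik, e1]
  by_cases h2 : l = j
  · rw [h2, e2]
  by_cases h3 : l = k
  · rw [h3, e3, b3.2 k hik.symm hjk.symm]
  rw [a3.2 l h2 h3, a2.2 l h1 h3, a1.2 l h1 h2, b3.2 l h1 h2, b2.2 l h1 h3, b1.2 l h2 h3]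

def mir (s : St n) : St n := fun l => rev (s l)

@[simp] lemma mir_mir (s : St n) : mir (mir s) = s := by funext l; simp [mir]

lemma act_mir (s : St n) (a : Ltr n) : act (mir s) a.inv = mir (act s a) := by
  apply Step.act_eq
  refine ⟨(step_act s a).1.mirror, fun l h1 h2 => ?_⟩
  simp only [mir]
  rw [act_other s a h1 h2]

lemma act_mir' (s : St n) (a : Ltr n) : act (mir s) a = mir (act s a.inv) := by
  rw [← act_mir, Ltr.inv_inv]

noncomputable def mu (s : St n) (l : Fin n) : GG (Fin n) := KK (s l).2 * (HH (s l).1)⁻¹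

noncomputable def nu (s : St n) (l : Fin n) : GG (Fin n) := (KK (s l).2)⁻¹ * HH (s l).1

lemma mu_mir (s : St n) (l : Fin n) : mu (mir s) l = nu s l := by simp [mu, nu, mir, rev]

lemma nu_mir (s : St n) (l : Fin n) : nu (mir s) l = mu s l := by simp [mu, nu, mir, rev]

lemma nu_eq (s : St n) (l : Fin n) :
    nu s l = (HH (s l).1)⁻¹ * (mu s l)⁻¹ * (HH (s l).1)⁻¹⁻¹ := by
  simp only [mu, nu]; group

lemma HH_inv_smul_one {ι : Type} (h : FreeGroup (Tm ι)) :
    (HH h : GG ι)⁻¹ • (1 : FreeGroup (Tm ι)) = 1 := by rw [← map_inv, HH_smul_one]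

lemma KK_inv_smul {ι : Type} (k x : FreeGroup (Tm ι)) : (KK k : GG ι)⁻¹ • x = k⁻¹ * x := by
  rw [← map_inv, KK_smul]

lemma mu_one (s : St n) (l : Fin n) : mu s l • (1 : FreeGroup (Tm (Fin n))) = (s l).2 := by
  rw [mu, mul_smul, HH_inv_smul_one, KK_smul, mul_one]

lemma nu_one (s : St n) (l : Fin n) : nu s l • (1 : FreeGroup (Tm (Fin n))) = (s l).2⁻¹ := by
  rw [nu, mul_smul, HH_smul_one, KK_inv_smul, mul_one]

noncomputable def rr (s : St n) (l : Fin n) : ℕ := (s l).2.norm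

noncomputable def ht (s : St n) : ℕ := ∑ l, rr s l

lemma rr_mir (s : St n) (l : Fin n) : rr (mir s) l = rr s l := by simp [rr, mir, rev]

lemma ht_mir (s : St n) : ht (mir s) = ht s := by simp [ht, rr_mir]

lemma rr_mu (s : St n) (l : Fin n) :
    (mu s l • (1 : FreeGroup (Tm (Fin n)))).norm = rr s l := by rw [mu_one, rr]

lemma rr_nu (s : St n) (l : Fin n) :
    (nu s l • (1 : FreeGroup (Tm (Fin n)))).norm = rr s l := by rw [nu_one, rr, norm_inv_eq]

section fix

variable {ι : Type} {g : GG ι}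

lemma norm_fix (hg : g • (1 : FreeGroup (Tm ι)) = 1) (x : FreeGroup (Tm ι)) :
    (g • x).norm = x.norm := by
  rw [← dist_one, ← dist_one, ← treeAct.dist_eq g 1 x, hg]

lemma Btw.fix (hg : g • (1 : FreeGroup (Tm ι)) = 1) {x y : FreeGroup (Tm ι)} (h : Btw x y) :
    Btw (g • x) (g • y) := by
  unfold Btw at *
  rw [norm_fix hg, norm_fix hg, treeAct.dist_eq, h]

lemma Near.fix (hg : g • (1 : FreeGroup (Tm ι)) = 1) {m : GG ι} {t : ι} {e : Bool}
    {y : FreeGroup (Tm ι)} (h : Near ty m t e 1 y) : Near ty (g * m * g⁻¹) t e 1 (g • y) := by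
  have := h.conj treeAct g
  rwa [hg] at this

lemma norm_conj (g m : GG ι) : ((g * m * g⁻¹) • (1 : FreeGroup (Tm ι))).norm =
    dist' (g⁻¹ • 1) (m • g⁻¹ • (1 : FreeGroup (Tm ι))) := by
  rw [← treeAct.dist_eq g, smul_inv_smul, dist_one, mul_smul, mul_smul]

end fix

section plus

variable {s s' : St n} {i j : Fin n}

lemma PosCr.key {ι : Type} {o u o' u' : Col ι} (h : PosCr o u o' u') :
    (HH o'.1 : GG ι) = (HH u'.1)⁻¹ * HH o.1 * HH u.1 ∧
    (KK u'.2 : GG ι) = KK o.2 * KK u.2 * (KK o'.2)⁻¹ ∧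
    (HH u'.1 : GG ι) = KK o.2 * HH u.1 * (KK o'.2)⁻¹ := by
  obtain ⟨h1, h2, h3⟩ := h
  refine ⟨?_, ?_, ?_⟩
  · rw [mul_assoc, ← map_mul, h1, map_mul]; group
  · rw [← map_mul, h2, map_mul]; group
  · rw [h3]; group

lemma mu_under (h : PosCr (s i) (s j) (s' i) (s' j)) :
    mu s' j = KK (s i).2 * mu s j * (KK (s i).2)⁻¹ := by
  obtain ⟨-, h2, h3⟩ := h.key
  rw [mu, mu, h2, h3]; group

lemma nu_under (h : PosCr (s i) (s j) (s' i) (s' j)) :
    nu s' j = KK (s' i).2 * nu s j * (KK (s' i).2)⁻¹ := by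
  obtain ⟨-, h2, h3⟩ := h.key
  rw [nu, nu, h2, h3]; group

lemma nu_over (h : PosCr (s i) (s j) (s' i) (s' j)) :
    nu s' i = (HH (s j).1)⁻¹ * nu s i * (HH (s j).1)⁻¹⁻¹ := by
  obtain ⟨h1, -, h3⟩ := h.key
  rw [nu, nu, h1, h3]; group

lemma mu_over (h : PosCr (s i) (s j) (s' i) (s' j)) :
    mu s' i = (HH (s' j).1)⁻¹ * mu s i * (HH (s' j).1)⁻¹⁻¹ := by
  obtain ⟨h1, -, h3⟩ := h.key
  rw [mu, mu, h1, h3]; group

lemma rr_over (h : PosCr (s i) (s j) (s' i) (s' j)) : rr s' i = rr s i := by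
  rw [← rr_nu, nu_over h, mul_smul, mul_smul, inv_inv, HH_smul_one,
    norm_fix (HH_inv_smul_one _), rr_nu]

lemma rr_under (h : PosCr (s i) (s j) (s' i) (s' j)) :
    rr s' j = dist' (nu s i • 1) (mu s j • nu s i • (1 : FreeGroup (Tm (Fin n)))) := by
  rw [← rr_mu, mu_under h, norm_conj, nu_one, KK_inv_smul, mul_one]

end plus

lemma posCr_act (s : St n) {i j : Fin n} (h : i ≠ j) :
    PosCr (s i) (s j) (act s ⟨i, j, true, h⟩ i) (act s ⟨i, j, true, h⟩ j) :=
  (step_act s ⟨i, j, true, h⟩).1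

lemma rr_act_other (s : St n) (a : Ltr n) {l : Fin n} (h : l ≠ a.j) : rr (act s a) l = rr s l := by
  by_cases h1 : l = a.i
  · obtain ⟨i, j, e, hne⟩ := a
    subst h1
    cases e
    · exact (rr_over (s := act s ⟨_, j, false, hne⟩) (s' := s) (step_act s ⟨_, j, false, hne⟩).1).symm
    · exact rr_over (posCr_act s hne)
  · rw [rr, act_other s a h1 h, rr]

lemma rr_act_pos (s : St n) {i j : Fin n} (h : i ≠ j) : rr (act s ⟨i, j, true, h⟩) j =
    dist' (nu s i • 1) (mu s j • nu s i • (1 : FreeGroup (Tm (Fin n)))) :=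
  rr_under (posCr_act s h)

lemma rr_act_neg (s : St n) {i j : Fin n} (h : i ≠ j) : rr (act s ⟨i, j, false, h⟩) j =
    dist' (mu s i • 1) (nu s j • mu s i • (1 : FreeGroup (Tm (Fin n)))) := by
  have := rr_act_pos (mir s) h
  rw [act_mir', rr_mir, nu_mir, mu_mir] at this
  exact this

lemma ht_act (s : St n) (a : Ltr n) : ht (act s a) + rr s a.j = ht s + rr (act s a) a.j := by
  unfold ht
  rw [← Finset.add_sum_erase _ _ (Finset.mem_univ a.j),
    ← Finset.add_sum_erase _ (rr s) (Finset.mem_univ a.j),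
    Finset.sum_congr rfl (fun l hl => rr_act_other s a (Finset.ne_of_mem_erase hl))]
  omega

/-- The geometric properties of a state which are used in the peak reduction. -/
structure Nice (ε : Bool) (s : St n) : Prop where
  ax : ∀ i, ∃ y, Ax ty (mu s i) i ε y
  bL : ∀ j l z, j ≠ l → z.norm = 1 → Btw z (s j).2 → Btw z (s l).2 → False
  bR : ∀ j l z, j ≠ l → z.norm = 1 → Btw z (s j).2⁻¹ → Btw z (s l).2⁻¹ → False
  b2 : ∀ i j l u v u' v', j ≠ l → Near ty (nu s i) i (!ε) 1 u → Near ty (mu s j) j ε 1 v →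
    Near ty (mu s i) i ε 1 u' → Near ty (nu s l) l (!ε) 1 v' →
    Btw (nu s i • u) v → Btw (mu s i • u') v' → False

lemma near_nu {ε : Bool} {s : St n} {i : Fin n} {y : FreeGroup (Tm (Fin n))}
    (h : Near ty (mu s i) i ε 1 y) : Near ty (nu s i) i (!ε) 1 ((HH (s i).1 : GG (Fin n))⁻¹ • y) := by
  rw [nu_eq]
  exact (h.inv treeAct).fix (HH_inv_smul_one _)

lemma Nice.near_mu {ε : Bool} {s : St n} (h : Nice ε s) (i : Fin n) :
    ∃ y, Near ty (mu s i) i ε 1 y := by
  obtain ⟨y, hy⟩ := h.ax i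
  exact hy.exists_near treeAct 1

lemma Nice.near_nu {ε : Bool} {s : St n} (h : Nice ε s) (i : Fin n) :
    ∃ y, Near ty (nu s i) i (!ε) 1 y := by
  obtain ⟨y, hy⟩ := h.near_mu i
  exact ⟨_, Pool.Agent.MP_e4304e_gt.near_nu hy⟩

lemma Nice.mir {ε : Bool} {s : St n} (h : Nice ε s) : Nice (!ε) (mir s) where
  ax i := by
    obtain ⟨y, hy⟩ := h.near_nu i
    exact ⟨y, by rw [mu_mir]; exact hy.1⟩
  bL j l z := h.bR j l z
  bR j l z := by simpa [Pool.Agent.MP_e4304e_gt.mir, rev] using h.bL j l z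
  b2 i j l u v u' v' hne := by
    simp only [mu_mir, nu_mir, Bool.not_not]
    intro h1 h2 h3 h4 h5 h6
    exact h.b2 i l j u' v' u v hne.symm h3 h4 h1 h2 h6 h5

lemma desc_pos {ε : Bool} {s : St n} {i j : Fin n} (hij : i ≠ j) {u v : FreeGroup (Tm (Fin n))}
    (hu : Near ty (nu s i) i (!ε) 1 u) (hv : Near ty (mu s j) j ε 1 v)
    (h : ht (act s ⟨i, j, true, hij⟩) ≤ ht s) : Btw (nu s i • u) v := by
  rcases dichotomy treeAct hu hv hij with h1 | h1
  · exact h1
  · rw [rr_mu, ← rr_act_pos s hij] at h1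
    have := ht_act s ⟨i, j, true, hij⟩
    simp only at this
    omega

lemma desc_neg {ε : Bool} {s : St n} {i j : Fin n} (hij : i ≠ j) {u v : FreeGroup (Tm (Fin n))}
    (hu : Near ty (mu s i) i ε 1 u) (hv : Near ty (nu s j) j (!ε) 1 v)
    (h : ht (act s ⟨i, j, false, hij⟩) ≤ ht s) : Btw (mu s i • u) v := by
  have := desc_pos (ε := !ε) (s := mir s) hij (u := u) (v := v) (by simpa [nu_mir] using hu)
    (by simpa [mu_mir] using hv) (by rw [act_mir', ht_mir, ht_mir]; exact h)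
  rwa [nu_mir] at this

lemma Nice.ht_ne {ε : Bool} {s : St n} (h : Nice ε s) (a : Ltr n) : ht (act s a) ≠ ht s := by
  have key : ∀ (ε : Bool) (s : St n), Nice ε s → ∀ i j (hij : i ≠ j),
      ht (act s ⟨i, j, true, hij⟩) ≠ ht s := by
    intro ε s h i j hij he
    obtain ⟨u, hu⟩ := h.near_nu i
    obtain ⟨v, hv⟩ := h.near_mu j
    have h1 := descend treeAct hu hv (desc_pos hij hu hv he.le)
    rw [rr_mu, ← rr_act_pos s hij] at h1
    have := ht_act s ⟨i, j, true, hij⟩
    simp only at this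
    omega
  obtain ⟨i, j, e, hij⟩ := a
  cases e
  · have := key _ _ h.mir i j hij
    rwa [act_mir', ht_mir, ht_mir] at this
  · exact key _ _ h i j hij

/-- First vertex of a geodesic. -/
lemma first_vertex {ι : Type} {m μ : GG ι} {t t' : ι} {e e' : Bool} {u v : FreeGroup (Tm ι)}
    (hu : Near ty m t e 1 u) (hv : Near ty μ t' e' 1 v) (h : Btw (m • u) v) :
    ∃ z : FreeGroup (Tm ι), z.norm = 1 ∧ Btw z (m • u) ∧ Btw z (m • 1) ∧ Btw z v ∧
      Btw z (μ • 1) := by
  obtain ⟨β, h1, h2⟩ := (Btw.one (m • u)).step (by rw [hu.norm_fwd]; simp)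
  refine ⟨1 * sg β, by simpa using h2, h1, h1.trans (hu.btw_disp treeAct), h1.trans h, ?_⟩
  exact ((h1.trans h).trans hv.btw_fwd).trans (hv.btw_disp treeAct)

/-- The defining relations of the pure virtual braid group. -/
structure Rels {Γ : Type} [Group Γ] (e : Ltr n → Γ) : Prop where
  inv : ∀ a, e a.inv = (e a)⁻¹
  comm : ∀ a b, Disj a b → e a * e b = e b * e a
  hex : ∀ i j k (hij : i ≠ j) (hik : i ≠ k) (hjk : j ≠ k),
    e ⟨i, j, true, hij⟩ * e ⟨i, k, true, hik⟩ * e ⟨j, k, true, hjk⟩ =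
    e ⟨j, k, true, hjk⟩ * e ⟨i, k, true, hik⟩ * e ⟨i, j, true, hij⟩

variable {Γ : Type} [Group Γ]

lemma Rels.mir {e : Ltr n → Γ} (h : Rels e) : Rels (fun a => e a.inv) where
  inv a := h.inv _
  comm a b hab := h.comm _ _ hab
  hex i j k hij hik hjk := by
    have := congrArg (·⁻¹) (h.hex i j k hij hik hjk)
    simp only [mul_inv_rev, ← mul_assoc] at this
    simp only [h.inv]
    exact this.symm

lemma PeakOK.of_mir {e : Ltr n → Γ} {Good : St n → Prop} {s : St n} {a b : Ltr n}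
    (h : PeakOK act (fun a => e a.inv) (fun s => Good (mir s)) ht (mir s) a.inv b.inv) :
    PeakOK act e Good ht s a b := by
  intro N hN
  have := h (fun t => N (mir t)) (fun t c h1 h2 h3 => by
    rw [ht_mir] at h2 h3
    have := hN (mir t) c.inv h1 (by rwa [ht_mir]) (by rwa [act_mir, ht_mir])
    rwa [act_mir] at this)
  simpa [act_mir] using this

lemma PeakOK.symm {e : Ltr n → Γ} {Good : St n → Prop} {s : St n} {a b : Ltr n}
    (h : PeakOK act e Good ht s a b) : PeakOK act e Good ht s b a :=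
  fun N hN => (h N hN).symm

section peak

variable {e : Ltr n → Γ} {Good : St n → Prop} {ε : Bool} {s : St n}

lemma peak_disj (he : Rels e) (hcl : ∀ s a, Good s → Good (act s a)) (hs : Good s) {a b : Ltr n}
    (hd : Disj a b) (ha : ht (act s a) < ht s) (hb : ht (act s b) < ht s) :
    PeakOK act e Good ht s a b := by
  intro N hN
  have e1 := act_comm s hd
  have h1 := ht_act s b
  have h2 := ht_act (act s a) b
  have h3 := rr_act_other s a hd.2.2.2.symm
  have h4 := rr_act_other (act s b) a hd.2.2.2.symm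
  rw [← e1] at h4
  have h5 : ht (act (act s a) b) < ht s := by omega
  rw [hN _ b (hcl _ _ hs) ha h5, hN (act s b) a (hcl _ _ hs) hb (e1 ▸ h5), ← e1, ← mul_assoc,
    ← mul_assoc, he.comm a b hd]

lemma peak_chain (he : Rels e) (hcl : ∀ s a, Good s → Good (act s a)) (hs : Good s)
    (hn : Nice ε s) {i j k : Fin n} (hij : i ≠ j) (hki : k ≠ i) (hkj : k ≠ j)
    (ha : ht (act s ⟨i, j, true, hij⟩) < ht s) (hb : ht (act s ⟨k, i, true, hki⟩) < ht s) :
    PeakOK act e Good ht s ⟨i, j, true, hij⟩ ⟨k, i, true, hki⟩ := by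
  intro N hN
  obtain ⟨y, hy⟩ := hn.near_mu i
  obtain ⟨v, hv⟩ := hn.near_mu j
  obtain ⟨u, hu⟩ := hn.near_nu k
  have hu2 := near_nu hy
  have hu1 := hu.fix (HH_inv_smul_one (s i).1)
  have b2 := desc_pos hij hu2 hv ha.le
  have b1 := (desc_pos hki hu hy hb.le).fix (HH_inv_smul_one (s i).1)
  set g : GG (Fin n) := (HH (s i).1)⁻¹ with hg
  have b1' : Btw ((g * nu s k * g⁻¹) • g • u) (g • y) := by
    rwa [mul_smul, mul_smul, inv_smul_smul]
  have hx : (g * nu s k * g⁻¹) • (1 : FreeGroup (Tm (Fin n))) = g • nu s k • 1 := by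
    rw [mul_smul, mul_smul, hg, inv_inv, HH_smul_one]
  have d1 := descend treeAct hu1 hv ((b1'.trans hu2.btw_fwd).trans b2)
  have d2 := descend_two treeAct hu1 hu2 hv b1' b2
  rw [rr_mu] at d1 d2
  set s1 := act s ⟨k, i, true, hki⟩ with hs1
  set s2 := act s1 ⟨k, j, true, hkj⟩ with hs2
  set s3 := act s2 ⟨i, j, true, hij⟩ with hs3
  set t1 := act s ⟨i, j, true, hij⟩ with ht1
  set t2 := act t1 ⟨k, j, true, hkj⟩ with ht2
  have e3 : s3 = act t2 ⟨k, i, true, hki⟩ := act_hex s hki hkj hij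
  have r2 : rr s2 j < rr s j := by
    have p : PosCr (s k) (s i) (s1 k) (s1 i) := posCr_act s hki
    have q : s1 j = s j := act_other s ⟨k, i, true, hki⟩ hkj.symm hij.symm
    have q' : mu s1 j = mu s j := by simp only [mu, q]
    rw [hs2, rr_act_pos, nu_over p, q']
    exact d1
  have r3 : rr t2 j < rr s j := by
    have p : PosCr (s i) (s j) (t1 i) (t1 j) := posCr_act s hij
    have q : t1 k = s k := act_other s ⟨i, j, true, hij⟩ hki hkj
    have q' : nu t1 k = nu s k := by simp only [nu, q]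
    rw [ht2, rr_act_pos, mu_under p, q', mul_smul, mul_smul,
      ← treeAct.dist_eq (KK (s i).2)⁻¹, inv_smul_smul]
    have : (KK (s i).2 : GG (Fin n))⁻¹ • nu s k • (1 : FreeGroup (Tm (Fin n))) =
        nu s i • (g * nu s k * g⁻¹) • 1 := by
      rw [hx, hg, nu.eq_1 s i, mul_smul, smul_inv_smul]
    rw [this]
    exact d2
  have a1 := ht_act s ⟨k, i, true, hki⟩
  have a2 := ht_act s1 ⟨k, j, true, hkj⟩
  have a3 := ht_act s2 ⟨i, j, true, hij⟩
  have a4 := ht_act s ⟨i, j, true, hij⟩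
  have a5 := ht_act t1 ⟨k, j, true, hkj⟩
  have c1 : rr s1 j = rr s j := rr_act_other s _ hij.symm
  have c2 : rr s3 j = rr t2 j := by rw [e3]; exact rr_act_other t2 _ hij.symm
  simp only [← hs1, ← hs2, ← hs3, ← ht1, ← ht2] at a1 a2 a3 a4 a5
  have g1 : Good s1 := hcl _ _ hs
  have g2 : Good s2 := hcl _ _ g1
  have g4 : Good t1 := hcl _ _ hs
  have g5 : Good t2 := hcl _ _ g4
  have l2 : ht s2 < ht s := by omega
  have l3 : ht s3 < ht s := by omega
  have l5 : ht t2 < ht s := by omega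
  rw [hN s1 _ g1 hb l2, hN s2 _ g2 l2 l3, hN t1 _ g4 ha l5, hN t2 ⟨k, i, true, hki⟩ g5 l5 (e3 ▸ l3),
    ← e3]
  simp only [← mul_assoc]
  rw [he.hex k i j hki hkj hij]

lemma peak_mixed (he : Rels e) (hcl : ∀ s a, Good s → Good (act s a)) (hs : Good s)
    (hn : Nice ε s) {i j k : Fin n} (hij : i ≠ j) (hkj : k ≠ j) (hlt : rr s i < rr s k)
    (ha : ht (act s ⟨i, j, true, hij⟩) < ht s) (hb : ht (act s ⟨k, j, false, hkj⟩) < ht s) :
    PeakOK act e Good ht s ⟨i, j, true, hij⟩ ⟨k, j, false, hkj⟩ := by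
  intro N hN
  have hik : i ≠ k := by rintro rfl; omega
  obtain ⟨v, hv⟩ := hn.near_mu j
  obtain ⟨u1, hu1⟩ := hn.near_nu i
  obtain ⟨y, hy⟩ := hn.near_mu k
  have b1 := desc_pos hij hu1 hv ha.le
  have b2 := (desc_neg hkj hy (near_nu hv) hb.le).fix (HH_smul_one (s j).1)
  have hu2 := hy.fix (HH_smul_one (s j).1)
  set g : GG (Fin n) := HH (s j).1 with hg
  have b2' : Btw ((g * mu s k * g⁻¹) • g • y) v := by
    rw [smul_inv_smul] at b2
    rwa [mul_smul, mul_smul, inv_smul_smul]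
  have n1 := hu1.norm_disp treeAct
  have n2 := hy.norm_disp treeAct
  rw [rr_nu] at n1
  rw [rr_mu] at n2
  have b3 : Btw (nu s i • u1) (g • y) := b1.total (hu2.btw_fwd.trans b2') (by
    rw [hu1.norm_fwd, norm_fix (HH_smul_one _)]; omega)
  have d1 := descend treeAct hu1 hu2 b3
  have d2 := descend_two treeAct hu1 hu2 hv b3 b2'
  rw [rr_mu] at d2
  rw [mul_smul _ _ (1 : FreeGroup (Tm (Fin n))), mul_smul _ _ (g⁻¹ • (1 : FreeGroup (Tm (Fin n)))),
    hg, HH_inv_smul_one, norm_fix (HH_smul_one _), rr_mu, ← hg] at d1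
  set s1 := act s ⟨i, j, true, hij⟩ with hs1
  set s2 := act s1 ⟨i, k, true, hik⟩ with hs2
  set s3 := act s2 ⟨k, j, false, hkj⟩ with hs3
  set t1 := act s ⟨k, j, false, hkj⟩ with ht1
  set t2 := act t1 ⟨i, k, true, hik⟩ with ht2
  have e3 : s3 = act t2 ⟨i, j, true, hij⟩ := by
    have h1 := act_hex t1 hik hij hkj
    have h2 : act t1 ⟨k, j, true, hkj⟩ = s := act_inv s ⟨k, j, false, hkj⟩
    rw [h2, ← hs1, ← hs2, ← ht2] at h1
    rw [hs3, ← h1]
    exact act_inv _ ⟨k, j, true, hkj⟩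
  have p : PosCr (s i) (s j) (s1 i) (s1 j) := posCr_act s hij
  have q : s1 k = s k := act_other s ⟨i, j, true, hij⟩ hik.symm hkj
  have q' : mu s1 k = mu s k := by simp only [mu, q]
  have hx : nu s1 i • (1 : FreeGroup (Tm (Fin n))) = g⁻¹ • nu s i • 1 := by
    rw [nu_over p, mul_smul, mul_smul, inv_inv, HH_smul_one]
  have r2 : rr s2 k < rr s k := by
    rw [hs2, rr_act_pos, q', hx, ← treeAct.dist_eq g, smul_inv_smul]
    rwa [mul_smul, mul_smul] at d1
  have r3 : rr s3 j < rr s j := by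
    have p2 : PosCr (s1 i) (s1 k) (s2 i) (s2 k) := posCr_act s1 hik
    have q2 : s2 j = s1 j := act_other s1 ⟨i, k, true, hik⟩ hij.symm hkj.symm
    have q2' : nu s2 j = nu s1 j := by simp only [nu, q2]
    have hx' : (KK (s1 i).2 : GG (Fin n))⁻¹ • (1 : FreeGroup (Tm (Fin n))) =
        g⁻¹ • nu s i • 1 := by rw [← hx, nu_one, KK_inv_smul, mul_one]
    rw [hs3, rr_act_neg, q2', nu_under p, mu_under p2, q']
    simp only [mul_smul, inv_smul_smul]
    rw [treeAct.dist_eq, hx', nu_eq s j, ← hg, ← treeAct.dist_eq (mu s j * g)]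
    simp only [mul_smul, inv_inv, smul_inv_smul] at d2 ⊢
    rwa [dist_comm']
  have a1 := ht_act s ⟨i, j, true, hij⟩
  have a2 := ht_act s1 ⟨i, k, true, hik⟩
  have a3 := ht_act s2 ⟨k, j, false, hkj⟩
  have a4 := ht_act s ⟨k, j, false, hkj⟩
  have a5 := ht_act t1 ⟨i, k, true, hik⟩
  have c1 : rr s1 k = rr s k := rr_act_other s _ hkj
  have c2 : rr s2 j = rr s1 j := rr_act_other s1 _ hkj.symm
  have c3 : rr t1 k = rr s k := rr_act_other s _ hkj
  have c4 : rr s3 k = rr t2 k := by rw [e3]; exact rr_act_other t2 _ hkj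
  have c5 : rr s3 k = rr s2 k := rr_act_other s2 _ hkj
  simp only [← hs1, ← hs2, ← hs3, ← ht1, ← ht2] at a1 a2 a3 a4 a5
  have g1 : Good s1 := hcl _ _ hs
  have g2 : Good s2 := hcl _ _ g1
  have g4 : Good t1 := hcl _ _ hs
  have g5 : Good t2 := hcl _ _ g4
  have l2 : ht s2 < ht s := by omega
  have l3 : ht s3 < ht s := by omega
  have l5 : ht t2 < ht s := by omega
  rw [hN s1 _ g1 ha l2, hN s2 _ g2 l2 l3, hN t1 _ g4 hb l5, hN t2 ⟨i, j, true, hij⟩ g5 l5 (e3 ▸ l3),
    ← e3]
  simp only [← mul_assoc]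
  congr 1
  have h1 := he.hex i k j hik hij hkj
  have h2 : e ⟨k, j, false, hkj⟩ = (e ⟨k, j, true, hkj⟩)⁻¹ := he.inv ⟨k, j, true, hkj⟩
  rw [h2, mul_inv_eq_iff_eq_mul, mul_assoc, mul_assoc, eq_inv_mul_iff_mul_eq, ← mul_assoc,
    ← mul_assoc, h1]

lemma peak_pp (he : Rels e) (hcl : ∀ s a, Good s → Good (act s a)) (hs : Good s)
    (hn : Nice ε s) {i j k l : Fin n} (hij : i ≠ j) (hkl : k ≠ l)
    (ha : ht (act s ⟨i, j, true, hij⟩) < ht s) (hb : ht (act s ⟨k, l, true, hkl⟩) < ht s) :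
    PeakOK act e Good ht s ⟨i, j, true, hij⟩ ⟨k, l, true, hkl⟩ := by
  obtain ⟨u, hu⟩ := hn.near_nu i
  obtain ⟨v, hv⟩ := hn.near_mu j
  obtain ⟨u', hu'⟩ := hn.near_nu k
  obtain ⟨v', hv'⟩ := hn.near_mu l
  have b := desc_pos hij hu hv ha.le
  have b' := desc_pos hkl hu' hv' hb.le
  obtain ⟨z, z1, z2, z3, z4, z5⟩ := first_vertex hu hv b
  obtain ⟨w, w1, w2, w3, w4, w5⟩ := first_vertex hu' hv' b'
  rw [nu_one] at z3 w3
  rw [mu_one] at z5 w5
  by_cases h1 : i = k
  · subst h1
    by_cases h2 : j = l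
    · subst h2; exact fun _ _ => rfl
    · obtain rfl := z3.unique w3 (z1.trans w1.symm)
      exact (hn.bL j l z h2 z1 z5 w5).elim
  by_cases h2 : j = l
  · subst h2
    obtain rfl := z5.unique w5 (z1.trans w1.symm)
    exact (hn.bR i k z h1 z1 z3 w3).elim
  have n1 := hu.norm_disp treeAct
  have n2 := hv.norm_disp treeAct
  have n3 := hu'.norm_disp treeAct
  have n4 := hv'.norm_disp treeAct
  rw [rr_nu] at n1 n3
  rw [rr_mu] at n2 n4
  have m1 := b.le
  have m2 := b'.le
  rw [hu.norm_fwd] at m1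
  rw [hu'.norm_fwd] at m2
  by_cases h3 : i = l
  · subst h3
    by_cases h4 : j = k
    · subst h4; omega
    · exact peak_chain he hcl hs hn hij hkl (Ne.symm h4) ha hb
  by_cases h4 : j = k
  · subst h4
    exact (peak_chain he hcl hs hn hkl hij h3 hb ha).symm
  exact peak_disj he hcl hs ⟨h1, h3, h4, h2⟩ ha hb

lemma peak_pm (he : Rels e) (hcl : ∀ s a, Good s → Good (act s a)) (hs : Good s)
    (hn : Nice ε s) {i j k l : Fin n} (hij : i ≠ j) (hkl : k ≠ l)
    (ha : ht (act s ⟨i, j, true, hij⟩) < ht s) (hb : ht (act s ⟨k, l, false, hkl⟩) < ht s) :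
    PeakOK act e Good ht s ⟨i, j, true, hij⟩ ⟨k, l, false, hkl⟩ := by
  obtain ⟨u, hu⟩ := hn.near_nu i
  obtain ⟨v, hv⟩ := hn.near_mu j
  obtain ⟨u', hu'⟩ := hn.near_mu k
  by_cases h2 : j = l
  · subst h2
    rcases lt_trichotomy (rr s i) (rr s k) with h | h | h
    · exact peak_mixed he hcl hs hn hij hkl h ha hb
    · exfalso
      have b1 := desc_pos hij hu hv ha.le
      have b2 := (desc_neg hkl hu' (near_nu hv) hb.le).fix (HH_smul_one (s j).1)
      have hu2 := hu'.fix (HH_smul_one (s j).1)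
      set g : GG (Fin n) := HH (s j).1 with hg
      have b2' : Btw ((g * mu s k * g⁻¹) • g • u') v := by
        rw [smul_inv_smul] at b2
        rwa [mul_smul, mul_smul, inv_smul_smul]
      have n1 := hu.norm_disp treeAct
      have n2 := hu'.norm_disp treeAct
      rw [rr_nu] at n1
      rw [rr_mu] at n2
      have n3 : (g • u').norm = u'.norm := norm_fix (HH_smul_one _) _
      have e1 := (hu.btw_fwd.trans b1).unique (hu2.btw_fwd.trans b2') (by omega)
      have e2 := b1.unique b2' (by rw [hu.norm_fwd, hu2.norm_fwd]; omega)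
      obtain ⟨c, -, hc⟩ := hu.1
      obtain ⟨c', -, hc'⟩ := hu2.1
      rw [hc, hc', ← e1] at e2
      have := congrArg Prod.snd (sg_inj (mul_left_cancel e2))
      simp at this
    · apply PeakOK.symm
      apply PeakOK.of_mir
      refine peak_mixed he.mir ?_ (by simpa using hs) hn.mir hkl hij (by simpa [rr_mir] using h) ?_ ?_
      · intro t c ht
        rw [← act_mir]; exact hcl _ _ ht
      · rw [act_mir', ht_mir, ht_mir]; exact hb
      · rw [act_mir', ht_mir, ht_mir]; exact ha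
  obtain ⟨v', hv'⟩ := hn.near_nu l
  have b := desc_pos hij hu hv ha.le
  have b' := desc_neg hkl hu' hv' hb.le
  by_cases h1 : i = k
  · subst h1
    exact (hn.b2 i j l u v u' v' h2 hu hv hu' hv' b b').elim
  obtain ⟨z, z1, z2, z3, z4, z5⟩ := first_vertex hu hv b
  obtain ⟨w, w1, w2, w3, w4, w5⟩ := first_vertex hu' hv' b'
  rw [nu_one] at z3 w5
  rw [mu_one] at z5 w3
  have n1 := hu.norm_disp treeAct
  have n2 := hv.norm_disp treeAct
  have n3 := hu'.norm_disp treeAct
  have n4 := hv'.norm_disp treeAct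
  rw [rr_nu] at n1 n4
  rw [rr_mu] at n2 n3
  have m1 := b.le
  have m2 := b'.le
  rw [hu.norm_fwd] at m1
  rw [hu'.norm_fwd] at m2
  by_cases h3 : i = l
  · subst h3
    by_cases h4 : j = k
    · subst h4; omega
    · obtain rfl := z3.unique w5 (z1.trans w1.symm)
      exact (hn.bL j k z h4 z1 z5 w3).elim
  by_cases h4 : j = k
  · subst h4
    obtain rfl := z5.unique w3 (z1.trans w1.symm)
    exact (hn.bR i l z h3 z1 z3 w5).elim
  exact peak_disj he hcl hs ⟨h1, h3, h4, h2⟩ ha hb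

lemma peak_all (he : Rels e) (hcl : ∀ s a, Good s → Good (act s a)) (hs : Good s)
    (hn : Nice ε s) (a b : Ltr n) (ha : ht (act s a) < ht s) (hb : ht (act s b) < ht s) :
    PeakOK act e Good ht s a b := by
  obtain ⟨i, j, x, hij⟩ := a
  obtain ⟨k, l, y, hkl⟩ := b
  cases x <;> cases y
  · apply PeakOK.of_mir
    refine peak_pp he.mir ?_ (by simpa using hs) hn.mir hij hkl ?_ ?_
    · intro t c ht
      rw [← act_mir]; exact hcl _ _ ht
    · rw [act_mir', ht_mir, ht_mir]; exact ha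
    · rw [act_mir', ht_mir, ht_mir]; exact hb
  · exact (peak_pm he hcl hs hn hkl hij hb ha).symm
  · exact peak_pm he hcl hs hn hij hkl ha hb
  · exact peak_pp he hcl hs hn hij hkl ha hb

end peak

end Pool.Agent.MP_e4304e_gt

end

section

/-! The invariants of the states reachable from the generic state, and freeness of the action. -/

namespace Pool.Agent.MP_e4304e_gt

open FreeGroup hiding map_mul map_one map_inv
open Tm

variable {n : ℕ}

/-- The additive extension of a function on letters. -/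
noncomputable def ev {α : Type} (F : α → ℤ) (x : FreeGroup α) : ℤ :=
  (FreeGroup.lift (fun a => Multiplicative.ofAdd (F a)) x).toAdd

lemma ev_mul {α : Type} (F : α → ℤ) (x y : FreeGroup α) : ev F (x * y) = ev F x + ev F y := by
  simp [ev]

lemma ev_inv {α : Type} (F : α → ℤ) (x : FreeGroup α) : ev F x⁻¹ = - ev F x := by
  simp [ev]

lemma ev_one {α : Type} (F : α → ℤ) : ev F 1 = 0 := by simp [ev]

lemma ev_of {α : Type} (F : α → ℤ) (a : α) : ev F (of a) = F a := by simp [ev]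

lemma ev_sg {α : Type} (F : α → ℤ) (a : α) (e : Bool) :
    ev F (sg (a, e)) = if e then F a else - F a := by
  cases e
  · simp [sg_false, ev_inv, ev_of]
  · simp [sg_true, ev_of]

section lab

variable {ι : Type}

/-- The label of the image of the edge `(p, b)` under `g`. -/
noncomputable def lab (g : GG ι) (p : FreeGroup (Tm ι)) (b : Tm ι) : Tm ι :=
  (treeAct g p b).choose

lemma lab_spec (g : GG ι) (p : FreeGroup (Tm ι)) (b : Tm ι) :
    g • (p * of b) = g • p * of (lab g p b) := (treeAct g p b).choose_spec.2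

lemma ty_lab (g : GG ι) (p : FreeGroup (Tm ι)) (b : Tm ι) : ty (lab g p b) = ty b :=
  (treeAct g p b).choose_spec.1

lemma lab_eq {g : GG ι} {p : FreeGroup (Tm ι)} {b b' : Tm ι}
    (h : g • (p * of b) = g • p * of b') : lab g p b = b' := by
  rw [lab_spec] at h
  exact of_injective (mul_left_cancel h)

lemma lab_mul (g g' : GG ι) (p : FreeGroup (Tm ι)) (b : Tm ι) :
    lab (g * g') p b = lab g (g' • p) (lab g' p b) := by
  apply lab_eq
  rw [mul_smul, lab_spec, lab_spec, mul_smul]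

lemma lab_KK (k p : FreeGroup (Tm ι)) (b : Tm ι) : lab (KK k : GG ι) p b = b := by
  apply lab_eq
  rw [KK_smul, KK_smul, mul_assoc]

lemma lab_one (p : FreeGroup (Tm ι)) (b : Tm ι) : lab (1 : GG ι) p b = b := by
  apply lab_eq
  rw [one_smul, one_smul]

/-- Edges of the tree. -/
abbrev Edge (ι : Type) := FreeGroup (Tm ι) × Tm ι

noncomputable instance : MulAction (GG ι) (Edge ι) where
  smul g E := (g • E.1, lab g E.1 E.2)
  one_smul _ := Prod.ext (one_smul _ _) (lab_one _ _)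
  mul_smul _ _ _ := Prod.ext (mul_smul _ _ _) (lab_mul _ _ _ _)

lemma edge_smul (g : GG ι) (E : Edge ι) : g • E = (g • E.1, lab g E.1 E.2) := rfl

lemma KK_edge (k : FreeGroup (Tm ι)) (E : Edge ι) : ((KK k : GG ι) • E).2 = E.2 := lab_KK _ _ _

lemma KK_inv_edge (k : FreeGroup (Tm ι)) (E : Edge ι) : ((KK k : GG ι)⁻¹ • E).2 = E.2 := by
  rw [← map_inv, KK_edge]

end lab

/-- Increments of a function on labels along the edges given by the state. -/
noncomputable def incr (s : St n) (Φ : Tm (Fin n) → ℤ) (j : Fin n) (E : Edge (Fin n)) : ℤ :=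
  Φ ((HH (s j).1 : GG (Fin n))⁻¹ • E).2 - Φ E.2

structure Good (s : St n) : Prop where
  ax : ∀ i, ∃ y, Ax ty (mu s i) i true y
  ab : ∀ F : Tm (Fin n) → ℤ, ∑ i, ev F (s i).2 = ∑ i, F (base i)
  forest : ∀ f : Fin n → Edge (Fin n) → ℤ, ∃ Φ, ∀ j E, incr s Φ j E = f j E

/-- The generic state. -/
def s₀ (n : ℕ) : St n := fun i => (of (base i), of (base i))

lemma good_base : Good (s₀ n) where
  ax i := ⟨1, base i, rfl, by rw [mu_one]; simp [s₀, sg_true]⟩
  ab F := by simp [s₀, ev_of]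
  forest f := by
    obtain ⟨Φ, h⟩ := base_forest (fun j p b => f j (p, b))
    exact ⟨Φ, fun j E => h j E.1 E.2 _ (lab_spec _ _ _)⟩

section step

variable {s s' : St n} {i j : Fin n}

lemma incr_under (h : PosCr (s i) (s j) (s' i) (s' j)) (Φ : Tm (Fin n) → ℤ) (E : Edge (Fin n)) :
    incr s' Φ j E = incr s Φ j ((KK (s i).2 : GG (Fin n))⁻¹ • E) := by
  obtain ⟨-, -, h3⟩ := h.key
  simp only [incr, h3, mul_inv_rev, inv_inv, mul_smul, KK_edge, KK_inv_edge]

lemma incr_over (h : PosCr (s i) (s j) (s' i) (s' j)) (Φ : Tm (Fin n) → ℤ) (E : Edge (Fin n)) :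
    incr s' Φ i E =
      incr s Φ j ((HH (s i).1 : GG (Fin n))⁻¹ • (HH (s' j).1 : GG (Fin n)) • E) +
      incr s Φ i ((HH (s' j).1 : GG (Fin n)) • E) -
      incr s Φ j ((KK (s i).2 : GG (Fin n))⁻¹ • (HH (s' j).1 : GG (Fin n)) • E) := by
  rw [← incr_under h]
  obtain ⟨h1, -, -⟩ := h.key
  simp only [incr, h1, mul_inv_rev, inv_inv, mul_smul, inv_smul_smul]
  ring

lemma good_iff (hij : i ≠ j) (h : PosCr (s i) (s j) (s' i) (s' j))
    (ho : ∀ l, l ≠ i → l ≠ j → s' l = s l) : Good s ↔ Good s' := by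
  have hsum : ∀ F : Tm (Fin n) → ℤ, ∑ l, ev F (s l).2 = ∑ l, ev F (s' l).2 := by
    intro F
    have e := congrArg (ev F) h.2.1
    rw [ev_mul, ev_mul] at e
    have hj : j ∈ Finset.univ.erase i := by simp [hij.symm]
    rw [← Finset.add_sum_erase _ _ (Finset.mem_univ i), ← Finset.add_sum_erase _ _ hj,
      ← Finset.add_sum_erase _ (fun l => ev F (s' l).2) (Finset.mem_univ i),
      ← Finset.add_sum_erase _ (fun l => ev F (s' l).2) hj]
    have : ∑ l ∈ (Finset.univ.erase i).erase j, ev F (s l).2 =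
        ∑ l ∈ (Finset.univ.erase i).erase j, ev F (s' l).2 :=
      Finset.sum_congr rfl fun l hl => by
        simp only [Finset.mem_erase] at hl
        rw [ho l hl.2.1 hl.1]
    rw [this]; omega
  have hmu : ∀ l, ∃ g, mu s' l = g * mu s l * g⁻¹ := by
    intro l
    by_cases h1 : l = i
    · exact ⟨_, by rw [h1, mu_over h]⟩
    by_cases h2 : l = j
    · exact ⟨_, by rw [h2, mu_under h]⟩
    exact ⟨1, by simp [mu, ho l h1 h2]⟩
  have hother : ∀ Φ l E, l ≠ i → l ≠ j → incr s' Φ l E = incr s Φ l E := by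
    intro Φ l E h1 h2
    simp only [incr, ho l h1 h2]
  set κ : GG (Fin n) := KK (s i).2
  set η : GG (Fin n) := HH (s' j).1
  set θ : GG (Fin n) := HH (s i).1
  constructor
  · intro hs
    refine ⟨fun l => ?_, fun F => (hsum F).symm.trans (hs.ab F), fun f => ?_⟩
    · obtain ⟨g, e⟩ := hmu l
      obtain ⟨y, hy⟩ := hs.ax l
      exact ⟨_, e ▸ hy.conj treeAct g⟩
    · obtain ⟨Φ, hΦ⟩ := hs.forest (fun l E => if l = j then f j (κ • E) else if l = i then
        f i (η⁻¹ • E) - f j (κ • θ⁻¹ • E) + f j E else f l E)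
      refine ⟨Φ, fun l E => ?_⟩
      by_cases h2 : l = j
      · rw [h2, incr_under h, hΦ]; simp [κ]
      by_cases h1 : l = i
      · rw [h1, incr_over h, hΦ, hΦ, hΦ]; simp [hij, κ, η, θ]; ring
      rw [hother Φ l E h1 h2, hΦ]; simp [h1, h2]
  · intro hs
    refine ⟨fun l => ?_, fun F => (hsum F).trans (hs.ab F), fun f => ?_⟩
    · obtain ⟨g, e⟩ := hmu l
      obtain ⟨y, hy⟩ := hs.ax l
      refine ⟨g⁻¹ • y, ?_⟩
      have := hy.conj treeAct g⁻¹
      rwa [e, show g⁻¹ * (g * mu s l * g⁻¹) * g⁻¹⁻¹ = mu s l by group] at this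
    · obtain ⟨Φ, hΦ⟩ := hs.forest (fun l E => if l = j then f j (κ⁻¹ • E) else if l = i then
        f j (θ⁻¹ • η • E) + f i (η • E) - f j (κ⁻¹ • η • E) else f l E)
      have hj : ∀ E, incr s Φ j E = f j E := by
        intro E
        have := hΦ j (κ • E)
        rw [incr_under h] at this
        simpa [κ] using this
      refine ⟨Φ, fun l E => ?_⟩
      by_cases h2 : l = j
      · rw [h2, hj]
      by_cases h1 : l = i
      · have := hΦ i (η⁻¹ • E)
        rw [incr_over h, hj, hj] at this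
        simp only [hij, if_false, if_true, η, θ, κ, smul_inv_smul] at this
        rw [h1]; omega
      rw [← hother Φ l E h1 h2, hΦ]; simp [h1, h2]

end step

lemma Good.act {s : St n} (hs : Good s) (a : Ltr n) : Good (act s a) := by
  obtain ⟨i, j, e, hij⟩ := a
  have h := step_act s ⟨i, j, e, hij⟩
  cases e
  · exact (good_iff hij h.1 (fun l h1 h2 => (h.2 l h1 h2).symm)).2 hs
  · exact (good_iff hij h.1 h.2).1 hs

section geom

variable {s : St n} {y : Fin n → FreeGroup (Tm (Fin n))} {c : Fin n → Tm (Fin n)}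
  {Φ : Tm (Fin n) → ℤ}

/-- Strand `j` passes under the strand `t` at level `l`. -/
def Xing (_s : St n) (y : Fin n → FreeGroup (Tm (Fin n))) (Φ : Tm (Fin n) → ℤ) (j t : Fin n)
    (l : ℤ) : Prop :=
  ∃ p b e, Btw (p * sg (b, e)) (y j) ∧ (p * sg (b, e)).norm = p.norm + 1 ∧ ty b = t ∧
    l = if e then Φ b else Φ b - 1

/-- The indicator of the labels of type `t` above level `l`. -/
noncomputable def lev (Φ : Tm (Fin n) → ℤ) (t : Fin n) (l : ℤ) (b : Tm (Fin n)) : ℤ :=
  if ty b = t ∧ l < Φ b then 1 else 0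

noncomputable def dd (s : St n) (F : Tm (Fin n) → ℤ) (j : Fin n) (z : FreeGroup (Tm (Fin n))) :
    ℤ := ev F ((HH (s j).1 : GG (Fin n))⁻¹ • z) - ev F z

lemma cross_step (hΦ : ∀ j E, incr s Φ j E =
      if dist' (y j) (E.1 * of E.2) < dist' (y j) E.1 then 1 else -1)
    {j : Fin n} {p : FreeGroup (Tm (Fin n))} {b : Tm (Fin n)} {e : Bool}
    (h1 : Btw (p * sg (b, e)) (y j)) (h2 : (p * sg (b, e)).norm = p.norm + 1) :
    ∃ b', ty b' = ty b ∧ (HH (s j).1 : GG (Fin n))⁻¹ • (p * sg (b, e)) =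
      (HH (s j).1 : GG (Fin n))⁻¹ • p * sg (b', e) ∧
      Φ b' = if e then Φ b + 1 else Φ b - 1 := by
  have h3 : Btw p (p * sg (b, e)) := by unfold Btw; rw [dist_mul_sg, h2]
  have h4 := h3.dist_add h1
  rw [dist_mul_sg, dist_comm' p, dist_comm' _ (y j)] at h4
  cases e
  · have := hΦ j (p * sg (b, false), b)
    have e1 : p * sg (b, false) * of b = p := by rw [sg_false]; group
    simp only [e1, incr, edge_smul] at this
    rw [if_neg (by omega)] at this
    refine ⟨_, ty_lab (HH (s j).1 : GG (Fin n))⁻¹ (p * sg (b, false)) b, ?_,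
      by simp only [Bool.false_eq_true, if_false]; omega⟩
    have := lab_spec (HH (s j).1 : GG (Fin n))⁻¹ (p * sg (b, false)) b
    rw [e1] at this
    rw [this, sg_false (lab _ _ _), mul_inv_cancel_right]
  · have := hΦ j (p, b)
    simp only [incr, edge_smul] at this
    rw [sg_true] at h4
    rw [if_pos (by omega)] at this
    exact ⟨_, ty_lab _ p b, lab_spec _ _ _, by simp only [if_true]; omega⟩

lemma dd_step (hΦ : ∀ j E, incr s Φ j E =
      if dist' (y j) (E.1 * of E.2) < dist' (y j) E.1 then 1 else -1)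
    {j : Fin n} {p : FreeGroup (Tm (Fin n))} {b : Tm (Fin n)} {e : Bool}
    (h1 : Btw (p * sg (b, e)) (y j)) (h2 : (p * sg (b, e)).norm = p.norm + 1) (t : Fin n) (l : ℤ) :
    dd s (lev Φ t l) j (p * sg (b, e)) = dd s (lev Φ t l) j p +
      if ty b = t ∧ l = (if e then Φ b else Φ b - 1) then 1 else 0 := by
  obtain ⟨b', c1, c2, c3⟩ := cross_step hΦ h1 h2
  simp only [dd, c2, ev_mul, ev_sg, lev, c1, c3]
  cases e <;> by_cases ht : ty b = t <;> simp [ht] <;> split_ifs <;> omega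

lemma dd_mono (hΦ : ∀ j E, incr s Φ j E =
      if dist' (y j) (E.1 * of E.2) < dist' (y j) E.1 then 1 else -1)
    {j : Fin n} (t : Fin n) (l : ℤ) {z' : FreeGroup (Tm (Fin n))} (h' : Btw z' (y j)) :
    ∀ (m : ℕ) (z : FreeGroup (Tm (Fin n))), z.norm + m = z'.norm → Btw z z' →
      dd s (lev Φ t l) j z ≤ dd s (lev Φ t l) j z' := by
  intro m
  induction m with
  | zero =>
    intro z h1 h2
    rw [h2.unique (Btw.refl z') h1]
  | succ m ih =>
    intro z h1 h2
    obtain ⟨⟨b, e⟩, h3, h4⟩ := h2.step (by omega)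
    have h5 := ih _ (by omega) h3
    rw [dd_step hΦ (h3.trans h') h4] at h5
    split_ifs at h5 <;> omega

lemma dd_one (F : Tm (Fin n) → ℤ) (j : Fin n) : dd s F j 1 = 0 := by
  simp [dd, HH_inv_smul_one]

lemma dd_nonneg (hΦ : ∀ j E, incr s Φ j E =
      if dist' (y j) (E.1 * of E.2) < dist' (y j) E.1 then 1 else -1)
    {j : Fin n} (t : Fin n) (l : ℤ) {z : FreeGroup (Tm (Fin n))} (h : Btw z (y j)) :
    0 ≤ dd s (lev Φ t l) j z := by
  have := dd_mono hΦ t l h z.norm 1 (by simp) (Btw.one z)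
  rwa [dd_one] at this

lemma dd_pos (hΦ : ∀ j E, incr s Φ j E =
      if dist' (y j) (E.1 * of E.2) < dist' (y j) E.1 then 1 else -1)
    {j t : Fin n} {l : ℤ} (h : Xing s y Φ j t l) : 1 ≤ dd s (lev Φ t l) j (y j) := by
  obtain ⟨p, b, e, h1, h2, h3, h4⟩ := h
  have h5 : Btw p (p * sg (b, e)) := by unfold Btw; rw [dist_mul_sg, h2]
  have h6 := dd_nonneg hΦ t l (h5.trans h1)
  have h7 := dd_step hΦ h1 h2 t l
  rw [if_pos ⟨h3, h4⟩] at h7
  have h8 := dd_mono hΦ t l (Btw.refl (y j)) ((y j).norm - (p * sg (b, e)).norm) _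
    (by have := h1.le; omega) h1
  omega

lemma dd_total (hs : Good s) (hc : ∀ j, ty (c j) = j ∧ mu s j • y j = y j * of (c j))
    (t : Fin n) (l : ℤ) :
    ∑ j, dd s (lev Φ t l) j (y j) ≤ if l < Φ (c t) then 1 else 0 := by
  have h1 : ∀ j, dd s (lev Φ t l) j (y j) = lev Φ t l (c j) - ev (lev Φ t l) (s j).2 := by
    intro j
    have := congrArg (ev (lev Φ t l)) (hc j).2
    rw [mu, mul_smul, KK_smul, ev_mul, ev_mul, ev_of] at this
    unfold dd; omega
  simp only [h1, Finset.sum_sub_distrib, hs.ab]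
  have h2 : ∑ j, lev Φ t l (c j) = if l < Φ (c t) then 1 else 0 := by
    rw [Finset.sum_eq_single t]
    · simp [lev, (hc t).1]
    · intro j _ hj; simp [lev, (hc j).1, hj]
    · simp
  have h3 : 0 ≤ ∑ j, lev Φ t l (base j) :=
    Finset.sum_nonneg fun j _ => by unfold lev; split_ifs <;> omega
  omega

end geom

lemma Good.nice {s : St n} (hs : Good s) : Nice true s := by
  have hy : ∀ j, ∃ y, Near ty (mu s j) j true 1 y := fun j => by
    obtain ⟨y, hy⟩ := hs.ax j
    exact hy.exists_near treeAct 1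
  choose y hy using hy
  have hc : ∀ j, ∃ c, ty c = j ∧ mu s j • y j = y j * of c := fun j => (hy j).1
  choose c hc using hc
  obtain ⟨Φ, hΦ⟩ := hs.forest
    (fun j E => if dist' (y j) (E.1 * of E.2) < dist' (y j) E.1 then 1 else -1)
  have nn : ∀ t l j, 0 ≤ dd s (lev Φ t l) j (y j) := fun t l j => dd_nonneg hΦ t l (Btw.refl _)
  have G2 : ∀ j t l, Xing s y Φ j t l → l < Φ (c t) := by
    intro j t l h
    have h1 := dd_pos hΦ h
    have h2 := dd_total (Φ := Φ) hs hc t l
    have h3 := Finset.single_le_sum (fun i _ => nn t l i) (Finset.mem_univ j)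
    split_ifs at h2
    · assumption
    · omega
  have G1 : ∀ j j' t l, j ≠ j' → Xing s y Φ j t l → Xing s y Φ j' t l → False := by
    intro j j' t l hne h h'
    have h1 := dd_pos hΦ h
    have h1' := dd_pos hΦ h'
    have h2 := dd_total (Φ := Φ) hs hc t l
    have h3 := Finset.sum_le_sum_of_subset_of_nonneg (Finset.subset_univ {j, j'})
      (fun i _ _ => nn t l i)
    rw [Finset.sum_pair hne] at h3
    split_ifs at h2 <;> omega
  have hw := fun j => near_nu (hy j)
  set w : Fin n → FreeGroup (Tm (Fin n)) := fun j => (HH (s j).1 : GG (Fin n))⁻¹ • y j with hwd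
  have hcw : ∀ j, nu s j • w j = w j * sg (c j, false) := by
    intro j
    have := (hc j).2
    rw [mu, mul_smul, KK_smul] at this
    rw [nu, mul_smul, hwd, smul_inv_smul, KK_inv_smul, sg_false, eq_mul_inv_iff_mul_eq, mul_assoc,
      ← this]
    group
  have XR : ∀ j q b e, Btw (q * sg (b, e)) (w j) → (q * sg (b, e)).norm = q.norm + 1 →
      Xing s y Φ j (ty b) (if e then Φ b - 1 else Φ b) := by
    intro j q b e h1 h2
    obtain ⟨b0, e1, e2⟩ := treeAct.sg (HH (s j).1 : GG (Fin n)) q b e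
    have h3 := h1.fix (HH_smul_one (s j).1)
    rw [hwd, smul_inv_smul, e2] at h3
    have h4 : ((HH (s j).1 : GG (Fin n)) • q * sg (b0, e)).norm =
        ((HH (s j).1 : GG (Fin n)) • q).norm + 1 := by
      rw [← e2, norm_fix (HH_smul_one _), norm_fix (HH_smul_one _), h2]
    obtain ⟨b', -, c2, c3⟩ := cross_step hΦ h3 h4
    rw [← e2, inv_smul_smul, inv_smul_smul] at c2
    obtain rfl : b = b' := congrArg Prod.fst (sg_inj (mul_left_cancel c2))
    refine ⟨_, b0, e, h3, h4, e1, ?_⟩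
    cases e <;> simp at c3 ⊢ <;> omega
  have ZL : ∀ j b e, Btw (sg (b, e)) (s j).2 →
      Xing s y Φ j (ty b) (if e then Φ b else Φ b - 1) ∨ (e = true ∧ b = c j) := by
    intro j b e h
    have h1 := (hy j).btw_disp treeAct
    rw [mu_one] at h1
    by_cases h0 : (y j).norm = 0
    · right
      have h2 := h.unique h1 (by rw [(hy j).norm_fwd, h0, norm_sg])
      rw [(hc j).2, norm_eq_zero.1 h0, one_mul, ← sg_true] at h2
      have := sg_inj h2
      simp only [Prod.mk.injEq] at this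
      exact ⟨this.2, this.1⟩
    · left
      refine ⟨1, b, e, ?_, by simp [norm_sg], rfl, rfl⟩
      rw [one_mul]
      exact h.total ((hy j).btw_fwd.trans h1) (by rw [norm_sg]; omega)
  have ZR : ∀ j b e, Btw (sg (b, e)) (s j).2⁻¹ →
      Xing s y Φ j (ty b) (if e then Φ b - 1 else Φ b) ∨ (e = false ∧ b = c j) := by
    intro j b e h
    have h1 := (hw j).btw_disp treeAct
    rw [nu_one] at h1
    by_cases h0 : (w j).norm = 0
    · right
      have h2 := h.unique h1 (by rw [(hw j).norm_fwd, h0, norm_sg])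
      rw [hcw, norm_eq_zero.1 h0, one_mul] at h2
      have := sg_inj h2
      simp only [Prod.mk.injEq] at this
      exact ⟨this.2, this.1⟩
    · left
      refine XR j 1 b e ?_ (by simp [norm_sg])
      rw [one_mul]
      exact h.total ((hw j).btw_fwd.trans h1) (by rw [norm_sg]; omega)
  have uniq : ∀ (m : GG (Fin n)) t e (u u' : FreeGroup (Tm (Fin n))), Near ty m t e 1 u → Near ty m t e 1 u' → u = u' := by
    intro m t e u u' h h'
    have n1 := h.norm_disp treeAct
    have n2 := h'.norm_disp treeAct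
    exact (h.btw_fwd.trans (h.btw_disp treeAct)).unique
      (h'.btw_fwd.trans (h'.btw_disp treeAct)) (by omega)
  refine ⟨hs.ax, ?_, ?_, ?_⟩
  · intro j l z hne hz h1 h2
    obtain ⟨⟨b, e⟩, rfl⟩ := exists_sg_of_norm_one hz
    rcases ZL j b e h1 with a | ⟨rfl, rfl⟩ <;> rcases ZL l _ _ h2 with a' | ⟨a1, a2⟩
    · exact G1 _ _ _ _ hne a a'
    · subst a1 a2
      have := G2 _ _ _ a
      rw [(hc l).1] at this
      simp at this
    · have := G2 _ _ _ a'
      rw [(hc j).1] at this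
      simp at this
    · exact hne (by rw [← (hc j).1, a2, (hc l).1])
  · intro j l z hne hz h1 h2
    obtain ⟨⟨b, e⟩, rfl⟩ := exists_sg_of_norm_one hz
    rcases ZR j b e h1 with a | ⟨rfl, rfl⟩ <;> rcases ZR l _ _ h2 with a' | ⟨a1, a2⟩
    · exact G1 _ _ _ _ hne a a'
    · subst a1 a2
      have := G2 _ _ _ a
      rw [(hc l).1] at this
      simp at this
    · have := G2 _ _ _ a'
      rw [(hc j).1] at this
      simp at this
    · exact hne (by rw [← (hc j).1, a2, (hc l).1])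
  · intro i j l u v u' v' hne h1 h2 h3 h4 h5 h6
    obtain rfl := uniq _ _ _ _ _ h1 (hw i)
    obtain rfl := uniq _ _ _ _ _ h2 (hy j)
    obtain rfl := uniq _ _ _ _ _ h3 (hy i)
    obtain rfl := uniq _ _ _ _ _ h4 (hw l)
    have n1 := h1.norm_fwd
    have n3 := h3.norm_fwd
    change Btw (nu s i • w i) _ at h5
    change (nu s i • w i).norm = (w i).norm + 1 at n1
    rw [hcw] at h5 n1
    rw [(hc i).2, ← sg_true] at h6 n3
    have a' := XR l _ _ _ h6 n3
    exact G1 j l _ _ hne ⟨_, _, _, h5, n1, rfl, rfl⟩ a'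

/-- The action on good states is free: a cocycle recovers the group element. -/
theorem exists_cocycle {Γ : Type} [Group Γ] {e : Ltr n → Γ} (he : Rels e) :
    ∃ N : St n → Γ, ∀ s a, Good s → N s = e a * N (act s a) := by
  obtain ⟨N, -, hN⟩ := peak_reduction act e Good ht Ltr.inv act_inv he.inv
    (fun s a hs => hs.act a) (fun s a hs => hs.nice.ht_ne a)
    (fun s a b hs ha hb => peak_all he (fun s a hs => hs.act a) hs hs.nice a b ha hb)
  exact ⟨N, hN⟩

end Pool.Agent.MP_e4304e_gt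

end
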