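import Pool.Agent.MP_e4304e_gt.Defs
import Pool.Agent.Mg.Fe4304eq.Gb83945

set_option linter.all false

/-! The symmetric group inside the virtual braid group, and the pure generators. -/

namespace Pool.Agent.MP_e4304e_gt

open Equiv

variable {n : ℕ}

def tp (i : Fin n) : Perm (Fin (n + 1)) := swap i.castSucc i.succ

lemma tp_mul_self (i : Fin n) : tp i * tp i = 1 := swap_mul_self _ _

lemma tp_cast (i : Fin n) : tp i i.castSucc = i.succ := swap_apply_left _ _
lemma tp_succ (i : Fin n) : tp i i.succ = i.castSucc := swap_apply_right _ _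

lemma tp_other (i : Fin n) {x : Fin (n + 1)} (h1 : x.val ≠ i.val) (h2 : x.val ≠ i.val + 1) :
    tp i x = x :=
  swap_apply_of_ne_of_ne (fun h => h1 (by simp [h])) (fun h => h2 (by simp [h]))

lemma tp_val (i : Fin n) (x : Fin (n + 1)) : (tp i x).val =
    if x.val = i.val then i.val + 1 else if x.val = i.val + 1 then i.val else x.val := by
  split_ifs with h1 h2
  · rw [show x = i.castSucc from Fin.ext h1, tp_cast]; rfl
  · rw [show x = i.succ from Fin.ext h2, tp_succ]; rfl
  · rw [tp_other i h1 h2]

lemma tp_braid {i j : Fin n} (h : j.val = i.val + 1) : tp i * tp j * tp i = tp j * tp i * tp j := by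
  ext x
  simp only [Perm.mul_apply, tp_val]
  split_ifs <;> omega

lemma tp_comm {i j : Fin n} (h : i.val + 2 ≤ j.val ∨ j.val + 2 ≤ i.val) :
    tp i * tp j = tp j * tp i := by
  ext x
  simp only [Perm.mul_apply, tp_val]
  split_ifs <;> omega

lemma cast_ne_succ (i : Fin n) : i.castSucc ≠ i.succ := (Fin.castSucc_lt_succ).ne

def gσ (i : Fin n) : VirtualBraidGroup n := PresentedGroup.of (Gen.σ i)
def gρ (i : Fin n) : VirtualBraidGroup n := PresentedGroup.of (Gen.ρ i)

lemma rel_eq {x y : FreeGroup (Gen n)} (h : IsRelator (x * y⁻¹)) :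
    (PresentedGroup.mk _ x : VirtualBraidGroup n) = PresentedGroup.mk _ y :=
  PresentedGroup.mk_eq_mk_of_mul_inv_mem h

lemma braid_σ {i j : Fin n} (h : j.val = i.val + 1) : gσ i * gσ j * gσ i = gσ j * gσ i * gσ j :=
  rel_eq (.braid_σ i j h)
lemma braid_ρ {i j : Fin n} (h : j.val = i.val + 1) : gρ i * gρ j * gρ i = gρ j * gρ i * gρ j :=
  rel_eq (.braid_ρ i j h)
lemma braid_mixed {i j : Fin n} (h : j.val = i.val + 1) :
    gρ i * gρ j * gσ i = gσ j * gρ i * gρ j := rel_eq (.braid_mixed i j h)
lemma comm_σ {i j : Fin n} (h : i.val + 2 ≤ j.val ∨ j.val + 2 ≤ i.val) :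
    gσ i * gσ j = gσ j * gσ i := rel_eq (.comm_σ i j h)
lemma comm_ρ {i j : Fin n} (h : i.val + 2 ≤ j.val ∨ j.val + 2 ≤ i.val) :
    gρ i * gρ j = gρ j * gρ i := rel_eq (.comm_ρ i j h)
lemma comm_mixed {i j : Fin n} (h : i.val + 2 ≤ j.val ∨ j.val + 2 ≤ i.val) :
    gσ i * gρ j = gρ j * gσ i := rel_eq (.comm_mixed i j h)
lemma sq_ρ (i : Fin n) : gρ i * gρ i = 1 :=
  PresentedGroup.one_of_mem (rels := {r | IsRelator r}) (IsRelator.sq_ρ i)

lemma gρ_inv (i : Fin n) : (gρ i)⁻¹ = gρ i := inv_eq_of_mul_eq_one_right (sq_ρ i)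

def pht (π : Perm (Fin (n + 1))) : ℕ := ∑ j : Fin (n + 1), j.val * (n - (π j).val)

lemma pht_tp (π : Perm (Fin (n + 1))) (i : Fin n) :
    pht (π * tp i) + (π i.castSucc).val = pht π + (π i.succ).val := by
  have hj : i.succ ∈ Finset.univ.erase i.castSucc := by simp [(cast_ne_succ i).symm]
  unfold pht
  rw [← Finset.add_sum_erase _ _ (Finset.mem_univ i.castSucc), ← Finset.add_sum_erase _ _ hj,
    ← Finset.add_sum_erase _ (fun j => j.val * (n - (π j).val)) (Finset.mem_univ i.castSucc),
    ← Finset.add_sum_erase _ (fun j => j.val * (n - (π j).val)) hj]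
  have : ∑ l ∈ (Finset.univ.erase i.castSucc).erase i.succ, l.val * (n - ((π * tp i) l).val) =
      ∑ l ∈ (Finset.univ.erase i.castSucc).erase i.succ, l.val * (n - (π l).val) :=
    Finset.sum_congr rfl fun l hl => by
      simp only [Finset.mem_erase] at hl
      rw [Perm.mul_apply, tp, swap_apply_of_ne_of_ne hl.2.1 hl.1]
  rw [this, Perm.mul_apply, Perm.mul_apply, tp_cast, tp_succ]
  have h1 := (π i.castSucc).is_le
  have h2 := (π i.succ).is_le
  simp only [Fin.val_castSucc, Fin.val_succ, add_mul, one_mul]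
  omega

lemma exists_section : ∃ N : Perm (Fin (n + 1)) → VirtualBraidGroup n,
    (∀ π, (∀ i, ¬ pht (π * tp i) < pht π) → N π = 1) ∧ ∀ π i, N π = gρ i * N (π * tp i) := by
  have hex : ∀ (π : Perm (Fin (n + 1))) (i j : Fin n), j.val = i.val + 1 →
      pht (π * tp i) < pht π → pht (π * tp j) < pht π →
      PeakOK (fun π i => π * tp i) gρ (fun _ => True) pht π i j := by
    intro π i j h ha hb N hN
    beta_reduce at hN ⊢
    have e1 : j.castSucc = i.succ := Fin.ext (by simp [h])
    have a1 := pht_tp π i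
    have a2 := pht_tp (π * tp i) j
    have a3 := pht_tp (π * tp i * tp j) i
    have a4 := pht_tp π j
    have a5 := pht_tp (π * tp j) i
    have o1 : tp i j.succ = j.succ := tp_other i (by simp; omega) (by simp; omega)
    have o2 : tp j i.castSucc = i.castSucc := tp_other j (by simp; omega) (by simp; omega)
    have o3 : tp j i.succ = j.succ := by rw [← e1, tp_cast]
    simp only [Perm.mul_apply, e1, tp_succ, tp_cast, o1, o2, o3] at a2 a3 a4 a5
    have e3 : π * tp j * tp i * tp j = π * tp i * tp j * tp i := by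
      simp only [mul_assoc]; rw [← mul_assoc (tp i), ← mul_assoc (tp j), tp_braid h]
    rw [hN (π * tp i) j trivial ha (by omega), hN (π * tp i * tp j) i trivial (by omega) (by omega),
      hN (π * tp j) i trivial hb (by omega),
      hN (π * tp j * tp i) j trivial (by omega) (by rw [e3]; omega), e3]
    simp only [← mul_assoc]
    rw [braid_ρ h]
  obtain ⟨N, h1, h2⟩ := peak_reduction (fun (π : Perm (Fin (n + 1))) i => π * tp i) gρ
    (fun _ => True) pht id (fun π i => by simp [mul_assoc, tp_mul_self])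
    (fun i => (gρ_inv i).symm) (fun _ _ _ => trivial)
    (fun π i _ h => by
      have := pht_tp π i
      exact cast_ne_succ i (π.injective (Fin.ext (by omega))))
    (fun π i j _ ha hb => by
      by_cases h1 : j.val = i.val + 1
      · exact hex π i j h1 ha hb
      by_cases h2 : i.val = j.val + 1
      · exact fun N hN => (hex π j i h2 hb ha N hN).symm
      by_cases h3 : i = j
      · subst h3; exact fun _ _ => rfl
      have h4 : i.val + 2 ≤ j.val ∨ j.val + 2 ≤ i.val := by
        have : i.val ≠ j.val := fun h => h3 (Fin.ext h)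
        omega
      intro N hN
      beta_reduce at hN ha hb ⊢
      have a1 := pht_tp π j
      have a2 := pht_tp (π * tp i) j
      have o1 : tp i j.succ = j.succ := tp_other i (by simp; omega) (by simp; omega)
      have o2 : tp i j.castSucc = j.castSucc := tp_other i (by simp; omega) (by simp; omega)
      simp only [Perm.mul_apply, o1, o2] at a2
      have e3 : π * tp j * tp i = π * tp i * tp j := by
        simp only [mul_assoc]; rw [tp_comm h4]
      rw [hN (π * tp i) j trivial ha (by omega), hN (π * tp j) i trivial hb (by rw [e3]; omega), e3]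
      simp only [← mul_assoc]
      rw [comm_ρ h4])
  exact ⟨N, h1, fun π i => h2 π i trivial⟩

noncomputable def sec (π : Perm (Fin (n + 1))) : VirtualBraidGroup n :=
  (exists_section.choose π)⁻¹

lemma sec_tp (π : Perm (Fin (n + 1))) (i : Fin n) : sec (π * tp i) = sec π * gρ i := by
  unfold sec
  rw [exists_section.choose_spec.2 π i]; group

lemma sec_top (π : Perm (Fin (n + 1))) (h : ∀ i, ¬ pht (π * tp i) < pht π) : sec π = 1 := by
  unfold sec
  rw [exists_section.choose_spec.1 π h, inv_one]

lemma sec_one : sec (1 : Perm (Fin (n + 1))) = 1 := by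
  apply sec_top
  intro i
  have := pht_tp 1 i
  simp only [Perm.one_apply, Fin.val_castSucc, Fin.val_succ] at this
  omega

lemma sec_mul (π π' : Perm (Fin (n + 1))) : sec (π * π') = sec π * sec π' := by
  induction π' using Submonoid.induction_of_closure_eq_top_right
    (Perm.mclosure_swap_castSucc_succ n) with
  | one => simp [sec_one]
  | mul_right x y hy ih =>
    obtain ⟨i, rfl⟩ := hy
    change sec (π * (x * tp i)) = sec π * sec (x * tp i)
    rw [← mul_assoc, sec_tp, sec_tp, ih, mul_assoc]

lemma sec_inv (π : Perm (Fin (n + 1))) : sec π⁻¹ = (sec π)⁻¹ := by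
  rw [eq_inv_iff_mul_eq_one, ← sec_mul, inv_mul_cancel, sec_one]

lemma sec_comm_zero {i : Fin n} (hi : i.val = 0) : ∀ (m : ℕ) (τ : Perm (Fin (n + 1))),
    pht τ = m → τ i.castSucc = i.castSucc → τ i.succ = i.succ → sec τ * gσ i = gσ i * sec τ := by
  intro m
  induction m using Nat.strong_induction_on with
  | _ m ih =>
    intro τ hm h1 h2
    by_cases h : ∃ j, pht (τ * tp j) < pht τ
    · obtain ⟨j, hj⟩ := h
      have a := pht_tp τ j
      have hj2 : 2 ≤ j.val := by
        by_contra hlt
        have : j.val = 0 ∨ j.val = 1 := by omega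
        rcases this with c | c
        · rw [show j = i from Fin.ext (by omega), h1] at a
          simp only [Fin.val_castSucc] at a
          rw [show j = i from Fin.ext (by omega)] at hj
          omega
        · rw [show j.castSucc = i.succ from Fin.ext (by simp; omega), h2] at a
          simp only [Fin.val_succ] at a
          have : τ j.succ = τ i.castSucc := by rw [h1]; exact Fin.ext (by simp; omega)
          have := congrArg Fin.val (τ.injective this)
          simp at this; omega
      have := ih _ (hm ▸ hj) (τ * tp j) rfl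
        (by rw [Perm.mul_apply, tp_other j (by simp; omega) (by simp; omega), h1])
        (by rw [Perm.mul_apply, tp_other j (by simp; omega) (by simp; omega), h2])
      rw [sec_tp, mul_assoc, ← comm_mixed (Or.inl (by omega)), ← mul_assoc, ← mul_assoc] at this
      exact mul_right_cancel this
    · rw [sec_top τ (fun i hi => h ⟨i, hi⟩), one_mul, mul_one]

lemma exists_shift {i : Fin n} (hi : i.val = 0) : ∀ (m : ℕ) (p : Fin n), p.val = m →
    ∃ c : Perm (Fin (n + 1)), c i.castSucc = p.castSucc ∧ c i.succ = p.succ ∧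
      sec c * gσ i = gσ p * sec c := by
  intro m
  induction m with
  | zero =>
    intro p hp
    obtain rfl : p = i := Fin.ext (by omega)
    exact ⟨1, rfl, rfl, by simp [sec_one]⟩
  | succ m ih =>
    intro p hp
    obtain ⟨c, h1, h2, h3⟩ := ih ⟨m, by omega⟩ rfl
    set q : Fin n := ⟨m, by omega⟩
    have e1 : p.castSucc = q.succ := Fin.ext (by simp [hp, q])
    refine ⟨tp q * tp p * c, ?_, ?_, ?_⟩
    · rw [Perm.mul_apply, Perm.mul_apply, h1, tp_other p (by simp [q]; omega) (by simp [q]; omega),
        tp_cast, e1]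
    · rw [Perm.mul_apply, Perm.mul_apply, h2, ← e1, tp_cast,
        tp_other q (by simp [q]; omega) (by simp [q]; omega)]
    · have e2 : sec (tp q * tp p) = gρ q * gρ p := by
        rw [sec_tp, ← one_mul (tp q), sec_tp, sec_one, one_mul]
      rw [sec_mul, mul_assoc, h3, ← mul_assoc, e2, braid_mixed (by simp [q, hp])]
      simp only [mul_assoc]

lemma sec_conj {p q : Fin n} {τ : Perm (Fin (n + 1))} (h1 : τ q.castSucc = p.castSucc)
    (h2 : τ q.succ = p.succ) : sec τ * (gσ q * gρ q) = gσ p * gρ p * sec τ := by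
  have hn : 0 < n := p.pos
  obtain ⟨c, c1, c2, c3⟩ := exists_shift (i := ⟨0, hn⟩) rfl _ p rfl
  obtain ⟨d, d1, d2, d3⟩ := exists_shift (i := ⟨0, hn⟩) rfl _ q rfl
  have h := sec_comm_zero (i := ⟨0, hn⟩) rfl _ (c⁻¹ * τ * d) rfl
    (by rw [Perm.mul_apply, Perm.mul_apply, d1, h1, ← c1]; simp)
    (by rw [Perm.mul_apply, Perm.mul_apply, d2, h2, ← c2]; simp)
  rw [sec_mul, sec_mul, sec_inv] at h
  have e1 : sec τ * gσ q = gσ p * sec τ := by
    have a : gσ q = sec d * gσ ⟨0, hn⟩ * (sec d)⁻¹ := by rw [d3]; group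
    have b : gσ p = sec c * gσ ⟨0, hn⟩ * (sec c)⁻¹ := by rw [c3]; group
    rw [a, b]
    calc _ = sec c * ((sec c)⁻¹ * sec τ * sec d * gσ ⟨0, hn⟩) * (sec d)⁻¹ := by group
      _ = _ := by rw [h]; group
  have e2 : sec τ * gρ q = gρ p * sec τ := by
    have : gρ p = sec (tp p) := by rw [← one_mul (tp p), sec_tp, sec_one, one_mul]
    rw [← sec_tp, this, ← sec_mul, tp, tp, ← h1, ← h2, swap_apply_apply]
    congr 1; group
  rw [← mul_assoc, e1, mul_assoc, e2, mul_assoc]

open Classical in
noncomputable def lamb (i j : Fin (n + 1)) : VirtualBraidGroup n :=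
  if h : ∃ x : Perm (Fin (n + 1)) × Fin n, x.1 x.2.castSucc = i ∧ x.1 x.2.succ = j then
    sec h.choose.1 * (gσ h.choose.2 * gρ h.choose.2) * (sec h.choose.1)⁻¹ else 1

lemma lamb_eq (π : Perm (Fin (n + 1))) (p : Fin n) :
    lamb (π p.castSucc) (π p.succ) = sec π * (gσ p * gρ p) * (sec π)⁻¹ := by
  have h : ∃ x : Perm (Fin (n + 1)) × Fin n, x.1 x.2.castSucc = π p.castSucc ∧
      x.1 x.2.succ = π p.succ := ⟨(π, p), rfl, rfl⟩
  rw [lamb, dif_pos h]
  obtain ⟨h1, h2⟩ := h.choose_spec
  generalize h.choose = x at *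
  have := sec_conj (τ := π⁻¹ * x.1) (q := x.2) (p := p) (by simp [h1]) (by simp [h2])
  rw [sec_mul, sec_inv] at this
  calc _ = sec π * ((sec π)⁻¹ * sec x.1 * (gσ x.2 * gρ x.2)) * (sec x.1)⁻¹ := by group
    _ = _ := by rw [this]; group

noncomputable def el (a : Ltr (n + 1)) : VirtualBraidGroup n :=
  if a.e then lamb a.i a.j else (lamb a.i a.j)⁻¹

lemma sec_σ (π : Perm (Fin (n + 1))) (p : Fin n) :
    sec π * gσ p = lamb (π p.castSucc) (π p.succ) * sec (π * tp p) := by
  rw [lamb_eq, sec_tp]
  calc _ = sec π * gσ p * (gρ p * gρ p) := by rw [sq_ρ, mul_one]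
    _ = _ := by group

lemma sec_σ_inv (π : Perm (Fin (n + 1))) (p : Fin n) :
    sec π * (gσ p)⁻¹ = (lamb (π p.succ) (π p.castSucc))⁻¹ * sec (π * tp p) := by
  have := sec_σ (π * tp p) p
  rw [mul_assoc π, tp_mul_self, mul_one, Perm.mul_apply, Perm.mul_apply, tp_cast, tp_succ] at this
  rw [eq_inv_mul_iff_mul_eq, ← mul_assoc, ← this]; group

lemma exists_perm {k : ℕ} (f : Fin k → Fin (n + 1)) (hf : Function.Injective f) :
    ∃ (h : k ≤ n + 1) (π : Perm (Fin (n + 1))), ∀ x, π (Fin.castLE h x) = f x := by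
  have h : k ≤ n + 1 := by simpa using Fintype.card_le_of_injective f hf
  obtain ⟨π, hπ⟩ := Perm.exists_extending_pair _ _ (Fin.castLE_injective h) hf
  exact ⟨h, π, hπ⟩

lemma rels_el : Rels (el : Ltr (n + 1) → VirtualBraidGroup n) where
  inv a := by
    obtain ⟨i, j, e, h⟩ := a
    cases e <;> simp [el, Ltr.inv]
  comm a b h := by
    obtain ⟨h1, h2, h3, h4⟩ := h
    obtain ⟨hn, π, hπ⟩ := exists_perm ![a.i, a.j, b.i, b.j] (by
      have := a.ne; have := b.ne
      intro x y
      fin_cases x <;> fin_cases y <;> simp_all [eq_comm])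
    set p : Fin n := ⟨0, by omega⟩
    set q : Fin n := ⟨2, by omega⟩
    have e1 := lamb_eq π p
    have e2 := lamb_eq π q
    rw [show π p.castSucc = a.i from hπ 0, show π p.succ = a.j from hπ 1] at e1
    rw [show π q.castSucc = b.i from hπ 2, show π q.succ = b.j from hπ 3] at e2
    have c : Commute (lamb a.i a.j) (lamb b.i b.j) := by
      rw [e1, e2]
      apply Commute.conj
      refine Commute.mul_left (Commute.mul_right ?_ ?_) (Commute.mul_right ?_ ?_)
      · exact comm_σ (Or.inl (by simp [p, q]))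
      · exact comm_mixed (Or.inl (by simp [p, q]))
      · exact (comm_mixed (Or.inr (by simp [p, q]))).symm
      · exact comm_ρ (Or.inl (by simp [p, q]))
    unfold el
    split_ifs
    · exact c
    · exact c.inv_right
    · exact c.inv_left
    · exact c.inv_inv
  hex i j k hij hik hjk := by
    obtain ⟨hn, π, hπ⟩ := exists_perm ![i, j, k] (by
      intro x y
      fin_cases x <;> fin_cases y <;> simp_all [eq_comm])
    set p : Fin n := ⟨0, by omega⟩
    set q : Fin n := ⟨1, by omega⟩
    have hi : π p.castSucc = i := hπ 0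
    have hj : π p.succ = j := hπ 1
    have hk : π q.succ = k := hπ 2
    have e1 : q.castSucc = p.succ := rfl
    have o1 : tp p q.succ = q.succ := tp_other p (by simp [p, q]) (by simp [p, q])
    have o2 : tp q p.castSucc = p.castSucc := tp_other q (by simp [p, q]) (by simp [p, q])
    have o3 : tp q p.succ = q.succ := by rw [← e1, tp_cast]
    have o4 : tp q q.succ = p.succ := by rw [← e1, tp_succ]
    have l : sec π * (gσ p * gσ q * gσ p) =
        lamb i j * lamb i k * lamb j k * sec (π * tp p * tp q * tp p) := by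
      rw [← mul_assoc, ← mul_assoc, sec_σ, mul_assoc _ _ (gσ q), sec_σ, mul_assoc _ _ (gσ p),
        mul_assoc _ _ (gσ p), sec_σ]
      simp only [Perm.mul_apply, e1, tp_cast, tp_succ, o1, o2, o3, hi, hj, hk, mul_assoc]
    have r : sec π * (gσ q * gσ p * gσ q) =
        lamb j k * lamb i k * lamb i j * sec (π * tp q * tp p * tp q) := by
      rw [← mul_assoc, ← mul_assoc, sec_σ, mul_assoc _ _ (gσ p), sec_σ, mul_assoc _ _ (gσ q),
        mul_assoc _ _ (gσ q), sec_σ]
      simp only [Perm.mul_apply, e1, tp_succ, o1, o2, o3, o4, hi, hj, hk, mul_assoc]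
    have e3 : π * tp q * tp p * tp q = π * tp p * tp q * tp p := by
      simp only [mul_assoc]; rw [← mul_assoc (tp p), ← mul_assoc (tp q),
        tp_braid (i := p) (j := q) (by simp [p, q])]
    rw [braid_σ (by simp [p, q]), r, e3] at l
    exact (mul_right_cancel l).symm

/-- The crossings of a braid word. -/
def ltrs : List (Gen n × Bool) → Perm (Fin (n + 1)) → List (Ltr (n + 1))
  | [], _ => []
  | (.ρ i, _) :: w, π => ltrs w (π * tp i)
  | (.σ i, true) :: w, π =>
      ⟨π i.castSucc, π i.succ, true, π.injective.ne (cast_ne_succ i)⟩ :: ltrs w (π * tp i)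
  | (.σ i, false) :: w, π =>
      ⟨π i.succ, π i.castSucc, false, π.injective.ne (cast_ne_succ i).symm⟩ :: ltrs w (π * tp i)

noncomputable def wperm (w : List (Gen n × Bool)) : Perm (Fin (n + 1)) :=
  FreeGroup.lift transposition (FreeGroup.mk w)

lemma wperm_nil : wperm ([] : List (Gen n × Bool)) = 1 := by
  simp [wperm, ← FreeGroup.one_eq_mk]

lemma wperm_σ (i : Fin n) (e : Bool) (w : List (Gen n × Bool)) :
    wperm ((.σ i, e) :: w) = tp i * wperm w := by
  cases e <;> simp [wperm, transposition, tp]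

lemma wperm_ρ (i : Fin n) (e : Bool) (w : List (Gen n × Bool)) :
    wperm ((.ρ i, e) :: w) = tp i * wperm w := by
  cases e <;> simp [wperm, transposition, tp]

lemma braid_cons (x : Gen n) (e : Bool) (w : List (Gen n × Bool)) : braidOfWord ((x, e) :: w) =
    (if e then PresentedGroup.of x else (PresentedGroup.of x)⁻¹) * braidOfWord w := by
  unfold braidOfWord
  rw [mk_cons', map_mul]
  cases e
  · rw [sg_false, map_inv]; rfl
  · rfl

lemma sec_word (w : List (Gen n × Bool)) (π : Perm (Fin (n + 1))) :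
    sec π * braidOfWord w = ((ltrs w π).map el).prod * sec (π * wperm w) := by
  induction w generalizing π with
  | nil => simp [ltrs, wperm_nil, braidOfWord, ← FreeGroup.one_eq_mk]
  | cons x w ih =>
    obtain ⟨x, e⟩ := x
    rw [braid_cons, ← mul_assoc]
    cases x with
    | σ i =>
      rw [wperm_σ, ← mul_assoc π]
      cases e
      · rw [ltrs, List.map_cons, List.prod_cons, mul_assoc (el _), ← ih, ← mul_assoc]
        congr 1
        exact sec_σ_inv π i
      · rw [ltrs, List.map_cons, List.prod_cons, mul_assoc (el _), ← ih, ← mul_assoc]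
        congr 1
        exact sec_σ π i
    | ρ i =>
      rw [wperm_ρ, ← mul_assoc π, ltrs, ← ih, sec_tp]
      cases e
      · congr 2
        exact gρ_inv i
      · rfl

end Pool.Agent.MP_e4304e_gt
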