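import Pool.Agent.Mg.Fe4304eq.Gf50d03
import Pool.Agent.Mg.Fe4304eq.Gc8d556
import Pool.Agent.MP_e4304e_gt.RP.FDefs

set_option linter.all false

section

/-! Colourings of braid diagrams, and injectivity. -/

namespace Pool.Agent.MP_e4304e_gt

open Equiv Function

variable {m n : ℕ}

def tok (t : ℕ) (a : Ltr m) (s : Fin m) : List Endpoint :=
  if s = a.i then [overAt (t, a.e)] else if s = a.j then [underAt (t, a.e)] else []

def diag : List (Ltr m) → ℕ → Diagram m
  | [], _ => fun _ => []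
  | a :: C, t => fun s => tok t a s ++ diag C (t + 1) s

lemma gaussFrom_eq (w : List (Gen n × Bool)) (π : Perm (Fin (n + 1))) (t : ℕ) :
    gaussFrom w π t = diag (ltrs w π) t := by
  induction w generalizing π t with
  | nil => rfl
  | cons x w ih =>
    obtain ⟨x, e⟩ := x
    cases x with
    | ρ i => rw [gaussFrom, ltrs, ih]; rfl
    | σ i =>
      have hne : π i.castSucc ≠ π i.succ := π.injective.ne (cast_ne_succ i)
      cases e
      · rw [gaussFrom, ltrs, diag, ih]
        funext s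
        congr 1
        simp only [tok, overAt, underAt]
        split_ifs with h1 h2
        · exact absurd (h1.symm.trans h2) hne
        · rfl
        · rfl
        · rfl
      · rw [gaussFrom, ltrs, diag, ih]; rfl

lemma mem_tok {t : ℕ} {a : Ltr m} {s : Fin m} {e : Endpoint} (h : e ∈ tok t a s) :
    e.1 = (t, a.e) := by
  unfold tok at h
  split_ifs at h
  · simp only [List.mem_singleton] at h; rw [h]; rfl
  · simp only [List.mem_singleton] at h; rw [h]; rfl
  · simp at h

lemma mem_diag {C : List (Ltr m)} {t : ℕ} {s : Fin m} {e : Endpoint} (h : e ∈ diag C t s) :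
    t ≤ e.1.1 := by
  induction C generalizing t with
  | nil => simp [diag] at h
  | cons a C ih =>
    simp only [diag, List.mem_append] at h
    rcases h with h | h
    · rw [mem_tok h]
    · have := ih h; omega

lemma path_tok {cin cout : Endpoint → Col (Fin m)} {t : ℕ} {a : Ltr m} {s s' : St m} :
    (∀ l, Path cin cout (s l) (tok t a l) (s' l)) ↔
      cin (overAt (t, a.e)) = s a.i ∧ cin (underAt (t, a.e)) = s a.j ∧
      cout (overAt (t, a.e)) = s' a.i ∧ cout (underAt (t, a.e)) = s' a.j ∧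
      ∀ l, l ≠ a.i → l ≠ a.j → s' l = s l := by
  constructor
  · intro h
    have h1 := h a.i
    have h2 := h a.j
    simp only [tok, if_true, Path, a.ne.symm, if_false] at h1 h2
    refine ⟨h1.1, h2.1, h1.2, h2.2, fun l c1 c2 => ?_⟩
    have := h l
    simp only [tok, c1, c2, if_false, Path] at this
    exact this.symm
  · rintro ⟨h1, h2, h3, h4, h5⟩ l
    unfold tok
    split_ifs with c1 c2
    · subst c1; exact ⟨h1, h3⟩
    · subst c2; exact ⟨h2, h4⟩
    · exact (h5 l c1 c2).symm

lemma coloring_diag_ex (C : List (Ltr m)) (t : ℕ) (s : St m) :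
    Coloring (diag C t) s (C.foldl act s) := by
  induction C generalizing t s with
  | nil => exact ⟨1, 1, fun a => cr_one _, fun i => rfl⟩
  | cons a C ih =>
    obtain ⟨cin, cout, h1, h2⟩ := ih (t + 1) (act s a)
    refine ⟨update (update cin (overAt (t, a.e)) (s a.i)) (underAt (t, a.e)) (s a.j),
      update (update cout (overAt (t, a.e)) (act s a a.i)) (underAt (t, a.e)) (act s a a.j),
      fun b => ?_, fun l => ?_⟩
    · by_cases hb : b = (t, a.e)
      · subst hb; simpa using (step_act s a).1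
      · simpa [hb] using h1 b
    · rw [diag, path_append]
      refine ⟨act s a l, path_tok.2 ⟨by simp, by simp, by simp, by simp, (step_act s a).2⟩ l, ?_⟩
      refine path_congr (fun x hx => ?_) (h2 l)
      have := mem_diag hx
      have c1 : x ≠ overAt (t, a.e) := by rintro rfl; simp [overAt] at this
      have c2 : x ≠ underAt (t, a.e) := by rintro rfl; simp [underAt] at this
      simp [c1, c2]

lemma coloring_diag_uniq {C : List (Ltr m)} {t : ℕ} {s s' : St m}
    (h : Coloring (diag C t) s s') : s' = C.foldl act s := by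
  obtain ⟨cin, cout, h1, h2⟩ := h
  induction C generalizing t s with
  | nil => funext l; exact (h2 l).symm
  | cons a C ih =>
    have h3 : ∀ l, ∃ z, Path cin cout (s l) (tok t a l) z ∧
      Path cin cout z (diag C (t + 1) l) (s' l) := fun l => path_append.1 (h2 l)
    choose z hz1 hz2 using h3
    obtain ⟨a1, a2, a3, a4, a5⟩ := path_tok.1 hz1
    have : Step a s z := ⟨by rw [← a1, ← a2, ← a3, ← a4]; exact h1 (t, a.e), a5⟩
    rw [List.foldl_cons, this.act_eq]
    exact ih hz2

theorem injective_main (w w' : List (Gen n × Bool)) (hp : wperm w = wperm w')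
    (h : ReidemeisterEquiv (gaussDiagram w) (gaussDiagram w')) :
    braidOfWord w = braidOfWord w' := by
  obtain ⟨N, hN⟩ := exists_cocycle (rels_el (n := n))
  have key : ∀ (C : List (Ltr (n + 1))) s, Good s → N s = (C.map el).prod * N (C.foldl act s) := by
    intro C
    induction C with
    | nil => simp
    | cons a C ih =>
      intro s hs
      rw [hN s a hs, ih _ (hs.act a), List.map_cons, List.prod_cons, List.foldl_cons, mul_assoc]
  rw [gaussDiagram, gaussDiagram, gaussFrom_eq, gaussFrom_eq] at h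
  have h1 := coloring_diag_uniq (h.coloring.1 (coloring_diag_ex _ 0 (s₀ (n + 1))))
  have h2 := key (ltrs w 1) _ good_base
  have h3 := key (ltrs w' 1) _ good_base
  rw [h1, h3] at h2
  have h4 := sec_word w 1
  have h5 := sec_word w' 1
  rw [sec_one, one_mul] at h4 h5
  rw [h4, h5, hp, mul_right_cancel h2]

end Pool.Agent.MP_e4304e_gt

end

section

/-! Equal virtual braids have equivalent Gauss diagrams. -/

namespace Pool.Agent.MP_e4304e_gt

open Equiv Function

variable {m n : ℕ}

/-- The Gauss diagram of a list of named crossings. -/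
def ndiag (C : List (ℕ × Ltr m)) : Diagram m := fun s => C.flatMap fun x => tok x.1 x.2 s

def names : List (Ltr m) → ℕ → List (ℕ × Ltr m)
  | [], _ => []
  | a :: C, t => (t, a) :: names C (t + 1)

lemma diag_eq (C : List (Ltr m)) (t : ℕ) : diag C t = ndiag (names C t) := by
  induction C generalizing t with
  | nil => rfl
  | cons a C ih => funext s; simp [diag, names, ndiag, ih]

lemma names_snd (C : List (Ltr m)) (t : ℕ) : (names C t).map Prod.snd = C := by
  induction C generalizing t with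
  | nil => rfl
  | cons a C ih => simp [names, ih]

lemma names_fst (C : List (Ltr m)) (t : ℕ) : (names C t).map Prod.fst = List.range' t C.length := by
  induction C generalizing t with
  | nil => rfl
  | cons a C ih => simp [names, ih, List.range'_succ]

lemma names_nodup (C : List (Ltr m)) (t : ℕ) : ((names C t).map Prod.fst).Nodup := by
  rw [names_fst]; exact List.nodup_range'

lemma names_append (C C' : List (Ltr m)) (t : ℕ) :
    names (C ++ C') t = names C t ++ names C' (t + C.length) := by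
  induction C generalizing t with
  | nil => rfl
  | cons a C ih => simp [names, ih, add_assoc, add_comm 1]

lemma mem_tok_iff {t : ℕ} {a : Ltr m} {s : Fin m} {e : Endpoint} :
    e ∈ tok t a s ↔ (s = a.i ∧ e = overAt (t, a.e)) ∨ (s = a.j ∧ e = underAt (t, a.e)) := by
  unfold tok
  split_ifs with h1 h2
  · simp [h1, a.ne]
  · simp [h2, a.ne.symm]
  · simp [h1, h2]

lemma mem_ndiag {C : List (ℕ × Ltr m)} {s : Fin m} {e : Endpoint} :
    e ∈ ndiag C s ↔ ∃ x ∈ C, e ∈ tok x.1 x.2 s := by simp [ndiag]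

lemma isGauss_ndiag {C : List (ℕ × Ltr m)} (h : (C.map Prod.fst).Nodup) : IsGauss (ndiag C) where
  nodup s := by
    rw [ndiag, List.nodup_flatMap]
    refine ⟨fun x _ => ?_, ?_⟩
    · unfold tok; split_ifs <;> simp
    · rw [List.Nodup, List.pairwise_map] at h
      refine h.imp fun {x y} hxy => ?_
      intro e h1 h2
      have := (mem_tok h1).symm.trans (mem_tok h2)
      exact hxy (Prod.ext_iff.1 this).1
  disjoint i j e h1 h2 := by
    obtain ⟨x, hx, h1⟩ := mem_ndiag.1 h1
    obtain ⟨y, hy, h2⟩ := mem_ndiag.1 h2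
    obtain rfl : x = y := List.inj_on_of_nodup_map h hx hy
      (Prod.ext_iff.1 ((mem_tok h1).symm.trans (mem_tok h2))).1
    rw [mem_tok_iff] at h1 h2
    rcases h1 with ⟨a, b⟩ | ⟨a, b⟩ <;> rcases h2 with ⟨c, d⟩ | ⟨c, d⟩
    · rw [a, c]
    · simp [b] at d
    · simp [b] at d
    · rw [a, c]
  paired a := by
    simp only [mem_ndiag, mem_tok_iff]
    constructor
    · rintro ⟨i, x, hx, ⟨-, h⟩ | ⟨-, h⟩⟩
      · exact ⟨x.2.j, x, hx, Or.inr ⟨rfl, by simpa using h⟩⟩
      · simp at h
    · rintro ⟨i, x, hx, ⟨-, h⟩ | ⟨-, h⟩⟩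
      · simp at h
      · exact ⟨x.2.i, x, hx, Or.inl ⟨rfl, by simpa using h⟩⟩

lemma tok_map (f : ℕ → ℕ) (t : ℕ) (a : Ltr m) (s : Fin m) :
    (tok t a s).map (Prod.map (Prod.map f id) id) = tok (f t) a s := by
  unfold tok; split_ifs <;> rfl

lemma equiv_rename {C C' : List (ℕ × Ltr m)} (h : (C.map Prod.fst).Nodup)
    (h' : (C'.map Prod.fst).Nodup) (e : C.map Prod.snd = C'.map Prod.snd) :
    ReidemeisterEquiv (ndiag C) (ndiag C') := by
  have hl : C.length = C'.length := by simpa using congrArg List.length e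
  obtain ⟨f, hf⟩ := Perm.exists_extending_pair (fun i : Fin C.length => (C[i.val]).1)
    (fun i : Fin C.length => (C'[i.val]'(hl ▸ i.2)).1)
    (fun i j hij => by
      have := (List.nodup_iff_injective_getElem.1 h)
        (a₁ := ⟨i.val, by simp⟩) (a₂ := ⟨j.val, by simp⟩) (by simpa using hij)
      exact Fin.ext (by simpa using this))
    (fun i j hij => by
      have := (List.nodup_iff_injective_getElem.1 h')
        (a₁ := ⟨i.val, by simp [← hl]⟩) (a₂ := ⟨j.val, by simp [← hl]⟩) (by simpa using hij)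
      exact Fin.ext (by simpa using this))
  have e' : C' = C.map (Prod.map f id) := by
    apply List.ext_getElem (by simp [hl])
    intro i h1 h2
    have h3 : i < C.length := hl ▸ h1
    rw [List.getElem_map]
    refine Prod.ext (hf ⟨i, h3⟩).symm ?_
    have := List.getElem_of_eq e (i := i) (by simpa using h3)
    simpa using this.symm
  have e2 : ndiag C' = fun i => (ndiag C i).map (Prod.map (Prod.map f id) id) := by
    funext s
    rw [e', ndiag, ndiag, List.flatMap_map, List.map_flatMap]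
    simp only [tok_map]; rfl
  refine Relation.EqvGen.rel _ _ ⟨isGauss_ndiag h, isGauss_ndiag h', ?_⟩
  rw [e2]
  exact Move.rename _ _ (f.injective.prodMap injective_id) fun _ => rfl

lemma ndiag_append (C C' : List (ℕ × Ltr m)) (s : Fin m) :
    ndiag (C ++ C') s = ndiag C s ++ ndiag C' s := by simp [ndiag]

lemma name_of_mem {C : List (ℕ × Ltr m)} {s : Fin m} {e : Endpoint} (h : e ∈ ndiag C s) :
    e.1.1 ∈ C.map Prod.fst := by
  obtain ⟨x, hx, h⟩ := mem_ndiag.1 h
  rw [mem_tok h]
  exact List.mem_map_of_mem hx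

/-- Replace a block of named crossings. -/
lemma equiv_block {C₁ C₂ B B' : List (Ltr m)} (N' : List (ℕ × Ltr m))
    (hs : N'.map Prod.snd = B')
    (hn : (N'.map Prod.fst).Subperm (List.range' C₁.length B.length))
    (hm : ∀ N₁ N₂ : List (ℕ × Ltr m),
      (∀ x ∈ (N₁ ++ N₂).map Prod.fst, x ∉ List.range' C₁.length B.length) →
      ndiag (N₁ ++ names B C₁.length ++ N₂) = ndiag (N₁ ++ N' ++ N₂) ∨
      Move (ndiag (N₁ ++ names B C₁.length ++ N₂)) (ndiag (N₁ ++ N' ++ N₂))) :
    ReidemeisterEquiv (diag (C₁ ++ B ++ C₂) 0) (diag (C₁ ++ B' ++ C₂) 0) := by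
  have h0 := names_nodup (C₁ ++ B ++ C₂) 0
  rw [diag_eq, diag_eq]
  rw [names_append, names_append, zero_add, zero_add] at h0 ⊢
  set N₁ := names C₁ 0
  set N₂ := names C₂ (C₁ ++ B).length
  have h1 : ((N₁ ++ N' ++ N₂).map Prod.fst).Nodup := by
    rw [List.map_append, List.map_append, names_fst B] at h0
    rw [List.map_append, List.map_append]
    obtain ⟨l, hl1, hl2⟩ := hn
    have := h0.sublist ((hl2.append_left _).append_right _)
    exact (((hl1.append_left _).append_right _).nodup_iff).1 this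
  have h2 : ReidemeisterEquiv (ndiag (N₁ ++ N' ++ N₂)) (ndiag (names (C₁ ++ B' ++ C₂) 0)) :=
    equiv_rename h1 (names_nodup _ _) (by simp [N₁, N₂, names_snd, hs])
  refine Relation.EqvGen.trans _ _ _ ?_ h2
  rcases hm N₁ N₂ (by
    intro x hx hx'
    rw [List.map_append, List.map_append, names_fst B] at h0
    rw [List.map_append, List.mem_append] at hx
    rcases hx with hx | hx
    · exact (List.nodup_append.1 (List.nodup_append.1 h0).1).2.2 x hx x hx' rfl
    · exact (List.nodup_append.1 h0).2.2 x (List.mem_append_right _ hx') x hx rfl) with h | h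
  · rw [h]; exact Relation.EqvGen.refl _
  · exact Relation.EqvGen.rel _ _ ⟨isGauss_ndiag h0, isGauss_ndiag h1, h⟩

lemma equiv_cancel (C₁ C₂ : List (Ltr m)) (a : Ltr m) :
    ReidemeisterEquiv (diag (C₁ ++ [a, a.inv] ++ C₂) 0) (diag (C₁ ++ [] ++ C₂) 0) := by
  refine equiv_block [] rfl (List.nil_subperm) fun N₁ N₂ h => Or.inr ?_
  set t := C₁.length
  have e : ndiag (N₁ ++ [] ++ N₂) =
      delete (ndiag (N₁ ++ names [a, a.inv] t ++ N₂)) [(t, a.e), (t + 1, !a.e)] := by
    funext s
    have k : ∀ N : List (ℕ × Ltr m), (∀ x ∈ N.map Prod.fst, x ∉ List.range' t 2) →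
        (ndiag N s).filter (fun e => e.1 ∉ [(t, a.e), (t + 1, !a.e)]) = ndiag N s := by
      intro N hN
      rw [List.filter_eq_self]
      intro e he
      have := hN _ (name_of_mem he)
      simp only [List.range'_succ, List.range'_zero, List.mem_cons, List.not_mem_nil, or_false,
        not_or] at this
      simp only [List.mem_cons, List.not_mem_nil, or_false, not_or, decide_eq_true_eq]
      exact ⟨fun h => this.1 (by rw [h]), fun h => this.2 (by rw [h])⟩
    simp only [delete, ndiag_append, List.filter_append]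
    rw [k N₁ (fun x hx => h x (by simp only [List.map_append, List.mem_append]; exact Or.inl hx)),
      k N₂ (fun x hx => h x (by simp only [List.map_append, List.mem_append]; exact Or.inr hx))]
    congr 2
    symm
    refine List.filter_eq_nil_iff.2 ?_
    intro e he
    obtain ⟨x, hx, he⟩ := mem_ndiag.1 he
    have := mem_tok he
    simp only [names, List.mem_cons, List.not_mem_nil, or_false] at hx
    rcases hx with rfl | rfl <;> simp [this, Ltr.inv]
  rw [e]
  refine Move.R2 _ _ _ true true (by simp) ⟨a.i, ?_⟩ ⟨a.j, ?_⟩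
  · refine ⟨ndiag N₁ a.i, ndiag N₂ a.i, ?_⟩
    simp [ndiag, names, tok, Ltr.inv]
  · refine ⟨ndiag N₁ a.j, ndiag N₂ a.j, ?_⟩
    simp [ndiag, names, tok, Ltr.inv, a.ne.symm]

lemma equiv_comm (C₁ C₂ : List (Ltr m)) {a b : Ltr m} (h : Disj a b) :
    ReidemeisterEquiv (diag (C₁ ++ [a, b] ++ C₂) 0) (diag (C₁ ++ [b, a] ++ C₂) 0) := by
  refine equiv_block [(C₁.length + 1, b), (C₁.length, a)] rfl
    (List.Perm.subperm (List.Perm.swap _ _ _)) fun N₁ N₂ _ => Or.inl ?_
  funext s
  simp only [ndiag_append]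
  congr 2
  obtain ⟨h1, h2, h3, h4⟩ := h
  simp only [ndiag, names, tok, List.flatMap_cons, List.flatMap_nil]
  split_ifs <;> simp_all

lemma equiv_hex (C₁ C₂ : List (Ltr m)) {i j k : Fin m} (hij : i ≠ j) (hik : i ≠ k) (hjk : j ≠ k) :
    ReidemeisterEquiv
      (diag (C₁ ++ [⟨i, j, true, hij⟩, ⟨i, k, true, hik⟩, ⟨j, k, true, hjk⟩] ++ C₂) 0)
      (diag (C₁ ++ [⟨j, k, true, hjk⟩, ⟨i, k, true, hik⟩, ⟨i, j, true, hij⟩] ++ C₂) 0) := by
  refine equiv_block [(C₁.length + 1 + 1, ⟨j, k, true, hjk⟩), (C₁.length + 1, ⟨i, k, true, hik⟩),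
    (C₁.length, ⟨i, j, true, hij⟩)] rfl
    (List.Perm.subperm (List.reverse_perm [_, _, _])) fun N₁ N₂ h => Or.inr ?_
  set t := C₁.length
  have ab : ((t, true) : Arrow) ≠ (t + 1, true) := by simp
  have ac : ((t, true) : Arrow) ≠ (t + 1 + 1, true) := by simp; omega
  have bc : ((t + 1, true) : Arrow) ≠ (t + 1 + 1, true) := by simp
  obtain ⟨v1, v2, v3, v4, v5, v6, v7⟩ := sw3_val ab ac bc
  have e : ndiag (N₁ ++ [(t + 1 + 1, ⟨j, k, true, hjk⟩), (t + 1, ⟨i, k, true, hik⟩),
      (t, ⟨i, j, true, hij⟩)] ++ N₂) = fun s => (ndiag (N₁ ++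
        names [⟨i, j, true, hij⟩, ⟨i, k, true, hik⟩, ⟨j, k, true, hjk⟩] t ++ N₂) s).map
        (sw3 (t, true) (t + 1, true) (t + 1 + 1, true)) := by
    funext s
    have kk : ∀ N : List (ℕ × Ltr m), (∀ x ∈ N.map Prod.fst, x ∉ List.range' t 3) →
        (ndiag N s).map (sw3 (t, true) (t + 1, true) (t + 1 + 1, true)) = ndiag N s := by
      intro N hN
      refine (List.map_congr_left fun e he => ?_).trans (List.map_id _)
      have := hN _ (name_of_mem he)
      simp only [List.range'_succ, List.range'_zero, List.mem_cons, List.not_mem_nil, or_false,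
        not_or] at this
      obtain ⟨d, o⟩ := e
      have h7 := v7 d (fun h => this.1 (by rw [h])) (fun h => this.2.1 (by rw [h]))
        (fun h => this.2.2 (by rw [h]))
      cases o
      · exact h7.2
      · exact h7.1
    simp only [ndiag_append, List.map_append]
    rw [kk N₁ (fun x hx => h x (by simp only [List.map_append, List.mem_append]; exact Or.inl hx)),
      kk N₂ (fun x hx => h x (by simp only [List.map_append, List.mem_append]; exact Or.inr hx))]
    congr 2
    simp only [ndiag, names, tok, List.flatMap_cons, List.flatMap_nil]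
    by_cases c1 : s = i
    · simp [c1, hij, hik, v1, v2]
    by_cases c2 : s = j
    · simp [c2, hij.symm, hjk, v3, v4]
    by_cases c3 : s = k
    · simp [c3, hik.symm, hjk.symm, v5, v6]
    simp [c1, c2, c3]
  rw [e]
  refine Move.R3 _ _ _ _ true true true ab ac bc ⟨i, ?_⟩ ⟨j, ?_⟩ ⟨k, ?_⟩ (by simp) (by simp)
  · refine ⟨ndiag N₁ i, ndiag N₂ i, ?_⟩
    simp [ndiag, names, tok, hij, hik]
  · refine ⟨ndiag N₁ j, ndiag N₂ j, ?_⟩
    simp [ndiag, names, tok, hij.symm, hjk]
  · refine ⟨ndiag N₁ k, ndiag N₂ k, ?_⟩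
    simp [ndiag, names, tok, hik.symm, hjk.symm]

def lsetoid (m : ℕ) : Setoid (List (Ltr m)) where
  r C C' := ∀ C₂, ReidemeisterEquiv (diag (C ++ C₂) 0) (diag (C' ++ C₂) 0)
  iseqv := ⟨fun _ _ => Relation.EqvGen.refl _, fun h C => Relation.EqvGen.symm _ _ (h C),
    fun h h' C => Relation.EqvGen.trans _ _ _ (h C) (h' C)⟩

abbrev Om (n : ℕ) : Type := Quotient (lsetoid (n + 1)) × Perm (Fin (n + 1))

def app (B : List (Ltr m)) : Quotient (lsetoid m) → Quotient (lsetoid m) :=
  Quotient.map (· ++ B) fun C C' h C₂ => by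
    have := h (B ++ C₂)
    simpa only [List.append_assoc] using this

lemma app_append (B B' : List (Ltr m)) (q : Quotient (lsetoid m)) :
    app (B ++ B') q = app B' (app B q) := by
  induction q using Quotient.inductionOn with
  | _ C => simp [app]

lemma app_nil (q : Quotient (lsetoid m)) : app [] q = q := by
  induction q using Quotient.inductionOn with
  | _ C => simp [app]

lemma app_congr {B B' : List (Ltr m)}
    (h : ∀ C₁ C₂, ReidemeisterEquiv (diag (C₁ ++ B ++ C₂) 0) (diag (C₁ ++ B' ++ C₂) 0)) :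
    app B = app B' := by
  funext q
  induction q using Quotient.inductionOn with
  | _ C => exact Quotient.sound (h C)

noncomputable def RW (w : List (Gen n × Bool)) (x : Om n) : Om n :=
  (app (ltrs w x.2) x.1, x.2 * wperm w)

lemma RW_nil (x : Om n) : RW [] x = x := by simp [RW, ltrs, app_nil, wperm_nil]

lemma RW_cons (g : Gen n × Bool) (w : List (Gen n × Bool)) (x : Om n) :
    RW (g :: w) x = RW w (RW [g] x) := by
  obtain ⟨g, e⟩ := g
  cases g with
  | ρ i => simp [RW, ltrs, wperm_ρ, wperm_nil, app_nil, mul_assoc]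
  | σ i => cases e <;> simp [RW, ltrs, wperm_σ, wperm_nil, mul_assoc, ← app_append]

lemma RW_cancel (g : Gen n) (e : Bool) (x : Om n) : RW [(g, !e)] (RW [(g, e)] x) = x := by
  rw [← RW_cons]
  cases g with
  | ρ i => simp [RW, ltrs, wperm_ρ, wperm_nil, app_nil, tp_mul_self]
  | σ i =>
    have := fun a : Ltr (n + 1) => app_congr fun C₁ C₂ => equiv_cancel C₁ C₂ a
    cases e
    · simp only [RW, ltrs, Bool.not_false, wperm_σ, wperm_nil, mul_one, tp_mul_self,
        Perm.mul_apply, tp_cast, tp_succ]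
      exact Prod.ext ((congrFun (this _) _).trans (app_nil _)) rfl
    · simp only [RW, ltrs, Bool.not_true, wperm_σ, wperm_nil, mul_one, tp_mul_self,
        Perm.mul_apply, tp_cast, tp_succ]
      exact Prod.ext ((congrFun (this _) _).trans (app_nil _)) rfl

noncomputable def Rg (g : Gen n) : Perm (Om n) where
  toFun := RW [(g, false)]
  invFun := RW [(g, true)]
  left_inv := RW_cancel g false
  right_inv := RW_cancel g true

lemma lift_Rg (w : List (Gen n × Bool)) (x : Om n) :
    (FreeGroup.lift Rg (FreeGroup.mk w))⁻¹ x = RW w x := by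
  induction w generalizing x with
  | nil => rw [← FreeGroup.one_eq_mk, map_one, RW_nil]; rfl
  | cons g w ih =>
    obtain ⟨g, e⟩ := g
    rw [mk_cons', map_mul, mul_inv_rev, Perm.mul_apply, ih, RW_cons (g, e) w]
    congr 1
    cases e
    · rw [sg_false, map_inv, inv_inv, FreeGroup.lift_apply_of]; rfl
    · rw [sg_true, FreeGroup.lift_apply_of]; rfl

lemma lift_Rg_eq {w w' : List (Gen n × Bool)} (h : ∀ x, RW w x = RW w' x) :
    FreeGroup.lift Rg (FreeGroup.mk w * (FreeGroup.mk w')⁻¹) = 1 := by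
  rw [map_mul, map_inv, mul_inv_eq_one, ← inv_inj]
  ext1 x
  rw [lift_Rg, lift_Rg, h]

lemma relator_Rg {r : FreeGroup (Gen n)} (h : IsRelator r) : FreeGroup.lift Rg r = 1 := by
  cases h with
  | braid_σ i j h =>
    refine lift_Rg_eq (w := [(.σ i, true), (.σ j, true), (.σ i, true)])
      (w' := [(.σ j, true), (.σ i, true), (.σ j, true)]) fun x => ?_
    have e1 : j.castSucc = i.succ := Fin.ext (by simp [h])
    have o1 : tp i j.succ = j.succ := tp_other i (by simp; omega) (by simp; omega)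
    have o2 : tp j i.castSucc = i.castSucc := tp_other j (by simp; omega) (by simp; omega)
    have o3 : tp j i.succ = j.succ := by rw [← e1, tp_cast]
    have o4 : tp j j.succ = i.succ := by rw [← e1, tp_succ]
    simp only [RW, ltrs, wperm_σ, wperm_nil, mul_one, Perm.mul_apply, e1, o1, o2, o3, o4, tp_cast,
      tp_succ]
    refine Prod.ext (congrFun (app_congr fun C₁ C₂ => equiv_hex C₁ C₂ _ _ _) _) ?_
    simp only [← mul_assoc (tp _), tp_braid h]
  | braid_ρ i j h =>
    refine lift_Rg_eq (w := [(.ρ i, true), (.ρ j, true), (.ρ i, true)])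
      (w' := [(.ρ j, true), (.ρ i, true), (.ρ j, true)]) fun x => ?_
    simp only [RW, ltrs, wperm_ρ, wperm_nil, mul_one, ← mul_assoc (tp _), tp_braid h]
  | braid_mixed i j h =>
    refine lift_Rg_eq (w := [(.ρ i, true), (.ρ j, true), (.σ i, true)])
      (w' := [(.σ j, true), (.ρ i, true), (.ρ j, true)]) fun x => ?_
    have e1 : j.castSucc = i.succ := Fin.ext (by simp [h])
    have o1 : tp i j.succ = j.succ := tp_other i (by simp; omega) (by simp; omega)
    have o2 : tp j i.castSucc = i.castSucc := tp_other j (by simp; omega) (by simp; omega)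
    have o3 : tp j i.succ = j.succ := by rw [← e1, tp_cast]
    simp only [RW, ltrs, wperm_σ, wperm_ρ, wperm_nil, mul_one, Perm.mul_apply, e1, o1, o2, o3,
      tp_cast, ← mul_assoc (tp _), tp_braid h]
  | comm_σ i j h =>
    refine lift_Rg_eq (w := [(.σ i, true), (.σ j, true)])
      (w' := [(.σ j, true), (.σ i, true)]) fun x => ?_
    have o1 : tp i j.succ = j.succ := tp_other i (by simp; omega) (by simp; omega)
    have o2 : tp j i.castSucc = i.castSucc := tp_other j (by simp; omega) (by simp; omega)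
    have o3 : tp j i.succ = i.succ := tp_other j (by simp; omega) (by simp; omega)
    have o4 : tp i j.castSucc = j.castSucc := tp_other i (by simp; omega) (by simp; omega)
    simp only [RW, ltrs, wperm_σ, wperm_nil, mul_one, Perm.mul_apply, o1, o2, o3, o4]
    refine Prod.ext (congrFun (app_congr fun C₁ C₂ => equiv_comm C₁ C₂ ?_) _) ?_
    · refine ⟨?_, ?_, ?_, ?_⟩ <;> refine x.2.injective.ne fun e => ?_ <;>
        have := congrArg Fin.val e <;> simp at this <;> omega
    · simp only [tp_comm h]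
  | comm_ρ i j h =>
    refine lift_Rg_eq (w := [(.ρ i, true), (.ρ j, true)])
      (w' := [(.ρ j, true), (.ρ i, true)]) fun x => ?_
    simp only [RW, ltrs, wperm_ρ, wperm_nil, mul_one, tp_comm h]
  | comm_mixed i j h =>
    refine lift_Rg_eq (w := [(.σ i, true), (.ρ j, true)])
      (w' := [(.ρ j, true), (.σ i, true)]) fun x => ?_
    have o2 : tp j i.castSucc = i.castSucc := tp_other j (by simp; omega) (by simp; omega)
    have o3 : tp j i.succ = i.succ := tp_other j (by simp; omega) (by simp; omega)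
    simp only [RW, ltrs, wperm_σ, wperm_ρ, wperm_nil, mul_one, Perm.mul_apply, o2, o3, tp_comm h]
  | sq_ρ i =>
    have := lift_Rg_eq (w := [(.ρ i, true), (.ρ i, true)]) (w' := []) fun x => by
      simp only [RW, ltrs, wperm_ρ, wperm_nil, mul_one, tp_mul_self]
    rw [← FreeGroup.one_eq_mk, inv_one, mul_one] at this
    exact this

theorem well_defined (w w' : List (Gen n × Bool)) (h : braidOfWord w = braidOfWord w') :
    ReidemeisterEquiv (gaussDiagram w) (gaussDiagram w') := by
  have h1 := congrArg (PresentedGroup.toGroup (f := Rg) (rels := {r | IsRelator r})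
    fun _ hr => relator_Rg hr) h
  have h2 : FreeGroup.lift Rg (FreeGroup.mk w) = FreeGroup.lift Rg (FreeGroup.mk w') := h1
  have h3 := lift_Rg w (⟦[]⟧, 1)
  rw [h2, lift_Rg] at h3
  have h4 := Quotient.exact (congrArg Prod.fst h3).symm []
  rw [gaussDiagram, gaussDiagram, gaussFrom_eq, gaussFrom_eq]
  simpa using h4

theorem isGauss_gaussDiagram (w : List (Gen n × Bool)) : IsGauss (gaussDiagram w) := by
  rw [gaussDiagram, gaussFrom_eq, diag_eq]
  exact isGauss_ndiag (names_nodup _ _)

end Pool.Agent.MP_e4304e_gt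

end

section

namespace Pool.Agent.MP_e4304e_gt

variable {m n : ℕ}

lemma ReidemeisterEquiv.isGauss {D D' : Diagram m} (h : ReidemeisterEquiv D D') :
    IsGauss D ↔ IsGauss D' := by
  induction h with
  | rel _ _ h => exact ⟨fun _ => h.2.1, fun _ => h.1⟩
  | refl => rfl
  | symm _ _ _ ih => exact ih.symm
  | trans _ _ _ _ _ ih1 ih2 => exact ih1.trans ih2

lemma mk_eq_iff {D D' : Diagram m} (hD : IsGauss D) (hD' : IsGauss D') :
    (Quot.mk _ ⟨D, hD⟩ : VirtualStringLink m) = Quot.mk _ ⟨D', hD'⟩ ↔ ReidemeisterEquiv D D' := by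
  constructor
  · intro h
    have key : ∀ x y : {D : Diagram m // IsGauss D},
        Relation.EqvGen (fun D D' => Move D.1 D'.1) x y → ReidemeisterEquiv x.1 y.1 := by
      intro x y h
      induction h with
      | rel x y h => exact Relation.EqvGen.rel _ _ ⟨x.2, y.2, h⟩
      | refl => exact Relation.EqvGen.refl _
      | symm _ _ _ ih => exact Relation.EqvGen.symm _ _ ih
      | trans _ _ _ _ _ ih1 ih2 => exact Relation.EqvGen.trans _ _ _ ih1 ih2
    exact key _ _ (Quot.eqvGen_exact h)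
  · intro h
    induction h with
    | rel _ _ h => exact Quot.sound h.2.2
    | refl => rfl
    | symm _ _ _ ih => exact (ih _ _).symm
    | trans _ _ _ h1 _ ih1 ih2 =>
      exact (ih1 hD ((ReidemeisterEquiv.isGauss h1).1 hD)).trans (ih2 _ _)

lemma braidOfWord_surjective (g : VirtualBraidGroup n) : ∃ w, braidOfWord w = g := by
  obtain ⟨x, rfl⟩ := PresentedGroup.mk_surjective _ g
  induction x using Quot.inductionOn with
  | _ w => exact ⟨w, rfl⟩

theorem main (n : ℕ) : ∃ ι : VirtualPureBraidGroup n → VirtualStringLink (n + 1),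
    (∀ (w : List (Gen n × Bool)) (hw : braidOfWord w ∈ VirtualPureBraidGroup n),
      ∃ hD : IsGauss (gaussDiagram w), ι ⟨braidOfWord w, hw⟩ = Quot.mk _ ⟨gaussDiagram w, hD⟩) ∧
    Function.Injective ι := by
  choose W hW using braidOfWord_surjective (n := n)
  refine ⟨fun g => Quot.mk _ ⟨gaussDiagram (W g.1), isGauss_gaussDiagram _⟩, fun w hw =>
    ⟨isGauss_gaussDiagram w, (mk_eq_iff _ _).2 (well_defined _ _ (hW _))⟩, fun g g' h => ?_⟩
  have hp : ∀ g : VirtualPureBraidGroup n, wperm (W g.1) = 1 := fun g => by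
    have := g.2
    rw [← hW g.1] at this
    exact this
  have := injective_main _ _ ((hp g).trans (hp g').symm) ((mk_eq_iff _ _).1 h)
  rw [hW, hW] at this
  exact Subtype.ext this

end Pool.Agent.MP_e4304e_gt

end

section

/-! Multiplicative invariants of virtual string links with values in finite groups of prime
power order detect every non-trivial virtual pure braid. -/

namespace Pool.Agent.MP_e4304e_gt.RP

open Equiv Function

variable {ι : Type} {p m n : ℕ}

/-- The underlying factorisation. -/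
def Mem.toXF (Q : Mem p ι) : XF where
  G := Q.G
  H := Q.H
  K := Q.K
  hh := Q.H.subtype
  kk := Q.K.subtype
  fact g := by
    obtain ⟨k, hk, h, hh, e⟩ := Q.fact g
    exact ⟨⟨k, hk⟩, ⟨h, hh⟩, e⟩
  exact k h e := by
    have e' : (k : Q.G) = h := e
    have := Q.ex k (e' ▸ h.2) k.2
    exact ⟨Subtype.ext this, Subtype.ext (e'.symm.trans this)⟩

/-- The image of a free colour. -/
def Mem.cm (Q : Mem p ι) (x : MP_e4304e_gt.Col ι) : Col Q.toXF :=
  (⟨Q.A x.1, Q.hA _⟩, ⟨Q.B x.2, Q.hB _⟩)

lemma Mem.pos (Q : Mem p ι) {o u o' u' : MP_e4304e_gt.Col ι} (h : MP_e4304e_gt.PosCr o u o' u') :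
    PosCr (Q.cm o) (Q.cm u) (Q.cm o') (Q.cm u') := by
  refine ⟨Subtype.ext ?_, Subtype.ext ?_, Q.sq.morph h.2.2⟩
  · change Q.A o.1 * Q.A u.1 = Q.A u'.1 * Q.A o'.1
    rw [← map_mul, h.1, map_mul]
  · change Q.B o.2 * Q.B u.2 = Q.B u'.2 * Q.B o'.2
    rw [← map_mul, h.2.1, map_mul]

lemma path_comp {X Y E : Type} (f : X → Y) {cin cout : E → X} {l : List E} {a b : X}
    (h : Path cin cout a l b) : Path (f ∘ cin) (f ∘ cout) (f a) l (f b) := by
  induction l generalizing a with
  | nil => exact congrArg f h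
  | cons x l ih => exact ⟨congrArg f h.1, ih h.2⟩

lemma Mem.col (Q : Mem p ι) {D : Diagram m} {s t : Fin m → MP_e4304e_gt.Col ι}
    (h : MP_e4304e_gt.Coloring D s t) : Coloring D (Q.cm ∘ s) (Q.cm ∘ t) := by
  obtain ⟨cin, cout, h1, h2⟩ := h
  refine ⟨Q.cm ∘ cin, Q.cm ∘ cout, fun a => ?_, fun i => path_comp Q.cm (h2 i)⟩
  obtain ⟨a, e⟩ := a
  cases e
  · exact Q.pos (h1 (a, false))
  · exact Q.pos (h1 (a, true))

lemma faithful (w : List (Gen n × Bool)) (hp : wperm w = 1)
    (h : (ltrs w 1).foldl act (s₀ (n + 1)) = s₀ (n + 1)) : braidOfWord w = 1 := by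
  obtain ⟨N, hN⟩ := exists_cocycle (rels_el (n := n))
  have key : ∀ (C : List (Ltr (n + 1))) s, Good s → N s = (C.map el).prod * N (C.foldl act s) := by
    intro C
    induction C with
    | nil => simp
    | cons a C ih =>
      intro s hs
      rw [hN s a hs, ih _ (hs.act a), List.map_cons, List.prod_cons, List.foldl_cons, mul_assoc]
  have h2 := key (ltrs w 1) _ good_base
  have h4 := sec_word w 1
  rw [h] at h2
  rw [hp, mul_one, sec_one, one_mul, mul_one] at h4
  rw [h4]
  exact mul_eq_right.1 h2.symm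

lemma ltrs_append (w w' : List (Gen n × Bool)) (π : Perm (Fin (n + 1))) :
    ltrs (w ++ w') π = ltrs w π ++ ltrs w' (π * wperm w) := by
  induction w generalizing π with
  | nil => simp [ltrs, wperm_nil]
  | cons x w ih =>
    obtain ⟨x, e⟩ := x
    cases x with
    | ρ i => simp [ltrs, wperm_ρ, ih, mul_assoc]
    | σ i => cases e <;> simp [ltrs, wperm_σ, ih, mul_assoc]

lemma gauss_append (w w' : List (Gen n × Bool)) (h : wperm w = 1) :
    ∃ B : Diagram (n + 1), (gaussDiagram (w ++ w') = fun i => gaussDiagram w i ++ B i) ∧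
      ReidemeisterEquiv B (gaussDiagram w') := by
  refine ⟨ndiag (names (ltrs w' 1) (0 + (ltrs w 1).length)), funext fun i => ?_, ?_⟩
  · rw [gaussDiagram, gaussDiagram, gaussFrom_eq, gaussFrom_eq, ltrs_append, h, mul_one, diag_eq,
      diag_eq, names_append, ndiag_append]
  · rw [gaussDiagram, gaussFrom_eq, diag_eq]
    exact equiv_rename (names_nodup _ _) (names_nodup _ _) (by rw [names_snd, names_snd])

theorem main (n p : ℕ) (hp : p.Prime) (g : VirtualPureBraidGroup n) (hg : g ≠ 1) :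
    ∃ (G : Type) (_ : Group G) (_ : Finite G) (φ : VirtualStringLink (n + 1) → G)
      (f : VirtualPureBraidGroup n →* G), IsPGroup p G ∧
      (∀ (A B : Diagram (n + 1)) (hA : IsGauss A) (hB : IsGauss B)
        (hAB : IsGauss fun i => A i ++ B i),
        φ (Quot.mk _ ⟨fun i => A i ++ B i, hAB⟩) =
          φ (Quot.mk _ ⟨A, hA⟩) * φ (Quot.mk _ ⟨B, hB⟩)) ∧
      (∀ (w : List (Gen n × Bool)) (hw : braidOfWord w ∈ VirtualPureBraidGroup n),
        ∃ hD : IsGauss (gaussDiagram w),
          φ (Quot.mk _ ⟨gaussDiagram w, hD⟩) = f ⟨braidOfWord w, hw⟩) ∧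
      f g ≠ 1 := by
  haveI := Fact.mk hp
  choose W hW using braidOfWord_surjective (n := n)
  have hp1 : ∀ g : VirtualPureBraidGroup n, wperm (W g.1) = 1 := fun g => by
    have := g.2
    rw [← hW g.1] at this
    exact this
  have h0 := coloring_diag_ex (ltrs (W g.1) 1) 0 (s₀ (n + 1))
  have h1 : (ltrs (W g.1) 1).foldl act (s₀ (n + 1)) ≠ s₀ (n + 1) := fun h =>
    hg (Subtype.ext ((hW _).symm.trans (faithful _ (hp1 g) h)))
  rw [← gaussFrom_eq] at h0
  generalize (ltrs (W g.1) 1).foldl act (s₀ (n + 1)) = t at h0 h1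
  generalize s₀ (n + 1) = s at h0 h1
  obtain ⟨Q, hQ⟩ : ∃ Q : Mem p (Fin (n + 1)), Q.cm ∘ s ≠ Q.cm ∘ t := by
    obtain ⟨l, hl⟩ := Function.ne_iff.1 h1
    by_cases e : (s l).1 = (t l).1
    · obtain ⟨Q, -, hQ⟩ := sep (p := p) (g := (s l).2⁻¹ * (t l).2) fun h =>
        hl (Prod.ext e (inv_mul_eq_one.1 h)).symm
      refine ⟨Q, fun h => hQ ?_⟩
      rw [map_mul, map_inv, inv_mul_eq_one]
      exact congrArg (fun f => (f l).2.1) h
    · obtain ⟨Q, hQ, -⟩ := sep (p := p) (g := (s l).1⁻¹ * (t l).1) fun h => e (inv_mul_eq_one.1 h)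
      refine ⟨Q, fun h => hQ ?_⟩
      rw [map_mul, map_inv, inv_mul_eq_one]
      exact congrArg (fun f => (f l).1.1) h
  have hC := fil_CF (E := Q.toXF) Q.fil
  have hL := lip_CF (E := Q.toXF) Q.fil fun i x k h => Q.split i _ x.2 _ k.2 h
  haveI : Finite Q.toXF.H := Subtype.finite
  haveI : Finite Q.toXF.K := Subtype.finite
  obtain ⟨a, ha⟩ := IsPGroup.iff_card.1 Q.pg
  have hS : IsPGroup p (Fin (n + 1) → Col Q.toXF) := fun x => ⟨a, funext fun l =>
    Prod.ext (Subtype.ext (ha ▸ pow_card_eq_one' (x := (x l).1.1)))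
      (Subtype.ext (ha ▸ pow_card_eq_one' (x := (x l).2.1)))⟩
  obtain ⟨U, hU, hu⟩ := unip (hC.pi (Fin (n + 1))) hS
  have ex : ∀ D : Diagram (n + 1), IsGauss D → ∃ u : U, ∀ s, Coloring D s (u.1 s) := by
    intro D hD
    choose T hT using col_ex hC hL hD
    obtain ⟨u, hu⟩ := hu T fun i s s' hs l _ =>
      col_uni hC hL hD (hT s) (hT s') (fun l => hs l trivial) l
    exact ⟨u, fun s => hu s ▸ hT s⟩
  choose u hu using ex
  have uq : ∀ D hD s t, Coloring D s t → (u D hD).1 s = t := fun D hD s t h =>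
    col_uniq hC hL hD (hu D hD s) h
  let φ : VirtualStringLink (n + 1) → U := Quot.lift (fun D => (u D.1 D.2)⁻¹) fun D D' h =>
    congrArg _ (Subtype.ext (Equiv.ext fun s =>
      uq _ _ _ _ ((move_coloring D.2.wf D'.2.wf h).2 (hu _ _ s))))
  have mul : ∀ (A B : Diagram (n + 1)) (hA : IsGauss A) (hB : IsGauss B)
      (hAB : IsGauss fun i => A i ++ B i), φ (Quot.mk _ ⟨fun i => A i ++ B i, hAB⟩) =
        φ (Quot.mk _ ⟨A, hA⟩) * φ (Quot.mk _ ⟨B, hB⟩) := by
    intro A B hA hB hAB
    change (u _ hAB)⁻¹ = (u A hA)⁻¹ * (u B hB)⁻¹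
    rw [← mul_inv_rev]
    exact congrArg _ (Subtype.ext (Equiv.ext fun s =>
      uq _ _ _ _ (col_stack hA hAB (hu A hA s) (hu B hB _))))
  have wd : ∀ w w', braidOfWord w = braidOfWord w' →
      φ (Quot.mk _ ⟨gaussDiagram w, isGauss_gaussDiagram w⟩) =
        φ (Quot.mk _ ⟨gaussDiagram w', isGauss_gaussDiagram w'⟩) := fun w w' h =>
    congrArg φ ((mk_eq_iff _ _).2 (well_defined _ _ h))
  refine ⟨U, inferInstance, inferInstance, φ, MonoidHom.mk'
    (fun g => φ (Quot.mk _ ⟨gaussDiagram (W g.1), isGauss_gaussDiagram _⟩)) fun a b => ?_, hU, mul,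
    fun w hw => ⟨isGauss_gaussDiagram w, wd _ _ (hW _).symm⟩, fun h => hQ ?_⟩
  · obtain ⟨B, e1, e2⟩ := gauss_append (W a.1) (W b.1) (hp1 a)
    have hB := e2.isGauss.2 (isGauss_gaussDiagram _)
    have hAB := e1 ▸ isGauss_gaussDiagram (W a.1 ++ W b.1)
    rw [wd _ (W a.1 ++ W b.1) (by
      rw [hW, braidOfWord, ← FreeGroup.mul_mk, map_mul]
      exact congrArg₂ (· * ·) (hW _).symm (hW _).symm), ← (mk_eq_iff hB _).2 e2,
      ← mul _ _ _ _ hAB]
    simp only [e1]
  · have e : u _ (isGauss_gaussDiagram (W g.1)) = 1 := inv_eq_one.1 h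
    rw [← uq _ (isGauss_gaussDiagram (W g.1)) _ _ (Q.col h0), e]
    rfl

end Pool.Agent.MP_e4304e_gt.RP

end

section

/-! Invariants of finite type of virtual string links separate the virtual pure braids. -/

namespace Pool.Agent.MP_e4304e_gt.RP

open Equiv Function

/-- The vertices of the cube: sets of deleted crossings. -/
abbrev Cu : Type := Finset Arrow

section cube

variable {G : Type} [Group G] {N : ℕ → Subgroup G} {c d : ℕ}

/-- The function supported on a face of the cube. -/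
def fc (A : Cu) : G →* (Cu → G) :=
  MonoidHom.mk' (fun g S => if Disjoint A S then g else 1) fun g x => funext fun S => by
    simp only [Pi.mul_apply]
    split_ifs <;> simp

lemma fc_apply (A S : Cu) (g : G) : fc A g S = if Disjoint A S then g else 1 := rfl

lemma fc_comm (A B : Cu) (g x : G) :
    fc A g * fc B x * (fc A g)⁻¹ * (fc B x)⁻¹ = fc (A ∪ B) (g * x * g⁻¹ * x⁻¹) := by
  funext S
  simp only [Pi.mul_apply, Pi.inv_apply, fc_apply, Finset.disjoint_union_left]
  by_cases h1 : Disjoint A S <;> by_cases h2 : Disjoint B S <;> simp [h1, h2]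

inductive GamP (N : ℕ → Subgroup G) (d i : ℕ) : (Cu → G) → Prop
  | one : GamP N d i 1
  | mul (a : ℕ) (A : Cu) (g : G) (f : Cu → G) (ha : i ≤ a) (hA : A.card ≤ 2 ^ a * d)
      (hg : g ∈ N a) (hf : GamP N d i f) : GamP N d i (fc A g * f)

lemma GamP.mul' {i : ℕ} {f f' : Cu → G} (h : GamP N d i f) (h' : GamP N d i f') :
    GamP N d i (f * f') := by
  induction h with
  | one => rwa [one_mul]
  | mul a A g f ha hA hg _ ih => rw [mul_assoc]; exact .mul a A g _ ha hA hg ih

/-- The group generated by the faces of small codimension. -/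
def Gam (N : ℕ → Subgroup G) (d i : ℕ) : Subgroup (Cu → G) where
  carrier := {f | GamP N d i f}
  one_mem' := .one
  mul_mem' := GamP.mul'
  inv_mem' {f} h := by
    induction h with
    | one => rw [inv_one]; exact .one
    | mul a A g f ha hA hg _ ih =>
      have := GamP.mul' ih (.mul a A g⁻¹ 1 ha hA (inv_mem hg) .one)
      rwa [mul_one, map_inv, ← mul_inv_rev] at this

lemma fc_mem {i a : ℕ} {A : Cu} {g : G} (ha : i ≤ a) (hA : A.card ≤ 2 ^ a * d) (hg : g ∈ N a) :
    fc A g ∈ Gam N d i :=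
  mul_one (fc A g) ▸ GamP.mul a A g 1 ha hA hg .one

lemma Gam.le {i j : ℕ} (hij : i ≤ j) {f : Cu → G} (h : f ∈ Gam N d j) : f ∈ Gam N d i := by
  induction h with
  | one => exact one_mem _
  | mul a A g f ha hA hg _ ih => exact mul_mem (fc_mem (hij.trans ha) hA hg) ih

lemma fc_comm_mem (h : Fil N c) {a b : ℕ} {A B : Cu} {g x : G} (hA : A.card ≤ 2 ^ a * d)
    (hg : g ∈ N a) (hB : B.card ≤ 2 ^ b * d) (hx : x ∈ N b) :
    fc A g * fc B x * (fc A g)⁻¹ * (fc B x)⁻¹ ∈ Gam N d (b + 1) := by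
  rw [fc_comm]
  have h1 := Finset.card_union_le A B
  rcases le_total a b with hab | hab
  · have := Nat.mul_le_mul_right d (Nat.pow_le_pow_right two_pos hab)
    exact fc_mem le_rfl (by rw [pow_succ', mul_assoc]; omega) (h.comm b g x hx)
  · have := Nat.mul_le_mul_right d (Nat.pow_le_pow_right two_pos hab)
    refine fc_mem (Nat.succ_le_succ hab) (by rw [pow_succ', mul_assoc]; omega) ?_
    simpa [mul_assoc] using inv_mem (h.comm a x g hg)

lemma Gam.conj (h : Fil N c) {a j : ℕ} {A : Cu} {g : G} (hA : A.card ≤ 2 ^ a * d) (hg : g ∈ N a)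
    {f : Cu → G} (hf : f ∈ Gam N d j) : fc A g * f * (fc A g)⁻¹ ∈ Gam N d j := by
  induction hf with
  | one => simp [one_mem]
  | mul b B x f hb hB hx _ ih =>
    have := mul_mem (mul_mem (Gam.le (by omega) (fc_comm_mem h hA hg hB hx)) (fc_mem hb hB hx)) ih
    simpa only [mul_assoc, inv_mul_cancel_left] using this

lemma Gam.comm (h : Fil N c) {b : ℕ} {B : Cu} {x : G} (hB : B.card ≤ 2 ^ b * d) (hx : x ∈ N b)
    {f : Cu → G} (hf : f ∈ Gam N d 0) : f * fc B x * f⁻¹ * (fc B x)⁻¹ ∈ Gam N d (b + 1) := by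
  induction hf with
  | one => simp [one_mem]
  | mul a A g f _ hA hg _ ih =>
    have := mul_mem (Gam.conj h hA hg ih) (fc_comm_mem h hA hg hB hx)
    simpa only [mul_assoc, inv_mul_cancel_left, mul_inv_rev] using this

lemma Fil.eq_one (h : Fil N c) {a : ℕ} (ha : c ≤ a) {g : G} (hg : g ∈ N a) : g = 1 := by
  have := h.le ha hg
  rwa [h.bot, Subgroup.mem_bot] at this

lemma Gam.trunc (a : Arrow) {i : ℕ} {f : Cu → G} (hf : f ∈ Gam N d i) :
    (fun S => if a ∈ S then 1 else f S) ∈ Gam N (d + 1) i := by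
  induction hf with
  | one => simp only [Pi.one_apply, ite_self]; exact one_mem _
  | mul b B x f hb hB hx _ ih =>
    have h1 := Finset.card_insert_le a B
    have h2 := Nat.one_le_two_pow (n := b)
    convert mul_mem (fc_mem (A := insert a B) hb (by rw [mul_add]; omega) hx) ih using 1
    funext S
    by_cases h : a ∈ S <;> simp [fc_apply, h]

/-- All alternating sums over large cubes vanish. -/
def Dg (k : ℕ) (F : Cu → ℤ) : Prop :=
  ∀ T : Cu, k < T.card → ∑ S ∈ T.powerset, (-1) ^ S.card * F S = 0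

lemma Dg.const (k : ℕ) (z : ℤ) : Dg k fun _ => z := fun T hT => by
  rw [← Finset.sum_mul, Finset.sum_powerset_neg_one_pow_card_of_nonempty
    (Finset.card_pos.1 (by omega)), zero_mul]

lemma Dg.face {k : ℕ} {F : Cu → ℤ} (h : Dg k F) (A : Cu) :
    Dg (k + A.card) fun S => if Disjoint A S then F S else 0 := fun T hT => by
  have h1 := Finset.le_card_sdiff A T
  refine Eq.trans ?_ (h (T \ A) (by omega))
  simp only [mul_ite, mul_zero]
  rw [← Finset.sum_filter]
  congr 1
  ext S
  simp [Finset.subset_sdiff, disjoint_comm]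

lemma dg_poly (h : Fil N c) {e : ℕ} {φ : G → ℤ} (hφ : Poly e φ) {f : Cu → G}
    (hf : f ∈ Gam N d 0) : Dg (2 ^ c * d * e) fun S => φ (f S) := by
  induction e generalizing φ f with
  | zero => simpa only [hφ _] using Dg.const _ 0
  | succ e ih =>
    induction hf with
    | one => exact Dg.const _ (φ 1)
    | mul a A g f _ hA hg hf ih' =>
      rcases le_total c a with ha | ha
      · rwa [h.eq_one ha hg, map_one, one_mul]
      intro T hT
      have h1 := Nat.mul_le_mul_right d (Nat.pow_le_pow_right two_pos ha)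
      have h2 := (ih (hφ g) hf).face A T (by rw [mul_add] at hT; omega)
      have h4 := congrArg₂ (· + ·) (ih' T hT) h2
      simp only [← Finset.sum_add_distrib, add_zero] at h4
      refine (Finset.sum_congr rfl fun S _ => ?_).trans h4
      by_cases h3 : Disjoint A S <;> simp [fc_apply, h3, ← mul_add]

end cube

lemma path_filter {X E : Type} {cin cout : E → X} (q : E → Bool) {l : List E} {a b : X}
    (h : Path cin cout a l b) (hq : ∀ e, ¬ q e → cout e = cin e) :
    Path cin cout a (l.filter q) b := by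
  induction l generalizing a with
  | nil => exact h
  | cons x l ih =>
    rw [List.filter_cons]
    split_ifs with h1
    · exact ⟨h.1, ih h.2⟩
    · rw [← h.1, ← hq x h1]
      exact ih h.2

variable {E : XF} {N : ℕ → Subgroup E.G} {c d m n : ℕ}

lemma Gam.fact (h : Fil N c) (hs : ∀ i x k, E.hh x * E.kk k ∈ N i → E.hh x ∈ N i) (j : ℕ) :
    ∀ i, c ≤ i + j → ∀ f ∈ Gam N d i, ∃ x k, E.hh.compLeft Cu x ∈ Gam N d 0 ∧
      E.kk.compLeft Cu k ∈ Gam N d 0 ∧ f = E.hh.compLeft Cu x * E.kk.compLeft Cu k := by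
  induction j with
  | zero =>
    intro i hi f hf
    refine ⟨1, 1, by simp [one_mem], by simp [one_mem], ?_⟩
    induction hf with
    | one => simp
    | mul a A g f ha _ hg _ ih => rw [h.eq_one (hi.trans ha) hg, map_one, one_mul, ih]
  | succ j ih =>
    intro i hi f hf
    induction hf with
    | one => exact ⟨1, 1, by simp [one_mem], by simp [one_mem], by simp⟩
    | mul a A g f ha hA hg _ ih' =>
      obtain ⟨x, k, hx, hk, rfl⟩ := ih'
      obtain ⟨y, z, rfl⟩ := fact_HK g
      have hy := hs a y z hg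
      have hz : E.kk z ∈ N a := (Subgroup.mul_mem_cancel_left _ hy).1 hg
      obtain ⟨x', k', hx', hk', e⟩ := ih (i + 1) (by omega) _
        (Gam.le (by omega) (Gam.comm h hA hz (inv_mem hx)))
      have e1 : E.hh.compLeft Cu (fc A y) = fc A (E.hh y) := funext fun S => by
        simp [fc_apply, apply_ite E.hh]
      have e2 : E.kk.compLeft Cu (fc A z) = fc A (E.kk z) := funext fun S => by
        simp [fc_apply, apply_ite E.kk]
      refine ⟨fc A y * x * x', k' * fc A z * k, ?_, ?_, ?_⟩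
      · rw [map_mul, map_mul, e1]
        exact mul_mem (mul_mem (fc_mem a.zero_le hA hy) hx) hx'
      · rw [map_mul, map_mul, e2]
        exact mul_mem (mul_mem hk' (fc_mem a.zero_le hA hz)) hk
      · simp only [map_mul, e1, e2, mul_assoc]
        rw [← mul_assoc (E.hh.compLeft Cu x'), ← e]
        simp only [mul_assoc, inv_inv, inv_mul_cancel_left, mul_inv_cancel_left]

/-- Colours depending polynomially on the vertex of the cube. -/
def GC (E : XF) (N : ℕ → Subgroup E.G) (d : ℕ) : Subgroup (Cu → Col E) :=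
  (Gam N d 0).comap ((E.hh.comp (MonoidHom.fst _ _)).compLeft Cu) ⊓
    (Gam N d 0).comap ((E.kk.comp (MonoidHom.snd _ _)).compLeft Cu)

lemma mem_GC {f : Cu → Col E} : f ∈ GC E N d ↔ E.hh.compLeft Cu (fun S => (f S).1) ∈ Gam N d 0 ∧
    E.kk.compLeft Cu (fun S => (f S).2) ∈ Gam N d 0 := Iff.rfl

lemma pos_GC (h : Fil N c) (hs : ∀ i x k, E.hh x * E.kk k ∈ N i → E.hh x ∈ N i) (o u : GC E N d) :
    ∃ o' u' : GC E N d, ∀ S, PosCr (o.1 S) (u.1 S) (o'.1 S) (u'.1 S) := by
  obtain ⟨o1, o2⟩ := mem_GC.1 o.2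
  obtain ⟨u1, u2⟩ := mem_GC.1 u.2
  obtain ⟨x, k, hx, hk, e⟩ := Gam.fact h hs c 0 (by omega) _ (mul_mem o2 u1)
  have a1 := mul_mem (mul_mem (inv_mem hx) o1) u1
  have a2 := mul_mem (mul_mem o2 u2) (inv_mem hk)
  rw [← map_inv, ← map_mul, ← map_mul] at a1
  rw [← map_inv, ← map_mul, ← map_mul] at a2
  exact ⟨⟨fun S => ((x S)⁻¹ * (o.1 S).1 * (u.1 S).1, k S), mem_GC.2 ⟨a1, hk⟩⟩,
    ⟨fun S => (x S, (o.1 S).2 * (u.1 S).2 * (k S)⁻¹), mem_GC.2 ⟨hx, a2⟩⟩,
    fun S => ⟨by group, by group, congrFun e S⟩⟩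

lemma cr_GC (h : Fil N c) (hs : ∀ i x k, E.hh x * E.kk k ∈ N i → E.hh x ∈ N i) (e : Bool)
    (o u : GC E N d) : ∃ o' u' : GC E N d, ∀ S, Cr e (o.1 S) (u.1 S) (o'.1 S) (u'.1 S) := by
  cases e
  · obtain ⟨o', u', h⟩ := pos_GC h hs o⁻¹ u⁻¹
    refine ⟨o'⁻¹, u'⁻¹, fun S => ?_⟩
    have : Cr false (rev (rev (o.1 S))) (rev (rev (u.1 S))) _ _ := Cr.mirror (e := true) (h S)
    rwa [rev_rev, rev_rev] at this
  · exact pos_GC h hs o u

lemma trunc_GC (a : Arrow) (f : GC E N d) :
    (fun S => if a ∈ S then 1 else f.1 S) ∈ GC E N (d + 1) := by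
  refine mem_GC.2 ⟨?_, ?_⟩
  · convert Gam.trunc a f.2.1 using 1
    funext S
    by_cases h : a ∈ S <;> simp [h]
  · convert Gam.trunc a f.2.2 using 1
    funext S
    by_cases h : a ∈ S <;> simp [h]

lemma const_GC (h : Fil N c) (x : Col E) : (fun _ => x) ∈ GC E N d := by
  have : ∀ g : E.G, (fun _ => g) ∈ Gam N d 0 := fun g => by
    convert fc_mem (N := N) (d := d) (A := ∅) (g := g) (a := 0) le_rfl (by simp)
      (by simp [h.top]) using 1
    funext S
    simp [fc_apply]
  exact ⟨this _, this _⟩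

theorem approx (h : Fil N c) (hs : ∀ i x k, E.hh x * E.kk k ∈ N i → E.hh x ∈ N i)
    {D : Diagram m} (hD : IsGauss D) {s : Fin m → Col E} {t : Cu → Fin m → Col E}
    (ht : ∀ S, Coloring (delete D S.toList) s (t S)) (l : Fin m) :
    (fun S => t S l) ∈ GC E N c := by
  have hC := fil_CF h
  choose cin cout hc using ht
  have key : ∀ i, ∃ (ci : Endpoint → GC E N i) (ti : Fin m → GC E N i), ∀ S l,
      (∀ e ∈ delete D S.toList l, (cin S e)⁻¹ * (ci e).1 S ∈ CF E N i) ∧
        (t S l)⁻¹ * (ti l).1 S ∈ CF E N i := by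
    intro i
    induction i with
    | zero => exact ⟨1, 1, fun S l => by simp [hC.top]⟩
    | succ i ih =>
      obtain ⟨ci, ti, hi⟩ := ih
      choose O U hOU using fun a : Arrow => cr_GC h hs a.2 (ci (overAt a)) (ci (underAt a))
      let out : Endpoint → GC E N i := fun e => if e.2 then O e.1 else U e.1
      obtain ⟨ci', -, ti', hp⟩ := paths_ex (S := GC E N (i + 1)) hD.wf
        (fun e => ⟨_, trunc_GC e.1 ((ci e)⁻¹ * out e)⟩) fun l => ⟨_, const_GC h (s l)⟩
      refine ⟨ci', ti', fun S l => ?_⟩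
      have hp' : Paths (delete D S.toList) (fun e => (ci' e).1 S)
          (fun e => (ci' e).1 S * (((ci e).1 S)⁻¹ * (out e).1 S)) s fun l => (ti' l).1 S :=
        fun l => path_congr (fun e he => ⟨rfl, by
          have := List.of_mem_filter he
          simp only [Finset.mem_toList, decide_eq_true_eq] at this
          simp [this]⟩)
          (path_filter _ (path_comp (fun x : GC E N (i + 1) => x.1 S) (hp l)) fun e he => by
            simp only [Finset.mem_toList, decide_eq_true_eq, not_not] at he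
            simp [he])
      simpa using step_lip hC (lip_CF h hs) (hD.delete _) (hc S).1
        (cin' := fun e => (ci e).1 S) (cout' := fun e => (out e).1 S) (fun a => hOU a S) (hc S).2
        hp' (fun _ => rfl) (fun _ => inv_mul_cancel_left _ _) (fun l => (hi S l).1) l
        (by simp [one_mem])
  obtain ⟨ci, ti, hi⟩ := key c
  convert (ti l).2 using 1
  funext S
  exact inv_mul_eq_one.1 (hC.eq_one le_rfl (hi S l).2)

variable {ι : Type}

/-- The underlying factorisation. -/
def Mz.toXF (Q : Mz ι) : XF where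
  G := Q.G
  H := Q.H
  K := Q.K
  hh := Q.H.subtype
  kk := Q.K.subtype
  fact g := by
    obtain ⟨k, hk, h, hh, e⟩ := Q.fact g
    exact ⟨⟨k, hk⟩, ⟨h, hh⟩, e⟩
  exact k h e := by
    have e' : (k : Q.G) = h := e
    have := Q.ex k (e' ▸ h.2) k.2
    exact ⟨Subtype.ext this, Subtype.ext (e'.symm.trans this)⟩

/-- The image of a free colour. -/
def Mz.cm (Q : Mz ι) (x : MP_e4304e_gt.Col ι) : Col Q.toXF :=
  (⟨Q.A x.1, Q.hA _⟩, ⟨Q.B x.2, Q.hB _⟩)

lemma Mz.pos (Q : Mz ι) {o u o' u' : MP_e4304e_gt.Col ι} (h : MP_e4304e_gt.PosCr o u o' u') :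
    PosCr (Q.cm o) (Q.cm u) (Q.cm o') (Q.cm u') := by
  refine ⟨Subtype.ext ?_, Subtype.ext ?_, Q.sq.morph h.2.2⟩
  · change Q.A o.1 * Q.A u.1 = Q.A u'.1 * Q.A o'.1
    rw [← map_mul, h.1, map_mul]
  · change Q.B o.2 * Q.B u.2 = Q.B u'.2 * Q.B o'.2
    rw [← map_mul, h.2.1, map_mul]

lemma Mz.col (Q : Mz ι) {D : Diagram m} {s t : Fin m → MP_e4304e_gt.Col ι}
    (h : MP_e4304e_gt.Coloring D s t) : Coloring D (Q.cm ∘ s) (Q.cm ∘ t) := by
  obtain ⟨cin, cout, h1, h2⟩ := h
  refine ⟨Q.cm ∘ cin, Q.cm ∘ cout, fun a => ?_, fun i => path_comp Q.cm (h2 i)⟩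
  obtain ⟨a, e⟩ := a
  cases e
  · exact Q.pos (h1 (a, false))
  · exact Q.pos (h1 (a, true))

lemma faithful₂ (w w' : List (Gen n × Bool)) (hp : wperm w = wperm w')
    (h : (ltrs w 1).foldl act (s₀ (n + 1)) = (ltrs w' 1).foldl act (s₀ (n + 1))) :
    braidOfWord w = braidOfWord w' := by
  obtain ⟨N, hN⟩ := exists_cocycle (rels_el (n := n))
  have key : ∀ (C : List (Ltr (n + 1))) s, Good s → N s = (C.map el).prod * N (C.foldl act s) := by
    intro C
    induction C with
    | nil => simp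
    | cons a C ih =>
      intro s hs
      rw [hN s a hs, ih _ (hs.act a), List.map_cons, List.prod_cons, List.foldl_cons, mul_assoc]
  have h2 := key (ltrs w 1) _ good_base
  have h3 := key (ltrs w' 1) _ good_base
  rw [h, h3] at h2
  have h4 := sec_word w 1
  have h5 := sec_word w' 1
  rw [sec_one, one_mul] at h4 h5
  rw [h4, h5, hp, mul_right_cancel h2]

lemma col_inj {C : ℕ → Subgroup (Col E)} (hC : Fil C c) (hL : Lip C) {D : Diagram m}
    (hD : IsGauss D) {s s' t : Fin m → Col E} (h : Coloring D s t) (h' : Coloring D s' t) :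
    s = s' := by
  have key : ∀ i l, (s l)⁻¹ * s' l ∈ C i := by
    intro i
    induction i with
    | zero => simp [hC.top]
    | succ i ih => exact fun l => by simpa using inv_mem (col_uni hC hL hD h h' ih l)
  exact funext fun l => inv_mul_eq_one.1 (hC.eq_one le_rfl (key c l))

lemma col_surj {C : ℕ → Subgroup (Col E)} (hC : Fil C c) (hL : Lip C) {D : Diagram m}
    (hD : IsGauss D) (t : Fin m → Col E) : ∃ s, Coloring D s t := by
  have key : ∀ i, ∃ s t', Coloring D s t' ∧ ∀ l, (t' l)⁻¹ * t l ∈ C i := by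
    intro i
    induction i with
    | zero => exact ⟨1, _, (col_ex hC hL hD 1).choose_spec, by simp [hC.top]⟩
    | succ i ih =>
      obtain ⟨s, t', h1, h2⟩ := ih
      obtain ⟨t'', h3⟩ := col_ex hC hL hD (s * (t'⁻¹ * t))
      refine ⟨_, _, h3, fun l => ?_⟩
      simpa [mul_assoc] using inv_mem (col_uni hC hL hD h1 h3 (by simpa using h2) l)
  obtain ⟨s, t', h1, h2⟩ := key c
  exact ⟨s, (funext fun l => inv_mul_eq_one.1 (hC.eq_one le_rfl (h2 l)) : t' = t) ▸ h1⟩

lemma col_stack₃ {A B C : Diagram m} (hA : IsGauss A) (hB : IsGauss B) (hC : IsGauss C)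
    (h : IsGauss fun i => A i ++ B i ++ C i) {r s t u : Fin m → Col E} (h1 : Coloring A r s)
    (h2 : Coloring B s t) (h3 : Coloring C t u) : Coloring (fun i => A i ++ B i ++ C i) r u := by
  have hAB : IsGauss fun i => A i ++ B i :=
    ⟨fun i => (h.nodup i).of_append_left, fun i j e a b =>
      h.disjoint i j e (List.mem_append_left _ a) (List.mem_append_left _ b), fun a => by
        simp only [List.mem_append, exists_or, hA.paired a, hB.paired a]⟩
  exact col_stack hAB h (col_stack hA hAB h1 h2) h3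

lemma Mz.sep_col (Q : Mz ι) {x y : Col Q.toXF} (h : x ≠ y) : ∃ (k : ℕ) (μ : Col Q.toXF → ℤ),
    (∀ f ∈ GC Q.toXF Q.N Q.c, Dg k fun S => μ (f S)) ∧ μ x ≠ μ y := by
  by_cases e : x.1 = y.1
  · obtain ⟨e, φ, a1, a2, a3⟩ := Q.sepa.two (x := x.2.1) (y := y.2.1) fun h' =>
      h (Prod.ext e (Subtype.ext h'))
    exact ⟨_, fun x => φ x.2.1, fun f hf => dg_poly Q.fil a1 hf.2, fun h => a2 (h.trans a3)⟩
  · obtain ⟨e, φ, a1, a2, a3⟩ := Q.sepa.two (x := x.1.1) (y := y.1.1) fun h' => e (Subtype.ext h')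
    exact ⟨_, fun x => φ x.1.1, fun f hf => dg_poly Q.fil a1 hf.1, fun h => a2 (h.trans a3)⟩

theorem finite_type (w w' : List (Gen n × Bool)) (hw : braidOfWord w ∈ VirtualPureBraidGroup n)
    (hw' : braidOfWord w' ∈ VirtualPureBraidGroup n) (hne : braidOfWord w ≠ braidOfWord w')
    (A C : Diagram (n + 1)) (hA : IsGauss A) (hC' : IsGauss C)
    (h : IsGauss fun i => A i ++ gaussDiagram w i ++ C i)
    (h' : IsGauss fun i => A i ++ gaussDiagram w' i ++ C i) :
    ∃ (k : ℕ) (v : VirtualStringLink (n + 1) → ℤ), IsFiniteType k v ∧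
      v (linkOf _ h) ≠ v (linkOf _ h') := by
  have h0 := fun w : List (Gen n × Bool) => coloring_diag_ex (ltrs w 1) 0 (s₀ (n + 1))
  simp only [← gaussFrom_eq] at h0
  obtain ⟨l, hl⟩ := Function.ne_iff.1
    (mt (faithful₂ w w' ((show wperm w = 1 from hw).trans (show wperm w' = 1 from hw').symm)) hne)
  have h1 := h0 w
  have h2 := h0 w'
  generalize (ltrs w 1).foldl act (s₀ (n + 1)) = t at h1 hl
  generalize (ltrs w' 1).foldl act (s₀ (n + 1)) = t' at h2 hl
  generalize s₀ (n + 1) = s at h1 h2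
  obtain ⟨Q, hQ⟩ : ∃ Q : Mz (Fin (n + 1)), Q.cm ∘ t ≠ Q.cm ∘ t' := by
    by_cases e : (t l).1 = (t' l).1
    · obtain ⟨Q, -, hQ⟩ := sepz (g := (t l).2⁻¹ * (t' l).2) fun h =>
        hl (Prod.ext e (inv_mul_eq_one.1 h))
      rw [map_mul, map_inv, Ne, inv_mul_eq_one] at hQ
      exact ⟨Q, fun h => hQ (congrArg (fun f => (f l).2.1) h)⟩
    · obtain ⟨Q, hQ, -⟩ := sepz (g := (t l).1⁻¹ * (t' l).1) fun h => e (inv_mul_eq_one.1 h)
      rw [map_mul, map_inv, Ne, inv_mul_eq_one] at hQ
      exact ⟨Q, fun h => hQ (congrArg (fun f => (f l).1.1) h)⟩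
  have hs : ∀ i x k, Q.toXF.hh x * Q.toXF.kk k ∈ Q.N i → Q.toXF.hh x ∈ Q.N i :=
    fun i x k h => Q.split i _ x.2 _ k.2 h
  have hC := fil_CF (E := Q.toXF) Q.fil
  have hL := lip_CF (E := Q.toXF) Q.fil hs
  obtain ⟨r, hr⟩ := col_surj hC hL hA (Q.cm ∘ s)
  obtain ⟨u, hu⟩ := col_ex hC hL hC' (Q.cm ∘ t)
  obtain ⟨u', hu'⟩ := col_ex hC hL hC' (Q.cm ∘ t')
  obtain ⟨j, hj⟩ := Function.ne_iff.1 fun e : u = u' => hQ (col_inj hC hL hC' hu (e ▸ hu'))
  obtain ⟨k, μ, hμ, hx⟩ := Q.sep_col hj
  choose T hT using fun (D : Diagram (n + 1)) (hD : IsGauss D) => col_ex hC hL hD r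
  refine ⟨k, Quot.lift (fun D => μ (T D.1 D.2 j)) fun D D' h => ?_, fun D hD => ?_, ?_⟩
  · rw [col_uniq hC hL D'.2 ((move_coloring D.2.wf D'.2.wf h).1 (hT _ _)) (hT _ D'.2)]
  · exact hμ _ (approx (E := Q.toXF) Q.fil hs hD (fun S => hT _ (hD.delete S.toList)) j)
  · change μ (T _ h j) ≠ μ (T _ h' j)
    rwa [col_uniq hC hL h (hT _ _) (col_stack₃ hA (isGauss_gaussDiagram w) hC' h hr (Q.col h1) hu),
      col_uniq hC hL h' (hT _ _)
        (col_stack₃ hA (isGauss_gaussDiagram w') hC' h' hr (Q.col h2) hu')]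

end Pool.Agent.MP_e4304e_gt.RP

end
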