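import Pool.Agent.MP_e4304e_gt.Defs
import Pool.Agent.Mg.Fe4304eq.G451b05

set_option linter.all false

section

/-! Invariance of colourings under Reidemeister moves. -/

namespace Pool.Agent.MP_e4304e_gt

open Equiv Function

section path

variable {X E : Type}

def Path (cin cout : E → X) : X → List E → X → Prop
  | a, [], b => a = b
  | a, x :: l, b => cin x = a ∧ Path cin cout (cout x) l b

lemma path_append {cin cout : E → X} {u v : List E} {a b : X} :
    Path cin cout a (u ++ v) b ↔ ∃ z, Path cin cout a u z ∧ Path cin cout z v b := by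
  induction u generalizing a with
  | nil => simp [Path]
  | cons x u ih => simp [Path, ih, and_assoc]

lemma path_congr {cin cout cin' cout' : E → X} {l : List E} {a b : X}
    (h : ∀ x ∈ l, cin' x = cin x ∧ cout' x = cout x) (hp : Path cin cout a l b) :
    Path cin' cout' a l b := by
  induction l generalizing a with
  | nil => exact hp
  | cons x l ih =>
    obtain ⟨h1, h2⟩ := hp
    have := h x (by simp)
    exact ⟨this.1.trans h1, this.2 ▸ ih (fun y hy => h y (by simp [hy])) h2⟩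

lemma path_map {E' : Type} {cin cout : E' → X} {l : List E} {a b : X} (π : E → E') :
    Path cin cout a (l.map π) b ↔ Path (cin ∘ π) (cout ∘ π) a l b := by
  induction l generalizing a with
  | nil => rfl
  | cons x l ih => simp [Path, ih]

end path

variable {m : ℕ} {X : Type}

def Paths (D : Diagram m) (cin cout : Endpoint → X) (s t : Fin m → X) : Prop :=
  ∀ i, Path cin cout (s i) (D i) (t i)

def WF (D : Diagram m) : Prop := (∀ i, (D i).Nodup) ∧ ∀ i j e, e ∈ D i → e ∈ D j → i = j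

lemma IsGauss.wf {D : Diagram m} (h : IsGauss D) : WF D := ⟨h.nodup, h.disjoint⟩

def Follows (D : Diagram m) (x y : Endpoint) : Prop := ∃ i u v, D i = u ++ x :: y :: v

lemma consecutive_true {D : Diagram m} {x y : Endpoint} :
    Consecutive D x y true ↔ Follows D x y := by
  simp only [Consecutive, Follows, if_true, List.IsInfix]
  refine exists_congr fun i => exists_congr fun u => exists_congr fun v => ?_
  rw [eq_comm]; simp

lemma consecutive_false {D : Diagram m} {x y : Endpoint} :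
    Consecutive D x y false ↔ Follows D y x := consecutive_true (D := D)

lemma WF.split {D : Diagram m} (h : WF D) {i : Fin m} {u v : List Endpoint} {x y : Endpoint}
    (e : D i = u ++ x :: y :: v) : x ≠ y ∧ (∀ z ∈ u, z ≠ x ∧ z ≠ y) ∧ (∀ z ∈ v, z ≠ x ∧ z ≠ y) ∧
      ∀ j, j ≠ i → ∀ z ∈ D j, z ≠ x ∧ z ≠ y := by
  have h1 := h.1 i
  rw [e] at h1
  simp only [List.nodup_append, List.nodup_cons, List.mem_cons, not_or] at h1
  obtain ⟨-, ⟨⟨a1, a2⟩, a3, -⟩, a4⟩ := h1
  refine ⟨a1, fun z hz => ⟨a4 z hz x (by simp), a4 z hz y (by simp)⟩,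
    fun z hz => ⟨fun h => a2 (h ▸ hz), fun h => a3 (h ▸ hz)⟩, fun j hj z hz => ⟨?_, ?_⟩⟩
  · rintro rfl; exact hj (h.2 j i z hz (by simp [e]))
  · rintro rfl; exact hj (h.2 j i z hz (by simp [e]))

variable {D : Diagram m} {cin cout : Endpoint → X} {s t : Fin m → X} {x y : Endpoint}

lemma Paths.mid (hD : WF D) (hf : Follows D x y) (h : Paths D cin cout s t) :
    cout x = cin y ∧ ∀ z, Paths D (update cin y z) (update cout x z) s t := by
  obtain ⟨i, u, v, e⟩ := hf
  obtain ⟨a1, a2, a3, a4⟩ := hD.split e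
  have hi := h i
  rw [e, path_append] at hi
  obtain ⟨w, p1, p2, p3, p4⟩ := hi
  refine ⟨p3.symm, fun z j => ?_⟩
  by_cases hj : j = i
  · rw [hj, e, path_append]
    refine ⟨w, path_congr (fun q hq => ?_) p1, ?_, ?_, ?_⟩
    · simp [(a2 q hq).1, (a2 q hq).2]
    · simp [a1, p2]
    · simp
    · rw [update_of_ne a1.symm]
      refine path_congr (fun q hq => ?_) p4
      simp [(a3 q hq).1, (a3 q hq).2]
  · refine path_congr (fun q hq => ?_) (h j)
    simp [(a4 j hj q hq).1, (a4 j hj q hq).2]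

def er (D : Diagram m) (x y : Endpoint) : Diagram m :=
  fun i => (D i).filter fun e => e ≠ x ∧ e ≠ y

lemma er_comm (D : Diagram m) (x y : Endpoint) : er D x y = er D y x := by
  funext i; simp [er, and_comm]

lemma er_spec (hD : WF D) {i : Fin m} {u v : List Endpoint} (e : D i = u ++ x :: y :: v) :
    er D x y i = u ++ v ∧ ∀ j, j ≠ i → er D x y j = D j := by
  obtain ⟨a1, a2, a3, a4⟩ := hD.split e
  constructor
  · rw [er, e, List.filter_append, List.filter_cons_of_neg (by simp),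
      List.filter_cons_of_neg (by simp), List.filter_eq_self.2 (by simpa using a2),
      List.filter_eq_self.2 (by simpa using a3)]
  · intro j hj
    rw [er, List.filter_eq_self.2 (by simpa using a4 j hj)]

lemma WF.er (hD : WF D) (x y : Endpoint) : WF (er D x y) :=
  ⟨fun i => (hD.1 i).filter _, fun i j e h1 h2 =>
    hD.2 i j e (List.mem_of_mem_filter h1) (List.mem_of_mem_filter h2)⟩

lemma Follows.er {x' y' : Endpoint} (h : Follows D x' y') (h1 : x' ≠ x ∧ x' ≠ y)
    (h2 : y' ≠ x ∧ y' ≠ y) : Follows (er D x y) x' y' := by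
  obtain ⟨i, u, v, e⟩ := h
  refine ⟨i, u.filter fun e => e ≠ x ∧ e ≠ y, v.filter fun e => e ≠ x ∧ e ≠ y, ?_⟩
  rw [Pool.Agent.MP_e4304e_gt.er, e, List.filter_append, List.filter_cons_of_pos (by simpa using h1),
    List.filter_cons_of_pos (by simpa using h2)]

lemma Paths.erase (hD : WF D) (hf : Follows D x y) (h : Paths D cin cout s t)
    (hxy : cin x = cout y) : Paths (er D x y) cin cout s t := by
  obtain ⟨i, u, v, e⟩ := hf
  obtain ⟨b1, b2⟩ := er_spec hD e
  intro j
  by_cases hj : j = i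
  · have hi := h i
    rw [e, path_append] at hi
    obtain ⟨w, p1, p2, p3, p4⟩ := hi
    rw [hj, b1, path_append]
    exact ⟨w, p1, by rwa [← p2, hxy]⟩
  · rw [b2 j hj]; exact h j

lemma Paths.create (hD : WF D) (hf : Follows D x y) (h : Paths (er D x y) cin cout s t) :
    ∃ z, ∀ w, Paths D (update (update cin x z) y w) (update (update cout y z) x w) s t := by
  obtain ⟨i, u, v, e⟩ := hf
  obtain ⟨a1, a2, a3, a4⟩ := hD.split e
  obtain ⟨b1, b2⟩ := er_spec hD e
  have hi := h i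
  rw [b1, path_append] at hi
  obtain ⟨z, p1, p2⟩ := hi
  refine ⟨z, fun w j => ?_⟩
  by_cases hj : j = i
  · rw [hj, e, path_append]
    refine ⟨z, path_congr (fun q hq => ?_) p1, ?_, ?_, ?_⟩
    · simp [(a2 q hq).1, (a2 q hq).2]
    · simp [a1]
    · simp
    · rw [update_of_ne a1.symm, update_self]
      refine path_congr (fun q hq => ?_) p2
      simp [(a3 q hq).1, (a3 q hq).2]
  · have := h j
    rw [b2 j hj] at this
    refine path_congr (fun q hq => ?_) this
    simp [(a4 j hj q hq).1, (a4 j hj q hq).2]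

variable {ι : Type}

def Crs (cin cout : Endpoint → Col ι) : Prop :=
  ∀ a : Arrow, Cr a.2 (cin (overAt a)) (cin (underAt a)) (cout (overAt a)) (cout (underAt a))

/-- The diagram has a colouring with incoming colours `s` and outgoing colours `t`. -/
def Coloring (D : Diagram m) (s t : Fin m → Col ι) : Prop :=
  ∃ cin cout, Crs cin cout ∧ Paths D cin cout s t

lemma cr_one (e : Bool) : Cr e (1 : Col ι) 1 1 1 := by
  cases e <;> simp [PosCr]

@[simp] lemma over_inj {a b : Arrow} : overAt a = overAt b ↔ a = b := by simp [overAt]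
@[simp] lemma under_inj {a b : Arrow} : underAt a = underAt b ↔ a = b := by simp [underAt]
@[simp] lemma over_ne_under {a b : Arrow} : overAt a ≠ underAt b := by simp [overAt, underAt]
@[simp] lemma under_ne_over {a b : Arrow} : underAt a ≠ overAt b := by simp [overAt, underAt]

variable {s t : Fin m → Col ι}

lemma col_rename {f : Arrow → Arrow} (inj : Injective f) (sign : ∀ a, (f a).2 = a.2) :
    Coloring D s t ↔ Coloring (fun i => (D i).map (Prod.map f id)) s t := by
  have inj' : Injective (Prod.map f (id : Bool → Bool)) := inj.prodMap injective_id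
  constructor
  · rintro ⟨cin, cout, h1, h2⟩
    refine ⟨extend (Prod.map f id) cin 1, extend (Prod.map f id) cout 1, fun a => ?_, fun i => ?_⟩
    · by_cases ha : ∃ b, f b = a
      · obtain ⟨b, rfl⟩ := ha
        have e1 : overAt (f b) = Prod.map f id (overAt b) := rfl
        have e2 : underAt (f b) = Prod.map f id (underAt b) := rfl
        rw [e1, e2, inj'.extend_apply, inj'.extend_apply, inj'.extend_apply, inj'.extend_apply,
          sign]
        exact h1 b
      · have n : ∀ e : Bool, ¬ ∃ z, Prod.map f id z = (a, e) := by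
          rintro e ⟨z, hz⟩
          exact ha ⟨z.1, congrArg Prod.fst hz⟩
        rw [overAt, underAt, extend_apply' _ _ _ (n _), extend_apply' _ _ _ (n _),
          extend_apply' _ _ _ (n _), extend_apply' _ _ _ (n _)]
        exact cr_one _
    · rw [path_map, extend_comp inj', extend_comp inj']
      exact h2 i
  · rintro ⟨cin, cout, h1, h2⟩
    refine ⟨cin ∘ Prod.map f id, cout ∘ Prod.map f id, fun a => ?_, fun i => ?_⟩
    · have := h1 (f a)
      rw [sign] at this
      exact this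
    · rw [← path_map]; exact h2 i

lemma delete_one (D : Diagram m) (a : Arrow) : delete D [a] = er D (overAt a) (underAt a) := by
  funext i
  refine List.filter_congr fun e _ => ?_
  obtain ⟨b, e⟩ := e
  cases e <;> simp [overAt, underAt]

lemma delete_two (D : Diagram m) (a b : Arrow) :
    delete D [a, b] = er (er D (overAt a) (overAt b)) (underAt a) (underAt b) := by
  funext i
  simp only [delete, er, List.filter_filter]
  refine List.filter_congr fun e _ => ?_
  obtain ⟨c, e⟩ := e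
  cases e <;> simp [overAt, underAt]

lemma delete_two_comm (D : Diagram m) (a b : Arrow) : delete D [a, b] = delete D [b, a] := by
  funext i
  refine List.filter_congr fun e _ => ?_
  simp [and_comm]

lemma col_R1 (hD : WF D) {a : Arrow} {o : Bool} (adj : Consecutive D (overAt a) (underAt a) o) :
    Coloring D s t ↔ Coloring (delete D [a]) s t := by
  rw [delete_one]
  cases o
  · rw [consecutive_false] at adj
    rw [er_comm]
    constructor
    · rintro ⟨cin, cout, h1, h2⟩
      refine ⟨cin, cout, h1, h2.erase hD adj ?_⟩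
      have := h1 a
      rw [(h2.mid hD adj).1] at this
      exact this.kink_uo
    · rintro ⟨cin, cout, h1, h2⟩
      obtain ⟨z, hz⟩ := h2.create hD adj
      obtain ⟨w, hw⟩ := kink_uo_ex a.2 z
      refine ⟨_, _, fun b => ?_, hz w⟩
      by_cases hb : b = a
      · subst hb; simpa using hw
      · simpa [hb] using h1 b
  · rw [consecutive_true] at adj
    constructor
    · rintro ⟨cin, cout, h1, h2⟩
      refine ⟨cin, cout, h1, h2.erase hD adj ?_⟩
      have := h1 a
      rw [(h2.mid hD adj).1] at this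
      exact this.kink_ou
    · rintro ⟨cin, cout, h1, h2⟩
      obtain ⟨z, hz⟩ := h2.create hD adj
      obtain ⟨w, hw⟩ := kink_ou_ex a.2 z
      refine ⟨_, _, fun b => ?_, hz w⟩
      by_cases hb : b = a
      · subst hb; simpa using hw
      · simpa [hb] using h1 b

lemma col_R2_aux (hD : WF D) {a b : Arrow} {o' : Bool} (sign : a.2 ≠ b.2)
    (ho : Follows D (overAt a) (overAt b)) (hu : Consecutive D (underAt a) (underAt b) o') :
    Coloring D s t ↔ Coloring (delete D [a, b]) s t := by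
  have hab : a ≠ b := fun h => sign (h ▸ rfl)
  have hb2 : b.2 = !a.2 := Bool.eq_not_iff.2 sign.symm
  have hD' := hD.er (overAt a) (overAt b)
  rw [delete_two]
  cases o'
  · rw [consecutive_false] at hu
    have hu' : Follows (er D (overAt a) (overAt b)) (underAt b) (underAt a) := hu.er (by simp) (by simp)
    rw [er_comm]
    constructor
    · rintro ⟨cin, cout, h1, h2⟩
      have c1 := (Cr_not _ _ _ _ _).2 (h1 a)
      have c2 := h1 b
      rw [hb2, ← (h2.mid hD ho).1, (h2.mid hD hu).1] at c2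
      have := c1.uniq_side c2
      exact ⟨cin, cout, h1, (h2.erase hD ho this.2).erase hD' hu' this.1.symm⟩
    · rintro ⟨cin, cout, h1, h2⟩
      obtain ⟨z2, hz2⟩ := h2.create hD' hu'
      obtain ⟨z1, hz1⟩ := (hz2 1).create hD ho
      obtain ⟨u1, t1, hw⟩ := cr_ex_side a.2 z1 z2
      refine ⟨_, _, fun c => ?_, ((hz1 t1).mid hD hu).2 u1⟩
      by_cases hc : c = a
      · subst hc; simpa [hab] using hw
      by_cases hc' : c = b
      · subst hc'
        rw [hb2, Cr_not]
        simpa [hc] using hw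
      · simpa [hc, hc'] using h1 c
  · rw [consecutive_true] at hu
    have hu' : Follows (er D (overAt a) (overAt b)) (underAt a) (underAt b) := hu.er (by simp) (by simp)
    constructor
    · rintro ⟨cin, cout, h1, h2⟩
      have c1 := (Cr_not _ _ _ _ _).2 (h1 a)
      have c2 := h1 b
      rw [hb2, ← (h2.mid hD ho).1, ← (h2.mid hD hu).1] at c2
      have := c1.uniq c2
      exact ⟨cin, cout, h1, (h2.erase hD ho this.1).erase hD' hu' this.2⟩
    · rintro ⟨cin, cout, h1, h2⟩
      obtain ⟨z2, hz2⟩ := h2.create hD' hu'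
      obtain ⟨z1, hz1⟩ := (hz2 1).create hD ho
      obtain ⟨t1, u1, hw⟩ := cr_ex a.2 z1 z2
      refine ⟨_, _, fun c => ?_, ((hz1 t1).mid hD hu).2 u1⟩
      by_cases hc : c = a
      · subst hc; simpa [hab] using hw
      by_cases hc' : c = b
      · subst hc'
        rw [hb2, Cr_not]
        simpa [hc] using hw
      · simpa [hc, hc'] using h1 c

lemma consecutive_swap {o : Bool} (h : Consecutive D x y o) : Consecutive D y x (!o) := by
  cases o <;> exact h

lemma col_R2 (hD : WF D) {a b : Arrow} {o o' : Bool} (sign : a.2 ≠ b.2)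
    (ho : Consecutive D (overAt a) (overAt b) o) (hu : Consecutive D (underAt a) (underAt b) o') :
    Coloring D s t ↔ Coloring (delete D [a, b]) s t := by
  cases o
  · rw [delete_two_comm]
    exact col_R2_aux hD sign.symm (consecutive_false.1 ho) (consecutive_swap hu)
  · exact col_R2_aux hD sign (consecutive_true.1 ho) hu

lemma Paths.mid' {cin cout : Endpoint → X} {s t : Fin m → X} (hD : WF D) {o : Bool}
    (hf : Consecutive D x y o) (h : Paths D cin cout s t) :
    cout (if o then x else y) = cin (if o then y else x) ∧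
      ∀ z, Paths D (update cin (if o then y else x) z) (update cout (if o then x else y) z) s t := by
  cases o
  · exact h.mid hD (consecutive_false.1 hf)
  · exact h.mid hD (consecutive_true.1 hf)

/-- The permutation of endpoints in a third move. -/
def sw3 (a b c : Arrow) : Perm Endpoint :=
  swap (overAt a) (overAt b) * swap (underAt a) (overAt c) * swap (underAt b) (underAt c)

lemma sw3_val {a b c : Arrow} (ab : a ≠ b) (ac : a ≠ c) (bc : b ≠ c) :
    sw3 a b c (overAt a) = overAt b ∧ sw3 a b c (overAt b) = overAt a ∧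
    sw3 a b c (underAt a) = overAt c ∧ sw3 a b c (overAt c) = underAt a ∧
    sw3 a b c (underAt b) = underAt c ∧ sw3 a b c (underAt c) = underAt b ∧
    ∀ d, d ≠ a → d ≠ b → d ≠ c → sw3 a b c (overAt d) = overAt d ∧ sw3 a b c (underAt d) = underAt d := by
  refine ⟨?_, ?_, ?_, ?_, ?_, ?_, fun d h1 h2 h3 => ⟨?_, ?_⟩⟩ <;>
    simp [sw3, swap_apply_def, ab.symm, ac.symm, bc.symm, *]

lemma sw3_sw3 {a b c : Arrow} (ab : a ≠ b) (ac : a ≠ c) (bc : b ≠ c) (e : Endpoint) :
    sw3 a b c (sw3 a b c e) = e := by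
  obtain ⟨h1, h2, h3, h4, h5, h6, h7⟩ := sw3_val ab ac bc
  obtain ⟨d, o⟩ := e
  by_cases c1 : d = a
  · subst c1
    cases o
    · exact (congrArg _ h3).trans h4
    · exact (congrArg _ h1).trans h2
  by_cases c2 : d = b
  · subst c2
    cases o
    · exact (congrArg _ h5).trans h6
    · exact (congrArg _ h2).trans h1
  by_cases c3 : d = c
  · subst c3
    cases o
    · exact (congrArg _ h6).trans h5
    · exact (congrArg _ h4).trans h3
  have := h7 d c1 c2 c3
  cases o
  · exact (congrArg _ this.2).trans this.2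
  · exact (congrArg _ this.1).trans this.1

lemma col_R3_fwd (hD : WF D) {a b c : Arrow} {oT oM oB : Bool} (ab : a ≠ b) (ac : a ≠ c)
    (bc : b ≠ c) (top : Consecutive D (overAt a) (overAt b) oT)
    (middle : Consecutive D (underAt a) (overAt c) oM) (bottom : Consecutive D (underAt b) (underAt c) oB)
    (sign₁ : a.2 = b.2 ↔ oM = oB) (sign₂ : b.2 = c.2 ↔ oT = oM) (h : Coloring D s t) :
    Coloring (fun i => (D i).map (sw3 a b c)) s t := by
  obtain ⟨cin, cout, h1, h2⟩ := h
  obtain ⟨v1, v2, v3, v4, v5, v6, v7⟩ := sw3_val ab ac bc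
  have m1 := (h2.mid' hD top).1
  have m2 := (h2.mid' hD middle).1
  have m3 := (h2.mid' hD bottom).1
  obtain ⟨t1, m1', b1, g1, g2, g3⟩ := r3_all (ι := ι) sign₁ sign₂
    (cin (if oT then overAt a else overAt b)) (cin (if oT then overAt b else overAt a))
    (cout (if oT then overAt b else overAt a))
    (cin (if oM then underAt a else overAt c)) (cin (if oM then overAt c else underAt a))
    (cout (if oM then overAt c else underAt a))
    (cin (if oB then underAt b else underAt c)) (cin (if oB then underAt c else underAt b))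
    (cout (if oB then underAt c else underAt b))
    (by have := h1 a; cases oT <;> cases oM <;> simp_all)
    (by have := h1 b; cases oT <;> cases oB <;> simp_all)
    (by have := h1 c; cases oM <;> cases oB <;> simp_all)
  have p := ((((h2.mid' hD top).2 t1).mid' hD middle).2 m1').mid' hD bottom |>.2 b1
  have key : ∀ cin cout : Endpoint → Col ι, Paths D cin cout s t →
      Paths (fun i => (D i).map (sw3 a b c)) (cin ∘ sw3 a b c) (cout ∘ sw3 a b c) s t := by
    intro cin cout p i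
    rw [path_map]
    refine path_congr (fun q _ => ?_) (p i)
    simp only [comp_apply, sw3_sw3 ab ac bc, and_self]
  refine ⟨_, _, fun d => ?_, key _ _ p⟩
  · simp only [comp_apply]
    by_cases c1 : d = a
    · subst c1
      rw [v1, v3]
      cases oT <;> cases oM <;> cases oB <;>
        simpa [ab, ac, bc, ab.symm, ac.symm, bc.symm] using g1
    by_cases c2 : d = b
    · subst c2
      rw [v2, v5]
      cases oT <;> cases oM <;> cases oB <;>
        simpa [ab, ac, bc, ab.symm, ac.symm, bc.symm] using g2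
    by_cases c3 : d = c
    · subst c3
      rw [v4, v6]
      cases oT <;> cases oM <;> cases oB <;>
        simpa [ab, ac, bc, ab.symm, ac.symm, bc.symm] using g3
    rw [(v7 d c1 c2 c3).1, (v7 d c1 c2 c3).2]
    cases oT <;> cases oM <;> cases oB <;> simpa [c1, c2, c3] using h1 d

lemma Consecutive.map {o : Bool} (h : Consecutive D x y o) (π : Endpoint → Endpoint) :
    Consecutive (fun i => (D i).map π) (π x) (π y) o := by
  obtain ⟨i, h⟩ := h
  refine ⟨i, ?_⟩
  have := h.map π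
  cases o <;> simpa using this

lemma Move.coloring {D D' : Diagram m} (hD : WF D) (hD' : WF D') (h : Move D D') :
    Coloring D s t ↔ Coloring D' s t := by
  cases h with
  | rename f inj sign => exact col_rename inj sign
  | R1 a o adj => exact col_R1 hD adj
  | R2 a b o o' sign h1 h2 => exact col_R2 hD sign h1 h2
  | R3 a b c oT oM oB ab ac bc top middle bottom s1 s2 =>
    refine ⟨col_R3_fwd hD ab ac bc top middle bottom s1 s2, fun h => ?_⟩
    obtain ⟨v1, v2, v3, v4, v5, v6, -⟩ := sw3_val ab ac bc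
    have top' := consecutive_swap (top.map (sw3 a b c))
    have middle' := consecutive_swap (middle.map (sw3 a b c))
    have bottom' := consecutive_swap (bottom.map (sw3 a b c))
    rw [v1, v2] at top'
    rw [v3, v4] at middle'
    rw [v5, v6] at bottom'
    have := col_R3_fwd hD' ab ac bc top' middle' bottom' (by simpa using s1) (by simpa using s2) h
    have e : (fun i => ((D i).map (sw3 a b c)).map (sw3 a b c)) = D := by
      funext i
      rw [List.map_map]
      exact (List.map_congr_left fun q _ => sw3_sw3 ab ac bc q).trans (List.map_id _)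
    exact e ▸ this

/-- Two Gauss diagrams represent the same virtual string link. -/
def ReidemeisterEquiv {m : ℕ} : Diagram m → Diagram m → Prop :=
  Relation.EqvGen fun D D' => IsGauss D ∧ IsGauss D' ∧ Move D D'

theorem ReidemeisterEquiv.coloring {D D' : Diagram m} (h : ReidemeisterEquiv D D') :
    Coloring D s t ↔ Coloring D' s t := by
  induction h with
  | rel _ _ h => exact h.2.2.coloring h.1.wf h.2.1.wf
  | refl => rfl
  | symm _ _ _ ih => exact ih.symm
  | trans _ _ _ _ _ ih1 ih2 => exact ih1.trans ih2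

end Pool.Agent.MP_e4304e_gt

end

section

/-! The biquandle of an arbitrary exactly factorised group, and invariance of its colourings. -/

namespace Pool.Agent.MP_e4304e_gt.RP

open Equiv Function

/-- An exact factorisation of a group. -/
structure XF where
  G : Type
  H : Type
  K : Type
  [gG : Group G]
  [gH : Group H]
  [gK : Group K]
  hh : H →* G
  kk : K →* G
  fact : ∀ g, ∃ k h, g = kk k * hh h
  exact : ∀ k h, kk k = hh h → k = 1 ∧ h = 1

attribute [instance] XF.gG XF.gH XF.gK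

variable {E : XF}

/-- Colours. -/
abbrev Col (E : XF) := E.H × E.K

lemma fact_HK (g : E.G) : ∃ h k, g = E.hh h * E.kk k := by
  obtain ⟨k, h, e⟩ := E.fact g⁻¹
  exact ⟨h⁻¹, k⁻¹, by rw [map_inv, map_inv, ← mul_inv_rev, ← e, inv_inv]⟩

lemma uniq_HK {h h' : E.H} {k k' : E.K} (e : (E.hh h * E.kk k : E.G) = E.hh h' * E.kk k') :
    h = h' ∧ k = k' := by
  have : (E.kk (k * k'⁻¹) : E.G) = E.hh (h⁻¹ * h') := by
    rw [map_mul, map_mul, map_inv, map_inv, eq_inv_mul_iff_mul_eq, ← mul_assoc, e]; group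
  obtain ⟨e1, e2⟩ := E.exact _ _ this
  exact ⟨inv_mul_eq_one.1 e2, mul_inv_eq_one.1 e1⟩

lemma uniq_KH {h h' : E.H} {k k' : E.K} (e : (E.kk k * E.hh h : E.G) = E.kk k' * E.hh h') :
    h = h' ∧ k = k' := by
  have : (E.hh h⁻¹ * E.kk k⁻¹ : E.G) = E.hh h'⁻¹ * E.kk k'⁻¹ := by
    simp only [map_inv, ← mul_inv_rev, e]
  simpa using uniq_HK this

/-- The colouring rule at a positive crossing: incoming over and under colours `o`, `u`,
outgoing colours `o'`, `u'`. -/
def PosCr (o u o' u' : Col E) : Prop :=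
  o.1 * u.1 = u'.1 * o'.1 ∧ o.2 * u.2 = u'.2 * o'.2 ∧
    (E.kk o.2 * E.hh u.1 : E.G) = E.hh u'.1 * E.kk o'.2

def Cr (e : Bool) (o u o' u' : Col E) : Prop :=
  if e then PosCr o u o' u' else PosCr o' u' o u

@[simp] lemma Cr_true (o u o' u' : Col E) : Cr true o u o' u' ↔ PosCr o u o' u' := Iff.rfl
@[simp] lemma Cr_false (o u o' u' : Col E) : Cr false o u o' u' ↔ PosCr o' u' o u := Iff.rfl

lemma Cr_not (e : Bool) (o u o' u' : Col E) : Cr (!e) o u o' u' ↔ Cr e o' u' o u := by
  cases e <;> rfl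

def rev (x : Col E) : Col E := (x.1⁻¹, x.2⁻¹)

@[simp] lemma rev_rev (x : Col E) : rev (rev x) = x := by simp [rev]

lemma rev_inj {x y : Col E} (h : rev x = rev y) : x = y := by
  rw [← rev_rev x, h, rev_rev]

lemma PosCr.rev_over {o u o' u' : Col E} (h : PosCr o u o' u') : PosCr (rev o) u' (rev o') u := by
  obtain ⟨h1, h2, h3⟩ := h
  refine ⟨?_, ?_, ?_⟩ <;> simp only [rev, map_inv] <;>
    rw [inv_mul_eq_iff_eq_mul, ← mul_assoc, eq_mul_inv_iff_mul_eq]
  · exact h1.symm
  · exact h2.symm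
  · exact h3.symm

lemma PosCr.rev_under {o u o' u' : Col E} (h : PosCr o u o' u') :
    PosCr o' (rev u) o (rev u') := by
  obtain ⟨h1, h2, h3⟩ := h
  refine ⟨?_, ?_, ?_⟩ <;> simp only [rev, map_inv] <;>
    rw [mul_inv_eq_iff_eq_mul, mul_assoc, eq_inv_mul_iff_mul_eq]
  · exact h1.symm
  · exact h2.symm
  · exact h3.symm

lemma Cr.rev_over {e : Bool} {o u o' u' : Col E} (h : Cr e o u o' u') :
    Cr (!e) (rev o') u (rev o) u' := by
  cases e
  · exact PosCr.rev_over h
  · exact PosCr.rev_over h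

lemma Cr.rev_under {e : Bool} {o u o' u' : Col E} (h : Cr e o u o' u') :
    Cr (!e) o (rev u') o' (rev u) := by
  cases e
  · exact PosCr.rev_under h
  · exact PosCr.rev_under h

lemma Cr.mirror {e : Bool} {o u o' u' : Col E} (h : Cr e o u o' u') :
    Cr (!e) (rev o) (rev u) (rev o') (rev u') := by
  have := h.rev_over.rev_under
  rw [Bool.not_not] at this
  exact (Cr_not _ _ _ _ _).2 this

lemma posCr_ex (o u : Col E) : ∃ o' u', PosCr o u o' u' := by
  obtain ⟨h, k, e⟩ := fact_HK (E.kk o.2 * E.hh u.1 : E.G)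
  exact ⟨(h⁻¹ * o.1 * u.1, k), (h, o.2 * u.2 * k⁻¹), by group, by group, e⟩

lemma PosCr.uniq {o u o' u' o'' u'' : Col E} (h : PosCr o u o' u') (h' : PosCr o u o'' u'') :
    o' = o'' ∧ u' = u'' := by
  obtain ⟨h1, h2, h3⟩ := h
  obtain ⟨h1', h2', h3'⟩ := h'
  obtain ⟨e1, e2⟩ := uniq_HK (h3.symm.trans h3')
  rw [h1, e1] at h1'
  rw [h2, e2] at h2'
  exact ⟨Prod.ext (mul_left_cancel h1') e2, Prod.ext e1 (mul_right_cancel h2')⟩

lemma cr_ex (e : Bool) (o u : Col E) : ∃ o' u', Cr e o u o' u' := by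
  cases e
  · obtain ⟨o', u', h⟩ := posCr_ex (rev o) (rev u)
    refine ⟨rev o', rev u', ?_⟩
    have := Cr.mirror (e := true) h
    simpa using this
  · exact posCr_ex o u

lemma Cr.uniq {e : Bool} {o u o' u' o'' u'' : Col E} (h : Cr e o u o' u')
    (h' : Cr e o u o'' u'') : o' = o'' ∧ u' = u'' := by
  cases e
  · have := PosCr.uniq h.mirror h'.mirror
    exact ⟨rev_inj this.1, rev_inj this.2⟩
  · exact PosCr.uniq h h'

/-- sideways existence -/
lemma cr_ex_side (e : Bool) (o u' : Col E) : ∃ u o', Cr e o u o' u' := by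
  obtain ⟨o', u, h⟩ := cr_ex (!e) o (rev u')
  exact ⟨rev u, o', by simpa using h.rev_under⟩

lemma Cr.uniq_side {e : Bool} {o u o' u' u₂ o₂ : Col E} (h : Cr e o u o' u')
    (h' : Cr e o u₂ o₂ u') : u = u₂ ∧ o' = o₂ := by
  have := h.rev_under.uniq h'.rev_under
  exact ⟨rev_inj this.2, this.1⟩

lemma Cr.kink_ou {e : Bool} {x m y : Col E} (h : Cr e x m m y) : x = y := by
  cases e
  · obtain ⟨h1, h2, -⟩ := h
    exact Prod.ext (mul_left_cancel h1).symm (mul_left_cancel h2).symm
  · obtain ⟨h1, h2, -⟩ := h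
    exact Prod.ext (mul_right_cancel h1) (mul_right_cancel h2)

lemma Cr.kink_uo {e : Bool} {x m y : Col E} (h : Cr e m x y m) : x = y :=
  (Cr.kink_ou (e := !e) ((Cr_not _ _ _ _ _).2 h)).symm

lemma kink_ou_ex (e : Bool) (x : Col E) : ∃ m, Cr e x m m x := by
  cases e
  · obtain ⟨h, k, e⟩ := fact_HK (E.kk x.2 * (E.hh x.1)⁻¹ : E.G)
    refine ⟨(h⁻¹, k), rfl, rfl, ?_⟩
    simp only [map_inv]
    rw [eq_inv_mul_iff_mul_eq, ← mul_assoc, ← e]; group
  · obtain ⟨k, h, e⟩ := E.fact ((E.hh x.1)⁻¹ * E.kk x.2 : E.G)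
    refine ⟨(h⁻¹, k), rfl, rfl, ?_⟩
    simp only [map_inv]
    rw [mul_inv_eq_iff_eq_mul, mul_assoc, ← e]; group

lemma kink_uo_ex (e : Bool) (x : Col E) : ∃ m, Cr e m x x m := by
  obtain ⟨m, h⟩ := kink_ou_ex (!e) x
  exact ⟨m, (Cr_not _ _ _ _ _).1 h⟩

lemma ybe_eq {t0 m0 b0 t1 m1 b1 t2 m2 b2 t1' m1' b1' t2' m2' b2' : Col E}
    (h1 : PosCr t0 m0 t1 m1) (h2 : PosCr t1 b0 t2 b1) (h3 : PosCr m1 b1 m2 b2)
    (g1 : PosCr m0 b0 m1' b1') (g2 : PosCr t0 b1' t1' b2') (g3 : PosCr t1' m1' t2' m2') :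
    t2 = t2' ∧ m2 = m2' ∧ b2 = b2' := by
  obtain ⟨a1, a2, a3⟩ := h1
  obtain ⟨b1a, b2a, b3⟩ := h2
  obtain ⟨c1, c2, c3⟩ := h3
  obtain ⟨d1, d2, d3⟩ := g1
  obtain ⟨e1, e2, e3⟩ := g2
  obtain ⟨f1, f2, f3⟩ := g3
  have A : (E.hh b2.1 * E.kk (m2.2 * t2.2) : E.G) = E.hh b2'.1 * E.kk (m2'.2 * t2'.2) := by
    have l : (E.kk t0.2 * E.kk m0.2 * E.hh b0.1 : E.G) = E.hh b2.1 * E.kk (m2.2 * t2.2) := by
      rw [← map_mul, a2, map_mul, mul_assoc, b3, ← mul_assoc, c3, map_mul, mul_assoc]
    have r : (E.kk t0.2 * E.kk m0.2 * E.hh b0.1 : E.G) = E.hh b2'.1 * E.kk (m2'.2 * t2'.2) := by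
      rw [mul_assoc, d3, ← mul_assoc, e3, mul_assoc, ← map_mul, f2]
    exact l.symm.trans r
  have B : (E.hh (b2.1 * m2.1) * E.kk t2.2 : E.G) = E.hh (b2'.1 * m2'.1) * E.kk t2'.2 := by
    have l : (E.kk t0.2 * E.hh m0.1 * E.hh b0.1 : E.G) = E.hh (b2.1 * m2.1) * E.kk t2.2 := by
      rw [a3, mul_assoc, b3, ← mul_assoc, ← map_mul, c1]
    have r : (E.kk t0.2 * E.hh m0.1 * E.hh b0.1 : E.G) = E.hh (b2'.1 * m2'.1) * E.kk t2'.2 := by
      rw [mul_assoc, ← map_mul, d1, map_mul, ← mul_assoc, e3, mul_assoc, f3, map_mul, mul_assoc]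
    exact l.symm.trans r
  obtain ⟨A1, A2⟩ := uniq_HK A
  obtain ⟨B1, B2⟩ := uniq_HK B
  rw [A1] at B1
  rw [B2] at A2
  have M1 := mul_left_cancel B1
  have M2 := mul_right_cancel A2
  have C : b2.1 * m2.1 * t2.1 = b2'.1 * m2'.1 * t2'.1 := by
    have l : t0.1 * m0.1 * b0.1 = b2.1 * m2.1 * t2.1 := by
      rw [a1, mul_assoc, b1a, ← mul_assoc, c1]
    have r : t0.1 * m0.1 * b0.1 = b2'.1 * m2'.1 * t2'.1 := by
      rw [mul_assoc, d1, ← mul_assoc, e1, mul_assoc, f1, mul_assoc]
    exact l.symm.trans r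
  have D : b2.2 * (m2.2 * t2.2) = b2'.2 * (m2'.2 * t2'.2) := by
    have l : t0.2 * m0.2 * b0.2 = b2.2 * (m2.2 * t2.2) := by
      rw [a2, mul_assoc, b2a, ← mul_assoc, c2, mul_assoc]
    have r : t0.2 * m0.2 * b0.2 = b2'.2 * (m2'.2 * t2'.2) := by
      rw [mul_assoc, d2, ← mul_assoc, e2, mul_assoc, f2]
    exact l.symm.trans r
  rw [A1, M1] at C
  rw [M2, B2] at D
  exact ⟨Prod.ext (mul_left_cancel C) B2, Prod.ext M1 M2, Prod.ext A1 (mul_right_cancel D)⟩

/-- The colourings of a triangle before the third move extend to colourings after it. -/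
def R3Prop (E : XF) (ea eb ec oT oM oB : Bool) : Prop :=
  ∀ t0 t1 t2 m0 m1 m2 b0 b1 b2 : Col E,
    Cr ea (if oT then t0 else t1) (if oM then m0 else m1)
      (if oT then t1 else t2) (if oM then m1 else m2) →
    Cr eb (if oT then t1 else t0) (if oB then b0 else b1)
      (if oT then t2 else t1) (if oB then b1 else b2) →
    Cr ec (if oM then m1 else m0) (if oB then b1 else b0)
      (if oM then m2 else m1) (if oB then b2 else b1) →
    ∃ t1 m1 b1 : Col E,
    Cr ea (if oT then t1 else t0) (if oM then m1 else m0)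
      (if oT then t2 else t1) (if oM then m2 else m1) ∧
    Cr eb (if oT then t0 else t1) (if oB then b1 else b0)
      (if oT then t1 else t2) (if oB then b2 else b1) ∧
    Cr ec (if oM then m0 else m1) (if oB then b0 else b1)
      (if oM then m1 else m2) (if oB then b1 else b2)

lemma r3_pos : R3Prop E true true true true true true := by
  intro t0 t1 t2 m0 m1 m2 b0 b1 b2 h1 h2 h3
  simp only [if_true, Cr_true] at *
  obtain ⟨m1', b1', g1⟩ := posCr_ex m0 b0
  obtain ⟨t1', b2', g2⟩ := posCr_ex t0 b1'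
  obtain ⟨t2', m2', g3⟩ := posCr_ex t1' m1'
  obtain ⟨rfl, rfl, rfl⟩ := ybe_eq h1 h2 h3 g1 g2 g3
  exact ⟨t1', m1', b1', g3, g2, g1⟩

lemma R3Prop.mirror {ea eb ec oT oM oB : Bool} (h : R3Prop E ea eb ec oT oM oB) :
    R3Prop E (!ea) (!eb) (!ec) oT oM oB := by
  intro t0 t1 t2 m0 m1 m2 b0 b1 b2 h1 h2 h3
  obtain ⟨t, m, b, g1, g2, g3⟩ := h (rev t0) (rev t1) (rev t2) (rev m0) (rev m1) (rev m2)
    (rev b0) (rev b1) (rev b2)
    (by have := h1.mirror; simpa [apply_ite rev] using this)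
    (by have := h2.mirror; simpa [apply_ite rev] using this)
    (by have := h3.mirror; simpa [apply_ite rev] using this)
  refine ⟨rev t, rev m, rev b, ?_, ?_, ?_⟩
  · have := g1.mirror; simpa [apply_ite rev] using this
  · have := g2.mirror; simpa [apply_ite rev] using this
  · have := g3.mirror; simpa [apply_ite rev] using this

lemma R3Prop.flipT {ea eb ec oM oB : Bool} (h : R3Prop E ea eb ec true oM oB) :
    R3Prop E (!ea) (!eb) ec false oM oB := by
  intro t0 t1 t2 m0 m1 m2 b0 b1 b2 h1 h2 h3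
  obtain ⟨t, m, b, g1, g2, g3⟩ := h (rev t2) (rev t1) (rev t0) m0 m1 m2 b0 b1 b2
    (by have := h1.rev_over; simpa using this)
    (by have := h2.rev_over; simpa using this) h3
  refine ⟨rev t, m, b, ?_, ?_, g3⟩
  · have := g1.rev_over; simpa using this
  · have := g2.rev_over; simpa using this

lemma R3Prop.flipM {ea eb ec oT oB : Bool} (h : R3Prop E ea eb ec oT true oB) :
    R3Prop E (!ea) eb (!ec) oT false oB := by
  intro t0 t1 t2 m0 m1 m2 b0 b1 b2 h1 h2 h3
  obtain ⟨t, m, b, g1, g2, g3⟩ := h t0 t1 t2 (rev m2) (rev m1) (rev m0) b0 b1 b2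
    (by have := h1.rev_under; simpa using this) h2
    (by have := h3.rev_over; simpa using this)
  refine ⟨t, rev m, b, ?_, g2, ?_⟩
  · have := g1.rev_under; simpa using this
  · have := g3.rev_over; simpa using this

lemma R3Prop.flipB {ea eb ec oT oM : Bool} (h : R3Prop E ea eb ec oT oM true) :
    R3Prop E ea (!eb) (!ec) oT oM false := by
  intro t0 t1 t2 m0 m1 m2 b0 b1 b2 h1 h2 h3
  obtain ⟨t, m, b, g1, g2, g3⟩ := h t0 t1 t2 m0 m1 m2 (rev b2) (rev b1) (rev b0) h1
    (by have := h2.rev_under; simpa using this)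
    (by have := h3.rev_under; simpa using this)
  refine ⟨t, m, rev b, g1, ?_, ?_⟩
  · have := g2.rev_under; simpa using this
  · have := g3.rev_under; simpa using this

lemma r3_all {ea eb ec oT oM oB : Bool} (h1 : ea = eb ↔ oM = oB) (h2 : eb = ec ↔ oT = oM) :
    R3Prop E ea eb ec oT oM oB := by
  have p := r3_pos (E := E)
  have a1 := p.flipT
  have a2 := p.flipM
  have a3 := p.flipB
  have a4 := a1.flipM
  have a5 := a1.flipB
  have a6 := a2.flipB
  have a7 := a4.flipB
  have q := p.mirror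
  have c1 := a1.mirror
  have c2 := a2.mirror
  have c3 := a3.mirror
  have c4 := a4.mirror
  have c5 := a5.mirror
  have c6 := a6.mirror
  have c7 := a7.mirror
  simp only [Bool.not_true, Bool.not_false] at *
  cases ea <;> cases eb <;> cases ec <;> cases oT <;> cases oM <;> cases oB <;>
    first | assumption | simp at h1 h2

variable {m : ℕ} {D : Diagram m}

def Crs (cin cout : Endpoint → Col E) : Prop :=
  ∀ a : Arrow, Cr a.2 (cin (overAt a)) (cin (underAt a)) (cout (overAt a)) (cout (underAt a))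

/-- The diagram has a colouring with incoming colours `s` and outgoing colours `t`. -/
def Coloring (D : Diagram m) (s t : Fin m → Col E) : Prop :=
  ∃ cin cout, Crs cin cout ∧ Paths D cin cout s t

lemma cr_one (e : Bool) : Cr e (1 : Col E) 1 1 1 := by
  cases e <;> simp [PosCr]

variable {s t : Fin m → Col E}

lemma col_rename {f : Arrow → Arrow} (inj : Injective f) (sign : ∀ a, (f a).2 = a.2) :
    Coloring D s t ↔ Coloring (fun i => (D i).map (Prod.map f id)) s t := by
  have inj' : Injective (Prod.map f (id : Bool → Bool)) := inj.prodMap injective_id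
  constructor
  · rintro ⟨cin, cout, h1, h2⟩
    refine ⟨extend (Prod.map f id) cin 1, extend (Prod.map f id) cout 1, fun a => ?_, fun i => ?_⟩
    · by_cases ha : ∃ b, f b = a
      · obtain ⟨b, rfl⟩ := ha
        have e1 : overAt (f b) = Prod.map f id (overAt b) := rfl
        have e2 : underAt (f b) = Prod.map f id (underAt b) := rfl
        rw [e1, e2, inj'.extend_apply, inj'.extend_apply, inj'.extend_apply, inj'.extend_apply,
          sign]
        exact h1 b
      · have n : ∀ e : Bool, ¬ ∃ z, Prod.map f id z = (a, e) := by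
          rintro e ⟨z, hz⟩
          exact ha ⟨z.1, congrArg Prod.fst hz⟩
        rw [overAt, underAt, extend_apply' _ _ _ (n _), extend_apply' _ _ _ (n _),
          extend_apply' _ _ _ (n _), extend_apply' _ _ _ (n _)]
        exact cr_one _
    · rw [path_map, extend_comp inj', extend_comp inj']
      exact h2 i
  · rintro ⟨cin, cout, h1, h2⟩
    refine ⟨cin ∘ Prod.map f id, cout ∘ Prod.map f id, fun a => ?_, fun i => ?_⟩
    · have := h1 (f a)
      rw [sign] at this
      exact this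
    · rw [← path_map]; exact h2 i

lemma col_R1 (hD : WF D) {a : Arrow} {o : Bool} (adj : Consecutive D (overAt a) (underAt a) o) :
    Coloring D s t ↔ Coloring (delete D [a]) s t := by
  rw [delete_one]
  cases o
  · rw [consecutive_false] at adj
    rw [er_comm]
    constructor
    · rintro ⟨cin, cout, h1, h2⟩
      refine ⟨cin, cout, h1, h2.erase hD adj ?_⟩
      have := h1 a
      rw [(h2.mid hD adj).1] at this
      exact this.kink_uo
    · rintro ⟨cin, cout, h1, h2⟩
      obtain ⟨z, hz⟩ := h2.create hD adj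
      obtain ⟨w, hw⟩ := kink_uo_ex a.2 z
      refine ⟨_, _, fun b => ?_, hz w⟩
      by_cases hb : b = a
      · subst hb; simpa using hw
      · simpa [hb] using h1 b
  · rw [consecutive_true] at adj
    constructor
    · rintro ⟨cin, cout, h1, h2⟩
      refine ⟨cin, cout, h1, h2.erase hD adj ?_⟩
      have := h1 a
      rw [(h2.mid hD adj).1] at this
      exact this.kink_ou
    · rintro ⟨cin, cout, h1, h2⟩
      obtain ⟨z, hz⟩ := h2.create hD adj
      obtain ⟨w, hw⟩ := kink_ou_ex a.2 z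
      refine ⟨_, _, fun b => ?_, hz w⟩
      by_cases hb : b = a
      · subst hb; simpa using hw
      · simpa [hb] using h1 b

lemma col_R2_aux (hD : WF D) {a b : Arrow} {o' : Bool} (sign : a.2 ≠ b.2)
    (ho : Follows D (overAt a) (overAt b)) (hu : Consecutive D (underAt a) (underAt b) o') :
    Coloring D s t ↔ Coloring (delete D [a, b]) s t := by
  have hab : a ≠ b := fun h => sign (h ▸ rfl)
  have hb2 : b.2 = !a.2 := Bool.eq_not_iff.2 sign.symm
  have hD' := hD.er (overAt a) (overAt b)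
  rw [delete_two]
  cases o'
  · rw [consecutive_false] at hu
    have hu' : Follows (er D (overAt a) (overAt b)) (underAt b) (underAt a) := hu.er (by simp) (by simp)
    rw [er_comm]
    constructor
    · rintro ⟨cin, cout, h1, h2⟩
      have c1 := (Cr_not _ _ _ _ _).2 (h1 a)
      have c2 := h1 b
      rw [hb2, ← (h2.mid hD ho).1, (h2.mid hD hu).1] at c2
      have := c1.uniq_side c2
      exact ⟨cin, cout, h1, (h2.erase hD ho this.2).erase hD' hu' this.1.symm⟩
    · rintro ⟨cin, cout, h1, h2⟩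
      obtain ⟨z2, hz2⟩ := h2.create hD' hu'
      obtain ⟨z1, hz1⟩ := (hz2 1).create hD ho
      obtain ⟨u1, t1, hw⟩ := cr_ex_side a.2 z1 z2
      refine ⟨_, _, fun c => ?_, ((hz1 t1).mid hD hu).2 u1⟩
      by_cases hc : c = a
      · subst hc; simpa [hab] using hw
      by_cases hc' : c = b
      · subst hc'
        rw [hb2, Cr_not]
        simpa [hc] using hw
      · simpa [hc, hc'] using h1 c
  · rw [consecutive_true] at hu
    have hu' : Follows (er D (overAt a) (overAt b)) (underAt a) (underAt b) := hu.er (by simp) (by simp)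
    constructor
    · rintro ⟨cin, cout, h1, h2⟩
      have c1 := (Cr_not _ _ _ _ _).2 (h1 a)
      have c2 := h1 b
      rw [hb2, ← (h2.mid hD ho).1, ← (h2.mid hD hu).1] at c2
      have := c1.uniq c2
      exact ⟨cin, cout, h1, (h2.erase hD ho this.1).erase hD' hu' this.2⟩
    · rintro ⟨cin, cout, h1, h2⟩
      obtain ⟨z2, hz2⟩ := h2.create hD' hu'
      obtain ⟨z1, hz1⟩ := (hz2 1).create hD ho
      obtain ⟨t1, u1, hw⟩ := cr_ex a.2 z1 z2
      refine ⟨_, _, fun c => ?_, ((hz1 t1).mid hD hu).2 u1⟩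
      by_cases hc : c = a
      · subst hc; simpa [hab] using hw
      by_cases hc' : c = b
      · subst hc'
        rw [hb2, Cr_not]
        simpa [hc] using hw
      · simpa [hc, hc'] using h1 c

lemma col_R2 (hD : WF D) {a b : Arrow} {o o' : Bool} (sign : a.2 ≠ b.2)
    (ho : Consecutive D (overAt a) (overAt b) o) (hu : Consecutive D (underAt a) (underAt b) o') :
    Coloring D s t ↔ Coloring (delete D [a, b]) s t := by
  cases o
  · rw [delete_two_comm]
    exact col_R2_aux hD sign.symm (consecutive_false.1 ho) (consecutive_swap hu)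
  · exact col_R2_aux hD sign (consecutive_true.1 ho) hu

lemma col_R3_fwd (hD : WF D) {a b c : Arrow} {oT oM oB : Bool} (ab : a ≠ b) (ac : a ≠ c)
    (bc : b ≠ c) (top : Consecutive D (overAt a) (overAt b) oT)
    (middle : Consecutive D (underAt a) (overAt c) oM) (bottom : Consecutive D (underAt b) (underAt c) oB)
    (sign₁ : a.2 = b.2 ↔ oM = oB) (sign₂ : b.2 = c.2 ↔ oT = oM) (h : Coloring D s t) :
    Coloring (fun i => (D i).map (sw3 a b c)) s t := by
  obtain ⟨cin, cout, h1, h2⟩ := h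
  obtain ⟨v1, v2, v3, v4, v5, v6, v7⟩ := sw3_val ab ac bc
  have m1 := (h2.mid' hD top).1
  have m2 := (h2.mid' hD middle).1
  have m3 := (h2.mid' hD bottom).1
  obtain ⟨t1, m1', b1, g1, g2, g3⟩ := r3_all (E := E) sign₁ sign₂
    (cin (if oT then overAt a else overAt b)) (cin (if oT then overAt b else overAt a))
    (cout (if oT then overAt b else overAt a))
    (cin (if oM then underAt a else overAt c)) (cin (if oM then overAt c else underAt a))
    (cout (if oM then overAt c else underAt a))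
    (cin (if oB then underAt b else underAt c)) (cin (if oB then underAt c else underAt b))
    (cout (if oB then underAt c else underAt b))
    (by have := h1 a; cases oT <;> cases oM <;> simp_all)
    (by have := h1 b; cases oT <;> cases oB <;> simp_all)
    (by have := h1 c; cases oM <;> cases oB <;> simp_all)
  have p := ((((h2.mid' hD top).2 t1).mid' hD middle).2 m1').mid' hD bottom |>.2 b1
  have key : ∀ cin cout : Endpoint → Col E, Paths D cin cout s t →
      Paths (fun i => (D i).map (sw3 a b c)) (cin ∘ sw3 a b c) (cout ∘ sw3 a b c) s t := by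
    intro cin cout p i
    rw [path_map]
    refine path_congr (fun q _ => ?_) (p i)
    simp only [comp_apply, sw3_sw3 ab ac bc, and_self]
  refine ⟨_, _, fun d => ?_, key _ _ p⟩
  · simp only [comp_apply]
    by_cases c1 : d = a
    · subst c1
      rw [v1, v3]
      cases oT <;> cases oM <;> cases oB <;>
        simpa [ab, ac, bc, ab.symm, ac.symm, bc.symm] using g1
    by_cases c2 : d = b
    · subst c2
      rw [v2, v5]
      cases oT <;> cases oM <;> cases oB <;>
        simpa [ab, ac, bc, ab.symm, ac.symm, bc.symm] using g2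
    by_cases c3 : d = c
    · subst c3
      rw [v4, v6]
      cases oT <;> cases oM <;> cases oB <;>
        simpa [ab, ac, bc, ab.symm, ac.symm, bc.symm] using g3
    rw [(v7 d c1 c2 c3).1, (v7 d c1 c2 c3).2]
    cases oT <;> cases oM <;> cases oB <;> simpa [c1, c2, c3] using h1 d

lemma move_coloring {D D' : Diagram m} (hD : WF D) (hD' : WF D') (h : Move D D') :
    Coloring D s t ↔ Coloring D' s t := by
  cases h with
  | rename f inj sign => exact col_rename inj sign
  | R1 a o adj => exact col_R1 hD adj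
  | R2 a b o o' sign h1 h2 => exact col_R2 hD sign h1 h2
  | R3 a b c oT oM oB ab ac bc top middle bottom s1 s2 =>
    refine ⟨col_R3_fwd hD ab ac bc top middle bottom s1 s2, fun h => ?_⟩
    obtain ⟨v1, v2, v3, v4, v5, v6, -⟩ := sw3_val ab ac bc
    have top' := consecutive_swap (top.map (sw3 a b c))
    have middle' := consecutive_swap (middle.map (sw3 a b c))
    have bottom' := consecutive_swap (bottom.map (sw3 a b c))
    rw [v1, v2] at top'
    rw [v3, v4] at middle'
    rw [v5, v6] at bottom'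
    have := col_R3_fwd hD' ab ac bc top' middle' bottom' (by simpa using s1) (by simpa using s2) h
    have e : (fun i => ((D i).map (sw3 a b c)).map (sw3 a b c)) = D := by
      funext i
      rw [List.map_map]
      exact (List.map_congr_left fun q _ => sw3_sw3 ab ac bc q).trans (List.map_id _)
    exact e ▸ this

theorem equiv_coloring {D D' : Diagram m} (h : ReidemeisterEquiv D D') :
    Coloring D s t ↔ Coloring D' s t := by
  induction h with
  | rel _ _ h => exact move_coloring h.1.wf h.2.1.wf h.2.2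
  | refl => rfl
  | symm _ _ _ ih => exact ih.symm
  | trans _ _ _ _ _ ih1 ih2 => exact ih1.trans ih2

end Pool.Agent.MP_e4304e_gt.RP

end

section

/-! Unique colourings in a filtered factorisation, and unitriangular permutations. -/

namespace Pool.Agent.MP_e4304e_gt.RP

open Equiv Function

/-- A central filtration. -/
structure Fil {S : Type} [Group S] (N : ℕ → Subgroup S) (c : ℕ) : Prop where
  top : N 0 = ⊤
  bot : N c = ⊥
  anti : ∀ i, N (i + 1) ≤ N i
  comm : ∀ i g x, x ∈ N i → g * x * g⁻¹ * x⁻¹ ∈ N (i + 1)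

section fil

variable {S : Type} [Group S] {N : ℕ → Subgroup S} {c : ℕ}

lemma Fil.normal (h : Fil N c) (i : ℕ) : (N i).Normal :=
  ⟨fun x hx g => by simpa using mul_mem (h.anti i (h.comm i g x hx)) hx⟩

lemma Fil.le (h : Fil N c) {i j : ℕ} (hij : i ≤ j) : N j ≤ N i :=
  antitone_nat_of_succ_le h.anti hij

lemma Fil.central (h : Fil N c) (i : ℕ) [(N (i + 1)).Normal] {x : S} (hx : x ∈ N i)
    (y : S ⧸ N (i + 1)) : y * QuotientGroup.mk' _ x = QuotientGroup.mk' _ x * y := by
  obtain ⟨y, rfl⟩ := QuotientGroup.mk'_surjective _ y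
  have := (QuotientGroup.eq_one_iff _).2 (h.comm i y x hx)
  rw [← QuotientGroup.mk'_apply, map_mul, map_mul, map_mul, map_inv, map_inv, mul_inv_eq_one,
    mul_inv_eq_iff_eq_mul] at this
  exact this

/-- Unitriangular maps. -/
def Uni (N : ℕ → Subgroup S) (f : S → S) : Prop :=
  ∀ i s s', s⁻¹ * s' ∈ N i → (s⁻¹ * s')⁻¹ * ((f s)⁻¹ * f s') ∈ N (i + 1)

lemma Uni.back (h : Fil N c) {f : S → S} (hf : Uni N f) (i : ℕ) (s s' : S)
    (hs : (f s)⁻¹ * f s' ∈ N i) : s⁻¹ * s' ∈ N i := by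
  induction i with
  | zero => rw [h.top]; trivial
  | succ i ih =>
    have := mul_mem hs (inv_mem (hf i s s' (ih (h.anti i hs))))
    simpa only [mul_inv_rev, inv_inv, mul_assoc, mul_inv_cancel_left, inv_mul_cancel_left]
      using this

lemma Uni.comp (h : Fil N c) {f g : S → S} (hf : Uni N f) (hg : Uni N g) : Uni N (f ∘ g) := by
  intro i s s' hs
  have h1 := hg i s s' hs
  have h2 : (g s)⁻¹ * g s' ∈ N i := by
    simpa only [mul_inv_cancel_left] using mul_mem hs (h.anti i h1)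
  have := mul_mem h1 (hf i _ _ h2)
  rwa [mul_assoc, mul_inv_cancel_left] at this

theorem unip (h : Fil N c) [Finite S] {p : ℕ} [Fact p.Prime] (hp : IsPGroup p S) :
    ∃ U : Subgroup (Perm S), IsPGroup p U ∧ ∀ f, Uni N f → ∃ u : U, ∀ s, u.1 s = f s := by
  let U : Subgroup (Perm S) :=
    { carrier := {u | Uni N u}
      one_mem' := fun i s s' _ => by simp [one_mem]
      mul_mem' := fun {f g} hf hg => Uni.comp h (f := f) (g := g) hf hg
      inv_mem' := fun {u} hu i s s' hs => by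
        have h1 := Uni.back h hu i (u⁻¹ s) (u⁻¹ s') (by simpa using hs)
        simpa using inv_mem (hu i _ _ h1) }
  refine ⟨U, fun u => ?_, fun f hf => ?_⟩
  · obtain ⟨a, ha⟩ := IsPGroup.iff_card.1 hp
    have key : ∀ i, ∃ k, ∀ s, s⁻¹ * (u ^ p ^ k).1 s ∈ N i := by
      intro i
      induction i with
      | zero => exact ⟨0, fun s => by rw [h.top]; trivial⟩
      | succ i ih =>
        obtain ⟨k, hk⟩ := ih
        refine ⟨k + a, fun s => ?_⟩
        rw [pow_add, pow_mul]
        generalize u ^ p ^ k = g at hk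
        have h1 : ∀ j : ℕ, ((s⁻¹ * g.1 s) ^ j)⁻¹ * (s⁻¹ * (g ^ j).1 s) ∈ N (i + 1) := by
          intro j
          induction j with
          | zero => simp [one_mem]
          | succ j ih =>
            have h2 : Uni N (g ^ j).1 := (g ^ j).2
            have h3 := mul_mem ((h.normal (i + 1)).conj_mem' _ ih (s⁻¹ * g.1 s))
              (h2 i s (g.1 s) (hk s))
            have e : (g ^ (j + 1)).1 s = (g ^ j).1 (g.1 s) := by rw [pow_succ]; rfl
            rw [e, pow_succ]
            generalize s⁻¹ * g.1 s = δ at h3 ⊢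
            simpa only [mul_inv_rev, mul_assoc, mul_inv_cancel_left] using h3
        have h4 := h1 (p ^ a)
        rwa [← ha, pow_card_eq_one', inv_one, one_mul, ha] at h4
    obtain ⟨k, hk⟩ := key c
    refine ⟨k, Subtype.ext (Equiv.ext fun s => ?_)⟩
    have := hk s
    rw [h.bot, Subgroup.mem_bot, inv_mul_eq_one] at this
    exact this.symm
  · have hi : Injective f := fun s s' e => by
      have := Uni.back h hf c s s' (by rw [e, inv_mul_cancel]; exact one_mem _)
      rwa [h.bot, Subgroup.mem_bot, inv_mul_eq_one] at this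
    exact ⟨⟨Equiv.ofBijective f (Finite.injective_iff_bijective.1 hi), hf⟩, fun s => rfl⟩

lemma Fil.pi (h : Fil N c) (ι : Type) :
    Fil (fun i => Subgroup.pi Set.univ fun _ : ι => N i) c where
  top := by simp [h.top, Subgroup.pi_top]
  bot := by simp [h.bot, Subgroup.pi_bot]
  anti i x hx l hl := h.anti i (hx l hl)
  comm i g x hx l hl := h.comm i _ _ (hx l hl)

lemma path_ex (corr : Endpoint → S) {l : List Endpoint} (hl : l.Nodup) (x : S) :
    ∃ cin : Endpoint → S, ∃ y, Path cin (fun e => cin e * corr e) x l y := by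
  induction l generalizing x with
  | nil => exact ⟨1, x, rfl⟩
  | cons a l ih =>
    obtain ⟨h1, h2⟩ := List.nodup_cons.1 hl
    obtain ⟨cin, y, h⟩ := ih h2 (x * corr a)
    refine ⟨update cin a x, y, by simp, ?_⟩
    simp only [update_self]
    refine path_congr (fun e he => ?_) h
    have : e ≠ a := fun h => h1 (h ▸ he)
    simp [this]

lemma paths_ex {m : ℕ} {D : Diagram m} (hD : WF D) (corr : Endpoint → S) (s : Fin m → S) :
    ∃ cin : Endpoint → S, (∀ e, (¬ ∃ i, e ∈ D i) → cin e = 1) ∧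
      ∃ t, Paths D cin (fun e => cin e * corr e) s t := by
  classical
  choose cin y h using fun i => path_ex corr (hD.1 i) (s i)
  refine ⟨fun e => if h : ∃ i, e ∈ D i then cin h.choose e else 1, fun e he => dif_neg he, y,
    fun i => path_congr (fun e he => ?_) (h i)⟩
  have h1 : ∃ i, e ∈ D i := ⟨i, he⟩
  simp only [dif_pos h1, hD.2 _ _ e h1.choose_spec he, and_self]

lemma path_lip {Γ : Type} [Group Γ] (ρ : S →* Γ) {z : Γ} (hz : ∀ y, y * z = z * y)
    {cin cout cin' cout' : Endpoint → S} {l : List Endpoint} {x y x' y' : S}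
    (h : Path cin cout x l y) (h' : Path cin' cout' x' l y') (hx : ρ x' = ρ x * z)
    (hc : ∀ e ∈ l, ρ ((cin e)⁻¹ * cout e) = ρ ((cin' e)⁻¹ * cout' e)) :
    (∀ e ∈ l, ρ (cin' e) = ρ (cin e) * z) ∧ ρ y' = ρ y * z := by
  induction l generalizing x x' with
  | nil => exact ⟨by simp, by rw [← show x = y from h, ← show x' = y' from h', hx]⟩
  | cons a l ih =>
    obtain ⟨h1, h2⟩ := h
    obtain ⟨h1', h2'⟩ := h'
    have h3 := hc a (by simp)
    rw [map_mul, map_mul, map_inv, map_inv, h1, h1', hx, eq_inv_mul_iff_mul_eq, mul_assoc, ← hz,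
      ← mul_assoc, mul_inv_cancel_left] at h3
    have := ih h2 h2' h3.symm fun e he => hc e (by simp [he])
    refine ⟨fun e he => ?_, this.2⟩
    rcases List.mem_cons.1 he with rfl | he
    · rw [h1, h1', hx]
    · exact this.1 e he

end fil

variable {E : XF} {m : ℕ}

/-- The corrections at a crossing depend on the incoming colours in a contracting way. -/
def Lip (C : ℕ → Subgroup (Col E)) : Prop :=
  ∀ i e (o u o' u' o₂ u₂ o₂' u₂' : Col E), Cr e o u o' u' → Cr e o₂ u₂ o₂' u₂' →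
    o⁻¹ * o₂ ∈ C i → u⁻¹ * u₂ ∈ C i →
    (o⁻¹ * o')⁻¹ * (o₂⁻¹ * o₂') ∈ C (i + 1) ∧ (u⁻¹ * u')⁻¹ * (u₂⁻¹ * u₂') ∈ C (i + 1)

lemma cen_mul {Γ : Type} [Group Γ] {z w x y u v : Γ} (hz : ∀ y, y * z = z * y)
    (hw : ∀ y, y * w = w * y) (h : x * y = u * v) : x * z * (y * w) = u * w * (v * z) := by
  rw [mul_assoc x, ← mul_assoc z, ← hz y, mul_assoc y, ← mul_assoc x, h, mul_assoc u w,
    ← mul_assoc w, ← hw v, mul_assoc v, ← mul_assoc u, hw z]

lemma pos_lip {Γ : Type} [Group Γ] (q : E.G →* Γ)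
    (hq : ∀ h k, q (E.hh h * E.kk k) = 1 → q (E.hh h) = 1) {z w : Γ × Γ}
    (hz : ∀ y, y * z = z * y) (hw : ∀ y, y * w = w * y) {o u o' u' o₂ u₂ o₂' u₂' : Col E}
    (h : PosCr o u o' u') (h' : PosCr o₂ u₂ o₂' u₂')
    (ho : (q.comp E.hh).prodMap (q.comp E.kk) o₂ = (q.comp E.hh).prodMap (q.comp E.kk) o * z)
    (hu : (q.comp E.hh).prodMap (q.comp E.kk) u₂ = (q.comp E.hh).prodMap (q.comp E.kk) u * w) :
    (q.comp E.hh).prodMap (q.comp E.kk) o₂' = (q.comp E.hh).prodMap (q.comp E.kk) o' * z ∧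
    (q.comp E.hh).prodMap (q.comp E.kk) u₂' = (q.comp E.hh).prodMap (q.comp E.kk) u' * w := by
  have z1 : ∀ y, y * z.1 = z.1 * y := fun y => congrArg Prod.fst (hz (y, 1))
  have z2 : ∀ y, y * z.2 = z.2 * y := fun y => congrArg Prod.snd (hz (1, y))
  have w1 : ∀ y, y * w.1 = w.1 * y := fun y => congrArg Prod.fst (hw (y, 1))
  have w2 : ∀ y, y * w.2 = w.2 * y := fun y => congrArg Prod.snd (hw (1, y))
  set a := q.comp E.hh with ha
  set b := q.comp E.kk with hb
  have o1 : a o₂.1 = a o.1 * z.1 := congrArg Prod.fst ho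
  have o2 : b o₂.2 = b o.2 * z.2 := congrArg Prod.snd ho
  have u1 : a u₂.1 = a u.1 * w.1 := congrArg Prod.fst hu
  have u2 : b u₂.2 = b u.2 * w.2 := congrArg Prod.snd hu
  have un : ∀ h h' k k', a h * b k = a h' * b k' → a h = a h' ∧ b k = b k' := by
    intro h h' k k' e
    have e1 := hq (h'⁻¹ * h) (k * k'⁻¹) (by
      rw [map_mul]
      change a _ * b _ = 1
      rw [map_mul, map_mul, map_inv, map_inv, mul_assoc, ← mul_assoc (a h), e]
      group)
    change a _ = 1 at e1
    rw [map_mul, map_inv, inv_mul_eq_one] at e1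
    rw [← e1] at e
    exact ⟨e1.symm, mul_left_cancel e⟩
  obtain ⟨a1, a2, a3⟩ := h
  obtain ⟨b1, b2, b3⟩ := h'
  have c1 := congrArg a a1
  have c2 := congrArg b a2
  have c3 : b o.2 * a u.1 = a u'.1 * b o'.2 := by
    have := congrArg q a3
    rwa [map_mul, map_mul] at this
  have d1 := congrArg a b1
  have d2 := congrArg b b2
  have d3 : b o₂.2 * a u₂.1 = a u₂'.1 * b o₂'.2 := by
    have := congrArg q b3
    rwa [map_mul, map_mul] at this
  simp only [map_mul] at c1 c2 d1 d2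
  obtain ⟨e1, e2⟩ := un u₂'.1 (u'.1 * (u.1⁻¹ * u₂.1)) o₂'.2 (o'.2 * (o.2⁻¹ * o₂.2)) (by
    simp only [map_mul, map_inv]
    rw [← d3, o2, u1, inv_mul_cancel_left, inv_mul_cancel_left, cen_mul z2 w1 c3])
  simp only [map_mul, map_inv] at e1 e2
  rw [u1, inv_mul_cancel_left] at e1
  rw [o2, inv_mul_cancel_left] at e2
  refine ⟨Prod.ext ?_ e2, Prod.ext e1 ?_⟩
  · change a o₂'.1 = a o'.1 * z.1
    refine mul_left_cancel (a := a u₂'.1) ?_
    rw [← d1, e1, o1, u1, cen_mul z1 w1 c1]
  · change b u₂'.2 = b u'.2 * w.2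
    refine mul_right_cancel (b := b o₂'.2) ?_
    rw [← d2, e2, o2, u2, cen_mul z2 w2 c2]

lemma cr_lip {Γ : Type} [Group Γ] (q : E.G →* Γ)
    (hq : ∀ h k, q (E.hh h * E.kk k) = 1 → q (E.hh h) = 1) {z w : Γ × Γ}
    (hz : ∀ y, y * z = z * y) (hw : ∀ y, y * w = w * y) {e : Bool}
    {o u o' u' o₂ u₂ o₂' u₂' : Col E} (h : Cr e o u o' u') (h' : Cr e o₂ u₂ o₂' u₂')
    (ho : (q.comp E.hh).prodMap (q.comp E.kk) o₂ = (q.comp E.hh).prodMap (q.comp E.kk) o * z)
    (hu : (q.comp E.hh).prodMap (q.comp E.kk) u₂ = (q.comp E.hh).prodMap (q.comp E.kk) u * w) :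
    (q.comp E.hh).prodMap (q.comp E.kk) o₂' = (q.comp E.hh).prodMap (q.comp E.kk) o' * z ∧
    (q.comp E.hh).prodMap (q.comp E.kk) u₂' = (q.comp E.hh).prodMap (q.comp E.kk) u' * w := by
  cases e
  · have iv : ∀ {z : Γ × Γ}, (∀ y, y * z = z * y) → ∀ y, y * z⁻¹ = z⁻¹ * y := fun hz y =>
      (Commute.inv_right (hz y)).eq
    have k : ∀ {z : Γ × Γ}, (∀ y, y * z = z * y) → ∀ x y : Col E,
        (q.comp E.hh).prodMap (q.comp E.kk) y = (q.comp E.hh).prodMap (q.comp E.kk) x * z →
        (q.comp E.hh).prodMap (q.comp E.kk) y⁻¹ =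
          (q.comp E.hh).prodMap (q.comp E.kk) x⁻¹ * z⁻¹ := fun hz x y h => by
      rw [map_inv, map_inv, h, mul_inv_rev, iv hz]
    have := pos_lip q hq (iv hz) (iv hw) h.mirror h'.mirror (k hz _ _ ho) (k hw _ _ hu)
    exact ⟨by simpa only [inv_inv] using k (iv hz) o'⁻¹ o₂'⁻¹ this.1,
      by simpa only [inv_inv] using k (iv hw) u'⁻¹ u₂'⁻¹ this.2⟩
  · exact pos_lip q hq hz hw h h' ho hu

/-- The filtration of the colours. -/
def CF (E : XF) (N : ℕ → Subgroup E.G) (i : ℕ) : Subgroup (Col E) :=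
  ((N i).comap E.hh).prod ((N i).comap E.kk)

lemma fil_CF {N : ℕ → Subgroup E.G} {c : ℕ} (h : Fil N c) : Fil (CF E N) c where
  top := by simp [CF, h.top]
  bot := by
    refine (Subgroup.eq_bot_iff_forall _).2 fun x hx => ?_
    obtain ⟨h1, h2⟩ := hx
    rw [h.bot] at h1 h2
    exact Prod.ext (E.exact 1 x.1 ((map_one _).trans (Subgroup.mem_bot.1 h1).symm)).2
      (E.exact x.2 1 ((Subgroup.mem_bot.1 h2).trans (map_one _).symm)).1
  anti i x hx := ⟨h.anti i hx.1, h.anti i hx.2⟩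
  comm i g x hx := ⟨by simpa using h.comm i (E.hh g.1) _ hx.1,
    by simpa using h.comm i (E.kk g.2) _ hx.2⟩

lemma lip_CF {N : ℕ → Subgroup E.G} {c : ℕ} (h : Fil N c)
    (hs : ∀ i x k, E.hh x * E.kk k ∈ N i → E.hh x ∈ N i) : Lip (CF E N) := by
  intro i e o u o' u' o₂ u₂ o₂' u₂' h1 h2 ho hu
  haveI := h.normal (i + 1)
  set q := QuotientGroup.mk' (N (i + 1)) with hq
  set ρ := (q.comp E.hh).prodMap (q.comp E.kk) with hρ
  have cen : ∀ x ∈ CF E N i, ∀ y, y * ρ x = ρ x * y := fun x hx y =>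
    Prod.ext (h.central i hx.1 y.1) (h.central i hx.2 y.2)
  have ker : ∀ x, ρ x = 1 → x ∈ CF E N (i + 1) := fun x hx =>
    ⟨(QuotientGroup.eq_one_iff (E.hh x.1)).1 (congrArg Prod.fst hx),
      (QuotientGroup.eq_one_iff (E.kk x.2)).1 (congrArg Prod.snd hx)⟩
  obtain ⟨a1, a2⟩ := cr_lip q (fun x k hx => (QuotientGroup.eq_one_iff _).2
    (hs _ x k ((QuotientGroup.eq_one_iff _).1 hx))) (cen _ ho) (cen _ hu) h1 h2
    (by rw [← map_mul, mul_inv_cancel_left]) (by rw [← map_mul, mul_inv_cancel_left])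
  have fin : ∀ x x' y y' : Col E, x⁻¹ * y ∈ CF E N i → ρ y' = ρ x' * ρ (x⁻¹ * y) →
      (x⁻¹ * x')⁻¹ * (y⁻¹ * y') ∈ CF E N (i + 1) := fun x x' y y' hx hy => ker _ (by
    have e : ρ y = ρ x * ρ (x⁻¹ * y) := by rw [← map_mul, mul_inv_cancel_left]
    have := cen _ hx
    generalize ρ (x⁻¹ * y) = z at hy e this
    rw [map_mul, map_mul, map_inv, map_inv, map_mul, map_inv, hy, e, inv_mul_eq_one,
      mul_inv_rev, mul_assoc, ← mul_assoc (ρ x)⁻¹, this, inv_mul_cancel_left])
  exact ⟨fin _ _ _ _ ho a1, fin _ _ _ _ hu a2⟩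

variable {C : ℕ → Subgroup (Col E)} {c : ℕ}

lemma step_lip (hC : Fil C c) (hL : Lip C) {D : Diagram m} (hD : IsGauss D)
    {cin cout cin' cout' cout₁ cout₁' cin₁ cin₁' : Endpoint → Col E} {s t s' t' : Fin m → Col E}
    (h1 : Crs cin cout) (h1' : Crs cin' cout') (h2 : Paths D cin₁ cout₁ s t)
    (h2' : Paths D cin₁' cout₁' s' t') (e1 : ∀ e, (cin₁ e)⁻¹ * cout₁ e = (cin e)⁻¹ * cout e)
    (e1' : ∀ e, (cin₁' e)⁻¹ * cout₁' e = (cin' e)⁻¹ * cout' e) {i : ℕ}
    (hi : ∀ l, ∀ e ∈ D l, (cin e)⁻¹ * cin' e ∈ C i) (l : Fin m) (hs : (s l)⁻¹ * s' l ∈ C i) :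
    (∀ e ∈ D l, ((s l)⁻¹ * s' l)⁻¹ * ((cin₁ e)⁻¹ * cin₁' e) ∈ C (i + 1)) ∧
      ((s l)⁻¹ * s' l)⁻¹ * ((t l)⁻¹ * t' l) ∈ C (i + 1) := by
  haveI := hC.normal (i + 1)
  have key := path_lip (QuotientGroup.mk' (C (i + 1))) (hC.central i hs) (h2 l) (h2' l)
    (by rw [← map_mul, mul_inv_cancel_left]) fun e he => by
      obtain ⟨a, b⟩ := e
      have h3 : (∃ j, overAt a ∈ D j) ∧ ∃ j, underAt a ∈ D j := by
        cases b
        · exact ⟨(hD.paired a).2 ⟨l, he⟩, l, he⟩
        · exact ⟨⟨l, he⟩, (hD.paired a).1 ⟨l, he⟩⟩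
      obtain ⟨⟨j, hj⟩, k, hk⟩ := h3
      have h4 := hL i _ _ _ _ _ _ _ _ _ (h1 a) (h1' a) (hi j _ hj) (hi k _ hk)
      rw [e1, e1']
      cases b
      · exact QuotientGroup.eq.2 h4.2
      · exact QuotientGroup.eq.2 h4.1
  have fin : ∀ x y : Col E, QuotientGroup.mk' (C (i + 1)) y = QuotientGroup.mk' (C (i + 1)) x *
      QuotientGroup.mk' (C (i + 1)) ((s l)⁻¹ * s' l) →
      ((s l)⁻¹ * s' l)⁻¹ * (x⁻¹ * y) ∈ C (i + 1) := fun x y h => by
    rw [← map_mul] at h
    have := QuotientGroup.eq.1 h.symm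
    rwa [mul_inv_rev x, mul_assoc] at this
  exact ⟨fun e he => fin _ _ (key.1 e he), fin _ _ key.2⟩

theorem col_uni (hC : Fil C c) (hL : Lip C) {D : Diagram m} (hD : IsGauss D)
    {s t s' t' : Fin m → Col E} (h : Coloring D s t) (h' : Coloring D s' t') {i : ℕ}
    (hs : ∀ l, (s l)⁻¹ * s' l ∈ C i) (l : Fin m) :
    ((s l)⁻¹ * s' l)⁻¹ * ((t l)⁻¹ * t' l) ∈ C (i + 1) := by
  obtain ⟨cin, cout, h1, h2⟩ := h
  obtain ⟨cin', cout', h1', h2'⟩ := h'
  have key : ∀ j, j ≤ i → ∀ l, ∀ e ∈ D l, (cin e)⁻¹ * cin' e ∈ C j := by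
    intro j
    induction j with
    | zero => intro _ l e _; rw [hC.top]; trivial
    | succ j ih =>
      intro hj l e he
      have := (step_lip hC hL hD h1 h1' h2 h2' (fun _ => rfl) (fun _ => rfl) (ih (by omega)) l
        (hC.le (by omega) (hs l))).1 e he
      simpa only [mul_inv_cancel_left] using mul_mem (hC.le hj (hs l)) this
  exact (step_lip hC hL hD h1 h1' h2 h2' (fun _ => rfl) (fun _ => rfl) (key i le_rfl) l (hs l)).2

theorem col_uniq (hC : Fil C c) (hL : Lip C) {D : Diagram m} (hD : IsGauss D)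
    {s t t' : Fin m → Col E} (h : Coloring D s t) (h' : Coloring D s t') : t = t' := by
  funext l
  have := hC.anti c (col_uni hC hL hD h h' (i := c) (fun l => by simp [one_mem]) l)
  rw [hC.bot, Subgroup.mem_bot] at this
  simpa [inv_mul_eq_one] using this

theorem col_ex (hC : Fil C c) (hL : Lip C) {D : Diagram m} (hD : IsGauss D)
    (s : Fin m → Col E) : ∃ t, Coloring D s t := by
  choose O U hOU using fun e o u => cr_ex (E := E) e o u
  let out : (Endpoint → Col E) → Endpoint → Col E := fun cin e =>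
    if e.2 then O e.1.2 (cin (overAt e.1)) (cin (underAt e.1))
    else U e.1.2 (cin (overAt e.1)) (cin (underAt e.1))
  have ho : ∀ cin, Crs cin (out cin) := fun cin a => hOU a.2 _ _
  choose F h0 T hF using fun cin => paths_ex hD.wf (fun e => (cin e)⁻¹ * out cin e) s
  have key : ∀ i x y e, (F^[i] x e)⁻¹ * F^[i] y e ∈ C i := by
    intro i
    induction i with
    | zero => intro x y e; rw [hC.top]; trivial
    | succ i ih =>
      intro x y e
      rw [iterate_succ_apply', iterate_succ_apply']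
      by_cases he : ∃ l, e ∈ D l
      · obtain ⟨l, he⟩ := he
        simpa using (step_lip hC hL hD (ho _) (ho _) (hF _) (hF _)
          (fun _ => inv_mul_cancel_left _ _) (fun _ => inv_mul_cancel_left _ _)
          (fun _ e _ => ih x y e) l (by simp [one_mem])).1 e he
      · rw [h0 _ e he, h0 _ e he]
        simp [one_mem]
  have fix : F (F^[c] 1) = F^[c] 1 := by
    funext e
    have := key c (F 1) 1 e
    rwa [hC.bot, Subgroup.mem_bot, inv_mul_eq_one, ← iterate_succ_apply, iterate_succ_apply']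
      at this
  have := hF (F^[c] 1)
  rw [fix] at this
  exact ⟨_, _, _, ho _, by simpa only [mul_inv_cancel_left] using this⟩

theorem col_stack {A B : Diagram m} (hA : IsGauss A) (hAB : IsGauss fun i => A i ++ B i)
    {s t u : Fin m → Col E} (h : Coloring A s t) (h' : Coloring B t u) :
    Coloring (fun i => A i ++ B i) s u := by
  classical
  obtain ⟨cin, cout, h1, h2⟩ := h
  obtain ⟨cin', cout', h1', h2'⟩ := h'
  refine ⟨fun e => if ∃ i, overAt e.1 ∈ A i then cin e else cin' e,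
    fun e => if ∃ i, overAt e.1 ∈ A i then cout e else cout' e, fun a => ?_, fun i => ?_⟩
  · by_cases ha : ∃ i, overAt a ∈ A i
    · change Cr _ (if ∃ i, overAt a ∈ A i then _ else _) (if ∃ i, overAt a ∈ A i then _ else _)
        (if ∃ i, overAt a ∈ A i then _ else _) (if ∃ i, overAt a ∈ A i then _ else _)
      simpa only [if_pos ha] using h1 a
    · change Cr _ (if ∃ i, overAt a ∈ A i then _ else _) (if ∃ i, overAt a ∈ A i then _ else _)
        (if ∃ i, overAt a ∈ A i then _ else _) (if ∃ i, overAt a ∈ A i then _ else _)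
      simpa only [if_neg ha] using h1' a
  · have k : ∀ e : Endpoint, (∃ i, overAt e.1 ∈ A i) ↔ ∃ i, e ∈ A i := by
      rintro ⟨a, b⟩
      cases b
      · exact hA.paired a
      · rfl
    refine path_append.2 ⟨t i, path_congr (fun e he => ?_) (h2 i),
      path_congr (fun e he => ?_) (h2' i)⟩
    · simp only [if_pos ((k e).2 ⟨i, he⟩), and_self]
    · have : ¬ ∃ j, overAt e.1 ∈ A j := fun h => by
        obtain ⟨j, hj⟩ := (k e).1 h
        obtain rfl := hAB.disjoint j i e (List.mem_append_left _ hj) (List.mem_append_right _ he)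
        exact (List.nodup_append.1 (hAB.nodup j)).2.2 e hj e he rfl
      simp only [if_neg this, and_self]

end Pool.Agent.MP_e4304e_gt.RP

end

section

/-! Finite marked factorisations of prime power order, and their extensions. -/

namespace Pool.Agent.MP_e4304e_gt.RP

open FreeGroup hiding map_mul map_one map_inv
open Tm

variable {ι : Type}

abbrev FG (ι : Type) : Type := FreeGroup (Tm ι)

/-- The two maps respect all squares. -/
def Sq {Γ : Type} [Group Γ] (A B : FG ι →* Γ) : Prop :=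
  ∀ a b : Bool → Tm ι, IsSq a b →
    A (of (a false)) * B (of (b true)) = B (of (b false)) * A (of (a true))

section sq

variable {Γ : Type} [Group Γ] {A B : FG ι →* Γ}

lemma Sq.symm (h : Sq A B) : Sq B A := fun a b hab => (h b a hab.symm).symm

lemma Sq.sw (h : Sq A B) {p q q' p' : Tm ι × Bool} (hs : Sw p q q' p') :
    A (sg p) * B (sg q) = B (sg q') * A (sg p') := by
  obtain ⟨a, b, hab, h1, h2, h3, h4⟩ := hs
  have := h a b hab
  rw [h2, h4, h1, h3]
  cases p.2 <;> cases q.2 <;>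
    simp only [sg_true, sg_false, map_inv, Bool.not_true, Bool.not_false]
  · rw [← mul_inv_rev, ← mul_inv_rev, this]
  · rw [inv_mul_eq_iff_eq_mul, ← mul_assoc, this, mul_inv_cancel_right]
  · rw [mul_inv_eq_iff_eq_mul, mul_assoc, this, inv_mul_cancel_left]
  · exact this

lemma sq_GG : Sq (HH : FG ι →* GG ι) KK := fun a b hab =>
  Subtype.ext (H0_K0 (p := (a false, true)) (q := (b true, true)) (q' := (b false, true))
    (p' := (a true, true)) ⟨a, b, hab, rfl, rfl, rfl, rfl⟩)

lemma Sq.letter (h : Sq A B) (p : Tm ι × Bool) (k : FG ι) :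
    ∃ k' p', A (sg p) * B k = B k' * A (sg p') := by
  rw [← mk_toWord (x := k)]
  generalize k.toWord = l
  induction l generalizing p with
  | nil => exact ⟨1, p, by simp [← one_eq_mk]⟩
  | cons q l ih =>
    obtain ⟨k', p', e⟩ := ih (tr p q).2
    refine ⟨sg (tr p q).1 * k', p', ?_⟩
    rw [mk_cons', map_mul, ← mul_assoc, h.sw (sw_tr p q), mul_assoc, e, map_mul, mul_assoc]

lemma Sq.all (h : Sq A B) (x k : FG ι) : ∃ k' x', A x * B k = B k' * A x' := by
  rw [← mk_toWord (x := x)]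
  generalize x.toWord = l
  induction l with
  | nil => exact ⟨k, 1, by simp [← one_eq_mk]⟩
  | cons p l ih =>
    obtain ⟨k', x', e⟩ := ih
    obtain ⟨k'', p', e'⟩ := h.letter p k'
    refine ⟨k'', sg p' * x', ?_⟩
    rw [mk_cons', map_mul, mul_assoc, e, ← mul_assoc, e', map_mul, mul_assoc]

lemma Sq.morph (h : Sq A B) {k x k' x' : FG ι} (e : (KK k * HH x : GG ι) = HH x' * KK k') :
    B k * A x = A x' * B k' := by
  have h1 : Sq ((HH : FG ι →* GG ι).prod A) (KK.prod B) := fun a b hab =>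
    Prod.ext (sq_GG a b hab) (h a b hab)
  obtain ⟨k'', x'', e'⟩ := h1.all x' k'
  obtain ⟨rfl, rfl⟩ := MP_e4304e_gt.uniq_KH (e.trans (congrArg Prod.fst e'))
  exact (congrArg Prod.snd e').symm

end sq

open Classical in
/-- The root of a letter in the forest of squares. -/
noncomputable def rt : Tm ι → Tm ι
  | base t => base t
  | node x y u v => if valid (node x y u v) then rt x else node x y u v

open Classical in
/-- The left or right labels of the path from the root. -/
noncomputable def kp (w : Bool) : Tm ι → FG ι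
  | base _ => 1
  | node x y u v =>
    if valid (node x y u v) then sg (if v = w then y else node y x v u, u) * kp w x else 1

lemma sq_kp {a b : Bool → Tm ι} (h : IsSq a b) :
    rt (a false) = rt (a true) ∧ ∀ w, kp w (a false) = of (b w) * kp w (a true) := by
  obtain ⟨u, v, h1, h2, h3⟩ := h
  have e1 : rt (a (!u)) = rt (a u) := by rw [h2, rt, if_pos h1]
  have e2 : ∀ w, kp w (a (!u)) = sg (b w, u) * kp w (a u) := fun w => by
    rw [h2, kp, if_pos h1]
    congr 3
    split_ifs with h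
    · rw [h]
    · rw [← h3, Bool.eq_not_iff.2 (Ne.symm h)]
  cases u
  · exact ⟨e1.symm, fun w => by rw [show kp w (a true) = _ from e2 w, sg_false]; group⟩
  · exact ⟨e1, e2⟩

lemma Sq.trans {Γ : Type} [Group Γ] {A B : FG ι →* Γ} (h : Sq A B) (z : Tm ι) :
    B (kp false z) * A (of (rt z)) = A (of z) * B (kp true z) := by
  induction z with
  | base t => simp [kp, rt]
  | node x y u v ih _ =>
    by_cases hv : valid (node x y u v)
    · obtain ⟨a, b, hab, h1, -, h3, -⟩ := exists_prim hv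
      obtain ⟨e1, e2⟩ := sq_kp hab
      have key : B (kp false (a false)) * A (of (rt (a false))) =
          A (of (a false)) * B (kp true (a false)) ↔
          B (kp false (a true)) * A (of (rt (a true))) = A (of (a true)) * B (kp true (a true)) := by
        rw [e1, e2, e2, map_mul, map_mul, ← mul_assoc, h a b hab, mul_assoc, mul_assoc,
          mul_right_inj]
      rw [← h1] at ih
      rw [← h3]
      cases u
      · exact key.1 ih
      · exact key.2 ih
    · simp [kp, rt, hv]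

lemma kp_inj {w : Bool} {z z' : Tm ι} (h1 : rt z = rt z') (h2 : kp w z = kp w z') : z = z' := by
  have e := sq_GG.trans z
  have e' := sq_GG.trans z'
  cases w
  · rw [h1, h2, e'] at e
    exact (of_injective (MP_e4304e_gt.uniq_HK e).1).symm
  · rw [← h1, ← h2, ← inv_mul_eq_iff_eq_mul, ← mul_assoc, ← eq_mul_inv_iff_mul_eq,
      ← map_inv] at e'
    rw [← inv_mul_eq_iff_eq_mul, ← mul_assoc, ← eq_mul_inv_iff_mul_eq, ← e', ← map_inv] at e
    exact of_injective (inv_injective (MP_e4304e_gt.uniq_HK e).1)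

/-- A finite factorised group of prime power order with a central filtration and a marking. -/
structure Mem (p : ℕ) (ι : Type) where
  G : Type
  [gG : Group G]
  [fin : Finite G]
  pg : IsPGroup p G
  H : Subgroup G
  K : Subgroup G
  fact : ∀ g, ∃ k ∈ K, ∃ h ∈ H, g = k * h
  ex : ∀ g, g ∈ H → g ∈ K → g = 1
  N : ℕ → Subgroup G
  c : ℕ
  fil : Fil N c
  split : ∀ i, ∀ h ∈ H, ∀ k ∈ K, h * k ∈ N i → h ∈ N i
  A : FG ι →* G
  B : FG ι →* G
  hA : ∀ x, A x ∈ H
  hB : ∀ x, B x ∈ K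
  sq : Sq A B

attribute [instance] Mem.gG Mem.fin

variable {p : ℕ}

lemma Mem.uniq (Q : Mem p ι) {x x' k k' : FG ι} (e : Q.A x * Q.B k = Q.A x' * Q.B k') :
    Q.A x = Q.A x' ∧ Q.B k = Q.B k' := by
  have h1 : (Q.A x')⁻¹ * Q.A x = Q.B k' * (Q.B k)⁻¹ := by
    rw [inv_mul_eq_iff_eq_mul, ← mul_assoc, ← e, mul_inv_cancel_right]
  have h2 := Q.ex _ (mul_mem (inv_mem (Q.hA x')) (Q.hA x))
    (h1 ▸ mul_mem (Q.hB k') (inv_mem (Q.hB k)))
  rw [inv_mul_eq_one] at h2
  rw [h2] at e
  exact ⟨h2.symm, mul_left_cancel e⟩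

def Mem.triv (p : ℕ) (ι : Type) : Mem p ι where
  G := PUnit
  pg _ := ⟨0, rfl⟩
  H := ⊤
  K := ⊤
  fact _ := ⟨1, trivial, 1, trivial, rfl⟩
  ex _ _ _ := rfl
  N _ := ⊤
  c := 0
  fil := ⟨rfl, Subsingleton.elim _ _, fun _ => le_rfl, fun _ _ _ _ => trivial⟩
  split _ _ _ _ _ _ := trivial
  A := 1
  B := 1
  hA _ := trivial
  hB _ := trivial
  sq _ _ _ := rfl

def Mem.swap (Q : Mem p ι) : Mem p ι where
  G := Q.G
  pg := Q.pg
  H := Q.K
  K := Q.H
  fact g := by
    obtain ⟨k, hk, h, hh, e⟩ := Q.fact g⁻¹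
    exact ⟨h⁻¹, inv_mem hh, k⁻¹, inv_mem hk, by rw [← mul_inv_rev, ← e, inv_inv]⟩
  ex g h1 h2 := Q.ex g h2 h1
  N := Q.N
  c := Q.c
  fil := Q.fil
  split i k hk h hh e := by
    have := Q.split i _ (inv_mem hh) _ (inv_mem hk) (by rw [← mul_inv_rev]; exact inv_mem e)
    simpa using mul_mem e this
  A := Q.B
  B := Q.A
  hA := Q.hB
  hB := Q.hA
  sq := Q.sq.symm

def Mem.prod (Q Q' : Mem p ι) : Mem p ι where
  G := Q.G × Q'.G
  pg g := by
    obtain ⟨a, ha⟩ := Q.pg g.1
    obtain ⟨b, hb⟩ := Q'.pg g.2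
    refine ⟨a + b, Prod.ext ?_ ?_⟩
    · rw [Prod.pow_fst, pow_add, pow_mul, ha, one_pow, Prod.fst_one]
    · rw [Prod.pow_snd, pow_add, mul_comm, pow_mul, hb, one_pow, Prod.snd_one]
  H := Q.H.prod Q'.H
  K := Q.K.prod Q'.K
  fact g := by
    obtain ⟨k, hk, h, hh, e⟩ := Q.fact g.1
    obtain ⟨k', hk', h', hh', e'⟩ := Q'.fact g.2
    exact ⟨(k, k'), ⟨hk, hk'⟩, (h, h'), ⟨hh, hh'⟩, Prod.ext e e'⟩
  ex g h1 h2 := Prod.ext (Q.ex _ h1.1 h2.1) (Q'.ex _ h1.2 h2.2)
  N i := (Q.N i).prod (Q'.N i)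
  c := Q.c + Q'.c
  fil :=
    { top := by simp [Q.fil.top, Q'.fil.top]
      bot := by
        have h1 := Q.fil.le (Nat.le_add_right Q.c Q'.c)
        have h2 := Q'.fil.le (Nat.le_add_left Q'.c Q.c)
        rw [Q.fil.bot, le_bot_iff] at h1
        rw [Q'.fil.bot, le_bot_iff] at h2
        rw [h1, h2, Subgroup.bot_prod_bot]
      anti := fun i x hx => ⟨Q.fil.anti i hx.1, Q'.fil.anti i hx.2⟩
      comm := fun i g x hx => ⟨Q.fil.comm i g.1 _ hx.1, Q'.fil.comm i g.2 _ hx.2⟩ }
  split i h hh k hk e := ⟨Q.split i _ hh.1 _ hk.1 e.1, Q'.split i _ hh.2 _ hk.2 e.2⟩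
  A := Q.A.prod Q'.A
  B := Q.B.prod Q'.B
  hA x := ⟨Q.hA x, Q'.hA x⟩
  hB x := ⟨Q.hB x, Q'.hB x⟩
  sq a b hab := Prod.ext (Q.sq a b hab) (Q'.sq a b hab)

open RegularWreathProduct

abbrev Wr (p : ℕ) (G : Type) [Group G] : Type := RegularWreathProduct (Multiplicative (ZMod p)) G

open Classical in
noncomputable def ind (p : ℕ) (P : Prop) : Multiplicative (ZMod p) :=
  if P then Multiplicative.ofAdd 1 else 1

/-- The lift of the marking to the wreath product. -/
noncomputable def Mem.lift (Q : Mem p ι) (r : Tm ι) : FG ι →* Wr p Q.G :=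
  FreeGroup.lift fun a => ⟨fun x => ind p (rt a = r ∧ x = Q.B (kp false a)), Q.A (of a)⟩

lemma Mem.lift_of (Q : Mem p ι) (r a : Tm ι) (x : Q.G) :
    (Q.lift r (of a)).left x = ind p (rt a = r ∧ x = Q.B (kp false a)) := by
  simp [Mem.lift]

lemma Mem.lift_right (Q : Mem p ι) (r : Tm ι) (x : FG ι) : (Q.lift r x).right = Q.A x := by
  have : rightHom.comp (Q.lift r) = Q.A := FreeGroup.ext_hom _ _ fun a => by simp [Mem.lift]
  exact DFunLike.congr_fun this x

lemma Mem.ext [Fact p.Prime] (Q : Mem p ι) (r : Tm ι) :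
    ∃ Q' : Mem p ι, ∀ x, Q'.A x = 1 → Q.lift r x = 1 := by
  have pg : IsPGroup p (Wr p Q.G) := by
    obtain ⟨a, ha⟩ := IsPGroup.iff_card.1 Q.pg
    refine IsPGroup.of_card (n := p ^ a + a) ?_
    rw [RegularWreathProduct.card, ha, pow_add, Nat.card_congr Multiplicative.toAdd, Nat.card_zmod]
  obtain ⟨d, hd⟩ := Subgroup.nilpotent_iff_lowerCentralSeries.1 pg.isNilpotent
  have ex : ∀ g : Wr p Q.G, g ∈ Q.H.comap rightHom → g ∈ Q.K.map inl → g = 1 := by
    rintro _ h1 ⟨k, hk, rfl⟩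
    rw [Q.ex k h1 hk, map_one]
  refine ⟨
    { G := Wr p Q.G
      pg := pg
      H := Q.H.comap rightHom
      K := Q.K.map inl
      fact := fun g => ?_
      ex := ex
      N := fun i => (Q.N i).comap rightHom ⊓ Subgroup.lowerCentralSeries ⊤ (i - Q.c)
      c := Q.c + d
      fil := ⟨by simp [Q.fil.top], by simp [hd], fun i => inf_le_inf
        (Subgroup.comap_mono (Q.fil.anti i)) (Subgroup.lowerCentralSeries_antitone _ (by omega)),
        fun i g x hx => ⟨?_, ?_⟩⟩
      split := fun i h hh k hk e => ?_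
      A := Q.lift r
      B := inl.comp Q.B
      hA := fun x => ?_
      hB := fun x => ⟨_, Q.hB x, rfl⟩
      sq := fun a b hab => ?_ }, fun x h => h⟩
  · obtain ⟨k, hk, h, hh, e⟩ := Q.fact g.right
    refine ⟨inl k, ⟨k, hk, rfl⟩, (inl k)⁻¹ * g, ?_, by group⟩
    simpa [e] using hh
  · simpa using Q.fil.comm i g.right _ hx.1
  · rcases lt_or_ge i Q.c with h | h
    · rw [show i + 1 - Q.c = 0 by omega]; trivial
    · rw [show i + 1 - Q.c = i - Q.c + 1 by omega]
      simpa [commutatorElement_def, mul_assoc] using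
        inv_mem (Subgroup.lowerCentralSeries_isDescendingCentralSeries.2 x _ hx.2 g)
  · rcases lt_or_ge i Q.c with h1 | h1
    · obtain ⟨k, hk, rfl⟩ := hk
      refine ⟨Q.split i _ hh k hk (by simpa using e.1), ?_⟩
      rw [show i - Q.c = 0 by omega]; trivial
    · have h2 := Q.fil.le h1 e.1
      rw [Q.fil.bot, Subgroup.mem_bot] at h2
      have h3 : h * k ∈ Q.H.comap rightHom := by rw [Subgroup.mem_comap, h2]; exact one_mem _
      rwa [ex k ((Subgroup.mul_mem_cancel_left _ hh).1 h3) hk, mul_one] at e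
  · rw [Subgroup.mem_comap, rightHom_eq_right, Q.lift_right]
    exact Q.hA x
  · obtain ⟨e1, e2⟩ := sq_kp hab
    refine RegularWreathProduct.ext ?_ (by simpa [Q.lift_right] using Q.sq a b hab)
    funext x
    have e3 : x = Q.B (kp false (a false)) ↔
        (Q.B (of (b false)))⁻¹ * x = Q.B (kp false (a true)) := by
      rw [e2, map_mul, inv_mul_eq_iff_eq_mul]
    simp [Q.lift_of, e1, e3]

end Pool.Agent.MP_e4304e_gt.RP

end

section

/-! The finite marked factorisations separate the elements of the free one. -/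

namespace Pool.Agent.MP_e4304e_gt.RP

open FreeGroup hiding map_mul map_one map_inv
open Tm
open RegularWreathProduct hiding mk

variable {ι : Type} {p : ℕ}

/-- The common kernel of all markings. -/
def RR (p : ℕ) (ι : Type) : Subgroup (FG ι) := ⨅ Q : Mem p ι, Q.A.ker

lemma mem_RR {g : FG ι} : g ∈ RR p ι ↔ ∀ Q : Mem p ι, Q.A g = 1 := Subgroup.mem_iInf

lemma RR_B {g : FG ι} (h : g ∈ RR p ι) (Q : Mem p ι) : Q.B g = 1 := mem_RR.1 h Q.swap

lemma mem_RR_B {g : FG ι} (h : ∀ Q : Mem p ι, Q.B g = 1) : g ∈ RR p ι :=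
  mem_RR.2 fun Q => h Q.swap

lemma RR_normal : (RR p ι).Normal :=
  ⟨fun x hx g => mem_RR.2 fun Q => by simp [mem_RR.1 hx Q]⟩

lemma det (p : ℕ) (l : List (FG ι)) :
    ∃ Q : Mem p ι, ∀ g ∈ l, Q.A g = 1 ∨ Q.B g = 1 → g ∈ RR p ι := by
  induction l with
  | nil => exact ⟨Mem.triv p ι, by simp⟩
  | cons x l ih =>
    obtain ⟨Q, hQ⟩ := ih
    by_cases hx : x ∈ RR p ι
    · exact ⟨Q, fun g hg h => (List.mem_cons.1 hg).elim (fun e => e ▸ hx) fun hg => hQ g hg h⟩
    · obtain ⟨Q', hQ'⟩ := not_forall.1 (mt mem_RR.2 hx)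
      refine ⟨Q.prod (Q'.prod Q'.swap), fun g hg h => ?_⟩
      rcases List.mem_cons.1 hg with rfl | hg
      · exact absurd (h.elim (fun h => congrArg (fun z => z.2.1) h)
          fun h => congrArg (fun z => z.2.2) h) hQ'
      · exact hQ g hg (h.imp (congrArg Prod.fst) (congrArg Prod.fst))

/-- The position of the start of an edge. -/
def hd (β : Tm ι × Bool) : FG ι := if β.2 then 1 else (of β.1)⁻¹

variable [Fact p.Prime]

lemma ind_eq_one {P : Prop} : ind p P = 1 ↔ ¬ P := by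
  unfold ind
  split_ifs with h <;> simp [h]

lemma Mem.lift_sg (Q : Mem p ι) (r : Tm ι) (β : Tm ι × Bool) (x : Q.G) :
    (Q.lift r (sg β)).left x = 1 ↔ ¬ (rt β.1 = r ∧ x = Q.A (hd β) * Q.B (kp false β.1)) := by
  obtain ⟨a, e⟩ := β
  cases e
  · simp only [sg_false, map_inv, inv_left, Pi.inv_apply, inv_eq_one, Q.lift_of, ind_eq_one,
      Q.lift_right, hd, Bool.false_eq_true, if_false, eq_inv_mul_iff_mul_eq]
  · simp only [sg_true, Q.lift_of, ind_eq_one, hd, if_true, map_one, one_mul]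

lemma lift_cons (Q : Mem p ι) (r : Tm ι) (β : Tm ι × Bool) (L : List (Tm ι × Bool))
    (x : Q.G) : (Q.lift r (mk (β :: L))).left x =
      (Q.lift r (sg β)).left x * (Q.lift r (mk L)).left ((Q.A (sg β))⁻¹ * x) := by
  rw [mk_cons', map_mul, mul_left, Q.lift_right]
  rfl

lemma lift_zero (Q : Mem p ι) (r : Tm ι) (L : List (Tm ι × Bool)) (x : Q.G)
    (h : ∀ L₁ γ L₂, L = L₁ ++ γ :: L₂ →
      ¬ (rt γ.1 = r ∧ x = Q.A (mk L₁ * hd γ) * Q.B (kp false γ.1))) :
    (Q.lift r (mk L)).left x = 1 := by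
  induction L generalizing x with
  | nil => rw [← one_eq_mk, map_one]; rfl
  | cons β L ih =>
    rw [lift_cons, (Q.lift_sg r β x).2 (by simpa [← one_eq_mk] using h [] β L rfl), one_mul]
    refine ih _ fun L₁ γ L₂ e h1 => h (β :: L₁) γ L₂ (by rw [e]; rfl) ⟨h1.1, ?_⟩
    rw [mk_cons', mul_assoc, map_mul, mul_assoc, ← h1.2, mul_inv_cancel_left]

/-- Letters which are not separated. -/
def Sim (p : ℕ) (a b : Tm ι) : Prop := rt a = rt b ∧ (kp false a)⁻¹ * kp false b ∈ RR p ι

lemma fox {β : Tm ι × Bool} {L : List (Tm ι × Bool)} (h : mk (β :: L) ∈ RR p ι) :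
    ∃ L₁ γ L₂, L = L₁ ++ γ :: L₂ ∧ Sim p β.1 γ.1 ∧
      ((sg β)⁻¹ * hd β)⁻¹ * (mk L₁ * hd γ) ∈ RR p ι := by
  obtain ⟨Q, hQ⟩ := det p ((L.map fun γ => (kp false β.1)⁻¹ * kp false γ.1) ++
    L.inits.flatMap fun L₁ => L.map fun γ => ((sg β)⁻¹ * hd β)⁻¹ * (mk L₁ * hd γ))
  obtain ⟨Q', hQ'⟩ := Q.ext (rt β.1)
  have h1 := lift_cons Q (rt β.1) β L (Q.A (hd β) * Q.B (kp false β.1))
  rw [hQ' _ (mem_RR.1 h Q')] at h1
  by_contra hc
  rw [lift_zero Q _ L, mul_one] at h1
  · exact (Q.lift_sg _ β _).1 h1.symm ⟨rfl, rfl⟩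
  · rintro L₁ γ L₂ e ⟨h2, h3⟩
    rw [← mul_assoc, ← map_inv, ← map_mul] at h3
    obtain ⟨h4, h5⟩ := Q.uniq h3
    have hγ : γ ∈ L := by simp [e]
    refine hc ⟨L₁, γ, L₂, e, ⟨h2.symm, hQ _ (List.mem_append_left _ (List.mem_map_of_mem hγ))
      (Or.inr ?_)⟩, hQ _ (List.mem_append_right _ (List.mem_flatMap.2
        ⟨L₁, (List.mem_inits _ _).2 ⟨_, e.symm⟩, List.mem_map_of_mem hγ⟩)) (Or.inl ?_)⟩
    · rw [map_mul, map_inv, h5, inv_mul_cancel]
    · rw [map_mul, map_inv, h4, inv_mul_cancel]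

omit [Fact p.Prime] in
lemma Sim.both {a b : Tm ι} (h : Sim p a b) (w : Bool) : (kp w a)⁻¹ * kp w b ∈ RR p ι := by
  cases w
  · exact h.2
  · refine mem_RR_B fun Q => ?_
    have h1 := RR_B h.2 Q
    rw [map_mul, map_inv, inv_mul_eq_one] at h1 ⊢
    have e := Q.sq.trans a
    rw [h.1, h1, Q.sq.trans b] at e
    exact (Q.uniq e).2.symm

lemma red_nil {m : ℕ} (hm : ∀ a b : Tm ι, size a < m → size b < m → Sim p a b → a = b) (n : ℕ) :
    ∀ L : List (Tm ι × Bool), L.length < n → IsReduced L → (∀ β ∈ L, size β.1 < m) →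
      mk L ∈ RR p ι → L = [] := by
  induction n with
  | zero => intro L h; omega
  | succ n ih =>
    intro L h1 h2 h3 h4
    rcases L with _ | ⟨⟨a, e⟩, L⟩
    · rfl
    exfalso
    obtain ⟨L₁, ⟨c, e'⟩, L₂, rfl, h5, h6⟩ := fox h4
    obtain rfl : a = c := hm a c (h3 (a, e) (by simp)) (h3 (c, e') (by simp)) h5
    have sub : ∀ L', L' <:+: (a, e) :: (L₁ ++ (a, e') :: L₂) → L'.length ≤ L₁.length + 1 →
        mk L' ∈ RR p ι → L' = [] := fun L' k1 k2 k3 =>
      ih L' (by simp at h1; omega) (by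
        obtain ⟨u, v, e⟩ := k1
        rw [← e] at h2
        exact (List.IsChain.left_of_append h2).right_of_append)
        (fun β hβ => h3 β (k1.subset hβ)) k3
    have mid : mk L₁ ∈ RR p ι → e = e' := fun k => by
      obtain rfl := sub L₁ ⟨[(a, e)], (a, e') :: L₂, by simp⟩ (by omega) k
      exact (isReduced_cons_cons.1 h2).1 rfl
    cases e <;> cases e'
    · refine absurd (sub (L₁ ++ [(a, false)]) ⟨[(a, false)], L₂, by simp⟩ (by simp) ?_) (by simp)
      rw [← mul_mk, show mk [(a, false)] = (of a)⁻¹ from sg_false a]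
      simpa only [hd, sg_false, Bool.false_eq_true, if_false, inv_mul_cancel, inv_one, one_mul]
        using h6
    · exact absurd (mid (by simpa [hd, sg_false] using h6)) (by simp)
    · refine absurd (mid ?_) (by simp)
      simpa [hd, sg_true, mul_assoc] using RR_normal.conj_mem' _ h6 (of a)
    · refine absurd (sub ((a, true) :: L₁) ⟨[], (a, true) :: L₂, by simp⟩ (by simp) ?_) (by simp)
      rw [mk_cons']
      simpa [hd] using h6

/-- Words in the letters of small size. -/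
noncomputable def WW (ι : Type) (m : ℕ) : Subgroup (FG ι) where
  carrier := {g | ∀ β ∈ g.toWord, size β.1 < m}
  one_mem' := by simp
  mul_mem' {x y} hx hy β hβ :=
    (List.mem_append.1 ((toWord_mul_sublist x y).subset hβ)).elim (hx β) (hy β)
  inv_mem' {x} hx β hβ := by
    rw [toWord_inv, invRev, List.mem_reverse, List.mem_map] at hβ
    obtain ⟨γ, h1, rfl⟩ := hβ
    exact hx γ h1

lemma sg_mem_WW {m : ℕ} {a : Tm ι} (h : size a < m) (e : Bool) : sg (a, e) ∈ WW ι m := by
  intro β hβ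
  rw [toWord_sg, List.mem_singleton] at hβ
  rwa [hβ]

lemma WW_mono {m n : ℕ} (h : m ≤ n) {g : FG ι} (hg : g ∈ WW ι m) : g ∈ WW ι n :=
  fun β hβ => lt_of_lt_of_le (hg β hβ) h

lemma kp_mem (w : Bool) (a : Tm ι) : kp w a ∈ WW ι (size a + 1) := by
  induction a with
  | base t => exact one_mem _
  | node x y u v ih _ =>
    rw [kp]
    split_ifs
    · exact mul_mem (sg_mem_WW (by simp only [size]; omega) _)
        (WW_mono (by simp only [size]; omega) ih)
    · exact mul_mem (sg_mem_WW (by simp only [size]; omega) _)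
        (WW_mono (by simp only [size]; omega) ih)
    · exact one_mem _

lemma kp_side {m : ℕ} {a : Tm ι} (h : size a ≤ m) : ∃ w, kp w a ∈ WW ι m ∧
    (kp (!w) a ∈ WW ι m ∨ ∃ b e, ∃ x ∈ WW ι m, size b = m ∧ kp (!w) a = sg (b, e) * x) := by
  rcases h.lt_or_eq with h | rfl
  · exact ⟨true, WW_mono h (kp_mem _ a), Or.inl (WW_mono h (kp_mem _ a))⟩
  cases a with
  | base t => exact ⟨true, one_mem _, Or.inl (one_mem _)⟩
  | node x y u v =>
    have hx : ∀ w, kp w x ∈ WW ι (size (node x y u v)) := fun w =>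
      WW_mono (by simp only [size]; omega) (kp_mem w x)
    by_cases hv : valid (node x y u v)
    · refine ⟨v, ?_, Or.inr ⟨node y x v u, u, _, hx (!v), by simp only [size]; omega, ?_⟩⟩
      · rw [kp, if_pos hv, if_pos rfl]
        exact mul_mem (sg_mem_WW (by simp only [size]; omega) _) (hx v)
      · rw [kp, if_pos hv, if_neg (by simp)]
    · refine ⟨true, ?_, Or.inl ?_⟩ <;> rw [kp, if_neg hv] <;> exact one_mem _

lemma WW_RR {m : ℕ} (hm : ∀ a b : Tm ι, size a < m → size b < m → Sim p a b → a = b) {g : FG ι}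
    (h1 : g ∈ WW ι m) (h2 : g ∈ RR p ι) : g = 1 :=
  toWord_eq_nil_iff.1 (red_nil hm _ _ (Nat.lt_succ_self _) isReduced_toWord h1
    (by rwa [mk_toWord]))

lemma sim_eq (m : ℕ) : ∀ a b : Tm ι, size a < m → size b < m → Sim p a b → a = b := by
  induction m with
  | zero => intro a b h; omega
  | succ m ih =>
    have same : ∀ w (a b : Tm ι), kp w a ∈ WW ι m → kp w b ∈ WW ι m → Sim p a b → a = b :=
      fun w a b ha hb h => kp_inj h.1
        (inv_mul_eq_one.1 (WW_RR ih (mul_mem (inv_mem ha) hb) (h.both w)))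
    intro a b ha hb h
    obtain ⟨w, a1, a2⟩ := kp_side (Nat.lt_succ_iff.1 ha)
    obtain ⟨w', b1, -⟩ := kp_side (Nat.lt_succ_iff.1 hb)
    by_cases hw : w' = w
    · exact same w a b a1 (hw ▸ b1) h
    obtain rfl : w' = !w := Bool.eq_not_iff.2 hw
    rcases a2 with a2 | ⟨c, e, x, hx, hc, a2⟩
    · exact same _ a b a2 b1 h
    exfalso
    have h1 : mk ((c, e) :: (x * (kp (!w) b)⁻¹).toWord) ∈ RR p ι := by
      rw [mk_cons', mk_toWord, ← mul_assoc, ← a2]
      simpa [mul_assoc] using RR_normal.conj_mem _ (inv_mem (h.both (!w))) (kp (!w) b)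
    obtain ⟨L₁, γ, L₂, e1, e2, -⟩ := fox h1
    have h2 : size γ.1 < m := mul_mem hx (inv_mem b1) γ (by simp [e1])
    obtain ⟨v, c1, -⟩ := kp_side hc.le
    have := same v c γ.1 c1 (WW_mono h2 (kp_mem v _)) e2
    rw [← this] at h2
    omega

theorem sep {g : FG ι} (hg : g ≠ 1) : ∃ Q : Mem p ι, Q.A g ≠ 1 ∧ Q.B g ≠ 1 := by
  obtain ⟨Q, hQ⟩ := det p [g]
  have h : g ∉ RR p ι := fun h => hg (WW_RR (sim_eq ((g.toWord.map fun β => size β.1).sum + 1))
    (fun β hβ => Nat.lt_succ_of_le (List.single_le_sum (by simp) _ (List.mem_map_of_mem hβ))) h)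
  exact ⟨Q, not_or.1 fun h1 => h (hQ g (by simp) h1)⟩

end Pool.Agent.MP_e4304e_gt.RP

end

section

/-! Nilpotent marked factorisations whose points are separated by polynomial functions. -/

namespace Pool.Agent.MP_e4304e_gt.RP

open FreeGroup hiding map_mul map_one map_inv
open Tm

section poly

variable {G : Type} [Group G]

/-- Functions all of whose differences of order `d` vanish. -/
def Poly : ℕ → (G → ℤ) → Prop
  | 0, f => ∀ g, f g = 0
  | d + 1, f => ∀ x, Poly d fun g => f (x * g) - f g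

lemma Poly.congr {d : ℕ} {f f' : G → ℤ} (h : Poly d f) (e : ∀ g, f' g = f g) : Poly d f' :=
  (funext e : f' = f) ▸ h

lemma Poly.zero (d : ℕ) : Poly d fun _ : G => 0 := by
  induction d with
  | zero => exact fun _ => rfl
  | succ d ih => exact fun x => ih.congr fun _ => sub_self _

lemma Poly.add {d : ℕ} {f f' : G → ℤ} (h : Poly d f) (h' : Poly d f') :
    Poly d fun g => f g + f' g := by
  induction d generalizing f f' with
  | zero => exact fun g => by simp [h g, h' g]
  | succ d ih => exact fun x => (ih (h x) (h' x)).congr fun g => by ring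

lemma Poly.neg {d : ℕ} {f : G → ℤ} (h : Poly d f) : Poly d fun g => -f g := by
  induction d generalizing f with
  | zero => exact fun g => by simp [h g]
  | succ d ih => exact fun x => (ih (h x)).congr fun g => by ring

lemma Poly.succ {d : ℕ} {f : G → ℤ} (h : Poly d f) : Poly (d + 1) f := by
  induction d generalizing f with
  | zero => exact fun x g => by simp [h g, h (x * g)]
  | succ d ih => exact fun x => ih (h x)

lemma Poly.tr {d : ℕ} {f : G → ℤ} (h : Poly d f) (x : G) : Poly d fun g => f (x * g) := by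
  cases d with
  | zero => exact fun g => h _
  | succ d => exact (h.add (h x).succ).congr fun g => by ring

lemma Poly.const (d : ℕ) (c : ℤ) : Poly (d + 1) fun _ : G => c :=
  fun _ => (Poly.zero d).congr fun _ => sub_self _

lemma Poly.comp {G' : Type} [Group G'] (φ : G' →* G) {d : ℕ} {f : G → ℤ} (h : Poly d f) :
    Poly d fun g => f (φ g) := by
  induction d generalizing f with
  | zero => exact fun g => h _
  | succ d ih => exact fun x => (ih (h (φ x))).congr fun g => by simp only [map_mul]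

lemma Poly.mul {d e : ℕ} {f f' : G → ℤ} (h : Poly d f) (h' : Poly e f') :
    Poly (d + e) fun g => f g * f' g := by
  induction d generalizing e f f' with
  | zero => exact (Poly.zero _).congr fun g => by rw [h g, zero_mul]
  | succ d ih =>
    induction e generalizing f' with
    | zero => exact (Poly.zero _).congr fun g => by rw [h' g, mul_zero]
    | succ e ih' =>
      intro x
      have h1 := ih (h x) (h'.tr x)
      rw [show d + (e + 1) = d + 1 + e by omega] at h1
      exact (h1.add (ih' (h' x))).congr fun g => by ring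

/-- Polynomial functions separate the points. -/
def Sepa (G : Type) [Group G] : Prop := ∀ g : G, g ≠ 1 → ∃ d f, Poly d f ∧ f g ≠ f 1

lemma Sepa.two (h : Sepa G) {x y : G} (hxy : x ≠ y) : ∃ d f, Poly d f ∧ f x ≠ 0 ∧ f y = 0 := by
  obtain ⟨d, f, h1, h2⟩ := h (y⁻¹ * x) fun e => hxy (inv_mul_eq_one.1 e).symm
  exact ⟨d + 1, fun g => f (y⁻¹ * g) + -f 1, (h1.tr _).succ.add (Poly.const _ _),
    sub_ne_zero.2 h2, by simp⟩

lemma Sepa.many (h : Sepa G) (x : G) (l : List G) :
    ∃ d f, Poly d f ∧ f x ≠ 0 ∧ ∀ y ∈ l, y ≠ x → f y = 0 := by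
  induction l with
  | nil => exact ⟨1, fun _ => 1, Poly.const _ _, one_ne_zero, by simp⟩
  | cons y l ih =>
    obtain ⟨d, f, h1, h2, h3⟩ := ih
    by_cases hy : y = x
    · exact ⟨d, f, h1, h2, fun z hz hx =>
        (List.mem_cons.1 hz).elim (fun e => absurd (e.trans hy) hx) fun hz => h3 z hz hx⟩
    obtain ⟨e, f', k1, k2, k3⟩ := h.two (Ne.symm hy)
    refine ⟨d + e, _, h1.mul k1, mul_ne_zero h2 k2, fun z hz hx => ?_⟩
    rcases List.mem_cons.1 hz with rfl | hz
    · rw [k3, mul_zero]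
    · rw [h3 z hz hx, zero_mul]

/-- The group of polynomial functions. -/
def PP (G : Type) [Group G] (d : ℕ) : AddSubgroup (G → ℤ) where
  carrier := {f | Poly d f}
  zero_mem' := Poly.zero d
  add_mem' := Poly.add
  neg_mem' := Poly.neg

variable {d : ℕ}

def PP.tr (x : G) (f : PP G d) : PP G d := ⟨fun g => f.1 (x * g), Poly.tr f.2 x⟩

/-- The extension by the dual of the polynomial functions. -/
@[ext] structure Ex (G : Type) [Group G] (d : ℕ) where
  l : PP G d →+ ℤ
  r : G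

def trH (x : G) : PP G d →+ PP G d := AddMonoidHom.mk' (PP.tr x) fun _ _ => rfl

@[simp] lemma trH_apply (x : G) (f : PP G d) : trH x f = PP.tr x f := rfl

@[simp] lemma tr_one (f : PP G d) : PP.tr 1 f = f := Subtype.ext (funext fun g => by simp [PP.tr])

@[simp] lemma tr_tr (x y : G) (f : PP G d) : PP.tr y (PP.tr x f) = PP.tr (x * y) f :=
  Subtype.ext (funext fun g => by simp [PP.tr, mul_assoc])

instance : Mul (Ex G d) := ⟨fun x y => ⟨x.l + y.l.comp (trH x.r), x.r * y.r⟩⟩
instance : One (Ex G d) := ⟨⟨0, 1⟩⟩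
instance : Inv (Ex G d) := ⟨fun x => ⟨-x.l.comp (trH x.r⁻¹), x.r⁻¹⟩⟩

@[simp] lemma Ex.mul_l (x y : Ex G d) (f : PP G d) : (x * y).l f = x.l f + y.l (PP.tr x.r f) := rfl
@[simp] lemma Ex.mul_r (x y : Ex G d) : (x * y).r = x.r * y.r := rfl
@[simp] lemma Ex.one_l (f : PP G d) : (1 : Ex G d).l f = 0 := rfl
@[simp] lemma Ex.one_r : (1 : Ex G d).r = 1 := rfl
@[simp] lemma Ex.inv_l (x : Ex G d) (f : PP G d) : x⁻¹.l f = -x.l (PP.tr x.r⁻¹ f) := rfl
@[simp] lemma Ex.inv_r (x : Ex G d) : x⁻¹.r = x.r⁻¹ := rfl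

lemma Ex.ext' {x y : Ex G d} (h : ∀ f, x.l f = y.l f) (h' : x.r = y.r) : x = y :=
  Ex.ext (AddMonoidHom.ext h) h'

instance : Group (Ex G d) := Group.ofLeftAxioms
  (fun x y z => Ex.ext' (fun f => by simp [add_assoc]) (mul_assoc _ _ _))
  (fun x => Ex.ext' (fun f => by simp) (one_mul _))
  (fun x => Ex.ext' (fun f => by simp) (inv_mul_cancel _))

def Ex.rH : Ex G d →* G := MonoidHom.mk' Ex.r fun _ _ => rfl

def Ex.inr : G →* Ex G d :=
  MonoidHom.mk' (fun g => ⟨0, g⟩) fun _ _ => Ex.ext' (fun _ => by simp) rfl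

@[simp] lemma Ex.rH_apply (x : Ex G d) : Ex.rH x = x.r := rfl
@[simp] lemma Ex.inr_l (g : G) (f : PP G d) : (Ex.inr g : Ex G d).l f = 0 := rfl
@[simp] lemma Ex.inr_r (g : G) : (Ex.inr g : Ex G d).r = g := rfl

/-- The annihilator of the polynomial functions of small degree. -/
def Ex.F (j : ℕ) : Subgroup (Ex G d) where
  carrier := {x | ∀ f : PP G d, Poly j f.1 → x.l f = 0}
  one_mem' _ _ := rfl
  mul_mem' {x y} hx hy f hf := by rw [Ex.mul_l, hx f hf, hy _ (hf.tr _), add_zero]
  inv_mem' {x} hx f hf := by rw [Ex.inv_l, hx _ (hf.tr _), neg_zero]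

lemma Ex.F_zero (x : Ex G d) : x ∈ Ex.F 0 := fun f hf => by
  rw [show f = 0 from Subtype.ext (funext hf), map_zero]

lemma Ex.poly (j : ℕ) (f : PP G d) (hf : Poly j f.1) : Poly (j + 1) fun x : Ex G d => x.l f := by
  induction j generalizing f with
  | zero => exact (Poly.const 0 0).congr fun x => Ex.F_zero x f hf
  | succ j ih =>
    intro y
    refine ((ih (PP.tr y.r f - f) (hf y.r)).add (Poly.const j (y.l f))).congr fun x => ?_
    simp only [Ex.mul_l, map_sub]
    ring

lemma Sepa.ex (h : Sepa G) : Sepa (Ex G d) := by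
  intro x hx
  by_cases h1 : x.r = 1
  · obtain ⟨f, hf⟩ := not_forall.1 fun h2 => hx (Ex.ext' h2 h1)
    exact ⟨d + 1, _, Ex.poly d f f.2, hf⟩
  · obtain ⟨e, f, h2, h3⟩ := h _ h1
    exact ⟨e, _, h2.comp Ex.rH, h3⟩

def ev (x : G) : PP G d →+ ℤ := AddMonoidHom.mk' (fun f => f.1 x) fun _ _ => rfl

end poly

variable {ι : Type}

/-- A nilpotent factorised group with a marking and enough polynomial functions. -/
structure Mz (ι : Type) where
  G : Type
  [gG : Group G]
  sepa : Sepa G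
  H : Subgroup G
  K : Subgroup G
  fact : ∀ g, ∃ k ∈ K, ∃ h ∈ H, g = k * h
  ex : ∀ g, g ∈ H → g ∈ K → g = 1
  N : ℕ → Subgroup G
  c : ℕ
  fil : Fil N c
  split : ∀ i, ∀ h ∈ H, ∀ k ∈ K, h * k ∈ N i → h ∈ N i
  A : FG ι →* G
  B : FG ι →* G
  hA : ∀ x, A x ∈ H
  hB : ∀ x, B x ∈ K
  sq : Sq A B

attribute [instance] Mz.gG

lemma Mz.uniq (Q : Mz ι) {x x' k k' : FG ι} (e : Q.A x * Q.B k = Q.A x' * Q.B k') :
    Q.A x = Q.A x' ∧ Q.B k = Q.B k' := by
  have h1 : (Q.A x')⁻¹ * Q.A x = Q.B k' * (Q.B k)⁻¹ := by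
    rw [inv_mul_eq_iff_eq_mul, ← mul_assoc, ← e, mul_inv_cancel_right]
  have h2 := Q.ex _ (mul_mem (inv_mem (Q.hA x')) (Q.hA x))
    (h1 ▸ mul_mem (Q.hB k') (inv_mem (Q.hB k)))
  rw [inv_mul_eq_one] at h2
  rw [h2] at e
  exact ⟨h2.symm, mul_left_cancel e⟩

def Mz.triv (ι : Type) : Mz ι where
  G := PUnit
  sepa _ h := absurd rfl h
  H := ⊤
  K := ⊤
  fact _ := ⟨1, trivial, 1, trivial, rfl⟩
  ex _ _ _ := rfl
  N _ := ⊤
  c := 0
  fil := ⟨rfl, Subsingleton.elim _ _, fun _ => le_rfl, fun _ _ _ _ => trivial⟩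
  split _ _ _ _ _ _ := trivial
  A := 1
  B := 1
  hA _ := trivial
  hB _ := trivial
  sq _ _ _ := rfl

def Mz.swap (Q : Mz ι) : Mz ι where
  G := Q.G
  sepa := Q.sepa
  H := Q.K
  K := Q.H
  fact g := by
    obtain ⟨k, hk, h, hh, e⟩ := Q.fact g⁻¹
    exact ⟨h⁻¹, inv_mem hh, k⁻¹, inv_mem hk, by rw [← mul_inv_rev, ← e, inv_inv]⟩
  ex g h1 h2 := Q.ex g h2 h1
  N := Q.N
  c := Q.c
  fil := Q.fil
  split i k hk h hh e := by
    have := Q.split i _ (inv_mem hh) _ (inv_mem hk) (by rw [← mul_inv_rev]; exact inv_mem e)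
    simpa using mul_mem e this
  A := Q.B
  B := Q.A
  hA := Q.hB
  hB := Q.hA
  sq := Q.sq.symm

def Mz.prod (Q Q' : Mz ι) : Mz ι where
  G := Q.G × Q'.G
  sepa g hg := by
    by_cases h : g.1 = 1
    · obtain ⟨d, f, h1, h2⟩ := Q'.sepa g.2 fun h' => hg (Prod.ext h h')
      exact ⟨d, _, h1.comp (MonoidHom.snd _ _), h2⟩
    · obtain ⟨d, f, h1, h2⟩ := Q.sepa g.1 h
      exact ⟨d, _, h1.comp (MonoidHom.fst _ _), h2⟩
  H := Q.H.prod Q'.H
  K := Q.K.prod Q'.K
  fact g := by
    obtain ⟨k, hk, h, hh, e⟩ := Q.fact g.1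
    obtain ⟨k', hk', h', hh', e'⟩ := Q'.fact g.2
    exact ⟨(k, k'), ⟨hk, hk'⟩, (h, h'), ⟨hh, hh'⟩, Prod.ext e e'⟩
  ex g h1 h2 := Prod.ext (Q.ex _ h1.1 h2.1) (Q'.ex _ h1.2 h2.2)
  N i := (Q.N i).prod (Q'.N i)
  c := Q.c + Q'.c
  fil :=
    { top := by simp [Q.fil.top, Q'.fil.top]
      bot := by
        have h1 := Q.fil.le (Nat.le_add_right Q.c Q'.c)
        have h2 := Q'.fil.le (Nat.le_add_left Q'.c Q.c)
        rw [Q.fil.bot, le_bot_iff] at h1
        rw [Q'.fil.bot, le_bot_iff] at h2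
        rw [h1, h2, Subgroup.bot_prod_bot]
      anti := fun i x hx => ⟨Q.fil.anti i hx.1, Q'.fil.anti i hx.2⟩
      comm := fun i g x hx => ⟨Q.fil.comm i g.1 _ hx.1, Q'.fil.comm i g.2 _ hx.2⟩ }
  split i h hh k hk e := ⟨Q.split i _ hh.1 _ hk.1 e.1, Q'.split i _ hh.2 _ hk.2 e.2⟩
  A := Q.A.prod Q'.A
  B := Q.B.prod Q'.B
  hA x := ⟨Q.hA x, Q'.hA x⟩
  hB x := ⟨Q.hB x, Q'.hB x⟩
  sq a b hab := Prod.ext (Q.sq a b hab) (Q'.sq a b hab)

open Classical in
/-- The lift of the marking to the extension. -/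
noncomputable def Mz.lift (Q : Mz ι) (r : Tm ι) (d : ℕ) : FG ι →* Ex Q.G d :=
  FreeGroup.lift fun a => ⟨if rt a = r then ev (Q.B (kp false a)) else 0, Q.A (of a)⟩

open Classical in
lemma Mz.lift_of (Q : Mz ι) (r a : Tm ι) {d : ℕ} (f : PP Q.G d) :
    (Q.lift r d (of a)).l f = if rt a = r then f.1 (Q.B (kp false a)) else 0 := by
  rw [Mz.lift, FreeGroup.lift_apply_of]
  split_ifs <;> rfl

lemma Mz.lift_r (Q : Mz ι) (r : Tm ι) (d : ℕ) (x : FG ι) : (Q.lift r d x).r = Q.A x := by
  have : Ex.rH.comp (Q.lift r d) = Q.A := FreeGroup.ext_hom _ _ fun a => by simp [Mz.lift]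
  exact DFunLike.congr_fun this x

lemma Mz.ext (Q : Mz ι) (r : Tm ι) (d : ℕ) :
    ∃ Q' : Mz ι, ∀ x, Q'.A x = 1 → Q.lift r d x = 1 := by
  have bot : ∀ i, Q.c ≤ i → ∀ x ∈ Q.N i, x = 1 := fun i hi x hx => by
    have := Q.fil.le hi hx
    rwa [Q.fil.bot, Subgroup.mem_bot] at this
  refine ⟨
    { G := Ex Q.G d
      sepa := Q.sepa.ex
      H := Q.H.comap Ex.rH
      K := Q.K.map Ex.inr
      fact := fun g => ?_
      ex := ?_
      N := fun i => (Q.N i).comap Ex.rH ⊓ Ex.F (i - Q.c)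
      c := Q.c + d
      fil := ⟨?_, ?_, fun i x hx => ⟨Q.fil.anti i hx.1, fun f hf => ?_⟩,
        fun i g x hx => ⟨?_, ?_⟩⟩
      split := ?_
      A := Q.lift r d
      B := Ex.inr.comp Q.B
      hA := fun x => ?_
      hB := fun x => ⟨_, Q.hB x, rfl⟩
      sq := fun a b hab => ?_ }, fun x h => h⟩
  · obtain ⟨k, hk, h, hh, e⟩ := Q.fact g.r
    refine ⟨Ex.inr k, ⟨k, hk, rfl⟩, (Ex.inr k)⁻¹ * g, ?_, by group⟩
    simpa [e] using hh
  · rintro _ h1 ⟨k, hk, rfl⟩
    rw [Q.ex k h1 hk, map_one]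
  · refine eq_top_iff.2 fun x _ => ⟨by simp [Q.fil.top], ?_⟩
    rw [Nat.zero_sub]
    exact Ex.F_zero x
  · refine (Subgroup.eq_bot_iff_forall _).2 fun x hx => Ex.ext' (fun f => hx.2 f ?_)
      (bot _ (Nat.le_add_right _ _) _ hx.1)
    rw [Nat.add_sub_cancel_left]
    exact f.2
  · rcases lt_or_ge i Q.c with h | h
    · rw [show i - Q.c = 0 by omega] at hf
      exact Ex.F_zero x f hf
    · exact hx.2 f (by rw [show i + 1 - Q.c = i - Q.c + 1 by omega]; exact hf.succ)
  · simpa using Q.fil.comm i g.r _ hx.1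
  · rcases lt_or_ge i Q.c with h | h
    · rw [show i + 1 - Q.c = 0 by omega]
      exact Ex.F_zero _
    · rw [show i + 1 - Q.c = i - Q.c + 1 by omega]
      intro f hf
      have h1 : x.r = 1 := bot i h _ hx.1
      have h2 := hx.2 (PP.tr g.r f - f) (hf g.r)
      rw [map_sub] at h2
      simp only [Ex.mul_l, Ex.mul_r, Ex.inv_l, Ex.inv_r, h1, tr_tr, mul_one, mul_inv_cancel, inv_one,
        tr_one]
      omega
  · rintro i h hh _ ⟨k, hk, rfl⟩ e
    exact ⟨Q.split i _ hh k hk e.1, fun f hf => by simpa using e.2 f hf⟩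
  · rw [Subgroup.mem_comap, Ex.rH_apply, Q.lift_r]
    exact Q.hA x
  · obtain ⟨e1, e2⟩ := sq_kp hab
    refine Ex.ext' (fun f => ?_) (by simpa [Q.lift_r] using Q.sq a b hab)
    simp [Q.lift_of, e1, e2, PP.tr]

end Pool.Agent.MP_e4304e_gt.RP

end

section

/-! The nilpotent marked factorisations separate the elements of the free one. -/

namespace Pool.Agent.MP_e4304e_gt.RP

open FreeGroup hiding map_mul map_one map_inv
open Tm

variable {ι : Type}

/-- The common kernel of all markings. -/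
def RZ (ι : Type) : Subgroup (FG ι) := ⨅ Q : Mz ι, Q.A.ker

lemma mem_RZ {g : FG ι} : g ∈ RZ ι ↔ ∀ Q : Mz ι, Q.A g = 1 := Subgroup.mem_iInf

lemma RZ_B {g : FG ι} (h : g ∈ RZ ι) (Q : Mz ι) : Q.B g = 1 := mem_RZ.1 h Q.swap

lemma mem_RZ_B {g : FG ι} (h : ∀ Q : Mz ι, Q.B g = 1) : g ∈ RZ ι :=
  mem_RZ.2 fun Q => h Q.swap

lemma RZ_normal : (RZ ι).Normal :=
  ⟨fun x hx g => mem_RZ.2 fun Q => by simp [mem_RZ.1 hx Q]⟩

lemma detz (l : List (FG ι)) :
    ∃ Q : Mz ι, ∀ g ∈ l, Q.A g = 1 ∨ Q.B g = 1 → g ∈ RZ ι := by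
  induction l with
  | nil => exact ⟨Mz.triv ι, by simp⟩
  | cons x l ih =>
    obtain ⟨Q, hQ⟩ := ih
    by_cases hx : x ∈ RZ ι
    · exact ⟨Q, fun g hg h => (List.mem_cons.1 hg).elim (fun e => e ▸ hx) fun hg => hQ g hg h⟩
    · obtain ⟨Q', hQ'⟩ := not_forall.1 (mt mem_RZ.2 hx)
      refine ⟨Q.prod (Q'.prod Q'.swap), fun g hg h => ?_⟩
      rcases List.mem_cons.1 hg with rfl | hg
      · exact absurd (h.elim (fun h => congrArg (fun z => z.2.1) h)
          fun h => congrArg (fun z => z.2.2) h) hQ'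
      · exact hQ g hg (h.imp (congrArg Prod.fst) (congrArg Prod.fst))

open Classical in
lemma Mz.lift_sg (Q : Mz ι) (r : Tm ι) (β : Tm ι × Bool) {d : ℕ} (f : PP Q.G d) :
    (Q.lift r d (sg β)).l f = 0 ↔ (rt β.1 = r → f.1 (Q.A (hd β) * Q.B (kp false β.1)) = 0) := by
  obtain ⟨a, e⟩ := β
  cases e
  · simp [sg_false, Q.lift_of, Q.lift_r, hd, PP.tr]
  · simp [sg_true, Q.lift_of, hd]

lemma lift_consz (Q : Mz ι) (r : Tm ι) (β : Tm ι × Bool) (L : List (Tm ι × Bool)) {d : ℕ}
    (f : PP Q.G d) : (Q.lift r d (mk (β :: L))).l f =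
      (Q.lift r d (sg β)).l f + (Q.lift r d (mk L)).l (PP.tr (Q.A (sg β)) f) := by
  rw [mk_cons', map_mul, Ex.mul_l, Q.lift_r]

lemma lift_zeroz (Q : Mz ι) (r : Tm ι) (L : List (Tm ι × Bool)) {d : ℕ} (f : PP Q.G d)
    (h : ∀ L₁ γ L₂, L = L₁ ++ γ :: L₂ → rt γ.1 = r →
      f.1 (Q.A (mk L₁ * hd γ) * Q.B (kp false γ.1)) = 0) : (Q.lift r d (mk L)).l f = 0 := by
  induction L generalizing f with
  | nil => rw [← one_eq_mk, map_one]; rfl
  | cons β L ih =>
    rw [lift_consz, (Q.lift_sg r β f).2 (by simpa [← one_eq_mk] using h [] β L rfl), zero_add]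
    refine ih _ fun L₁ γ L₂ e h1 => ?_
    have := h (β :: L₁) γ L₂ (by rw [e]; rfl) h1
    rwa [mk_cons', mul_assoc, map_mul, mul_assoc] at this

/-- Letters which are not separated. -/
def Siz (a b : Tm ι) : Prop := rt a = rt b ∧ (kp false a)⁻¹ * kp false b ∈ RZ ι

lemma foxz {β : Tm ι × Bool} {L : List (Tm ι × Bool)} (h : mk (β :: L) ∈ RZ ι) :
    ∃ L₁ γ L₂, L = L₁ ++ γ :: L₂ ∧ Siz β.1 γ.1 ∧
      ((sg β)⁻¹ * hd β)⁻¹ * (mk L₁ * hd γ) ∈ RZ ι := by
  obtain ⟨Q, hQ⟩ := detz ((L.map fun γ => (kp false β.1)⁻¹ * kp false γ.1) ++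
    L.inits.flatMap fun L₁ => L.map fun γ => ((sg β)⁻¹ * hd β)⁻¹ * (mk L₁ * hd γ))
  obtain ⟨d, f, f1, f2, f3⟩ := Q.sepa.many (Q.A (hd β) * Q.B (kp false β.1))
    (L.inits.flatMap fun L₁ => L.map fun γ =>
      Q.A (sg β) * (Q.A (mk L₁ * hd γ) * Q.B (kp false γ.1)))
  obtain ⟨Q', hQ'⟩ := Q.ext (rt β.1) d
  have h1 := lift_consz Q (rt β.1) β L ⟨f, f1⟩
  rw [hQ' _ (mem_RZ.1 h Q')] at h1
  by_contra hc
  rw [lift_zeroz Q _ L, add_zero] at h1
  · exact f2 ((Q.lift_sg _ β _).1 h1.symm rfl)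
  · intro L₁ γ L₂ e h2
    have hγ : γ ∈ L := by simp [e]
    have hL : L₁ ∈ L.inits := (List.mem_inits _ _).2 ⟨_, e.symm⟩
    refine f3 _ (List.mem_flatMap.2 ⟨L₁, hL, List.mem_map_of_mem hγ⟩) fun h3 => ?_
    rw [← eq_inv_mul_iff_mul_eq, ← mul_assoc, ← map_inv, ← map_mul] at h3
    obtain ⟨h4, h5⟩ := Q.uniq h3
    refine hc ⟨L₁, γ, L₂, e, ⟨h2.symm, hQ _ (List.mem_append_left _ (List.mem_map_of_mem hγ))
      (Or.inr ?_)⟩, hQ _ (List.mem_append_right _ (List.mem_flatMap.2
        ⟨L₁, hL, List.mem_map_of_mem hγ⟩)) (Or.inl ?_)⟩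
    · rw [map_mul, map_inv, h5, inv_mul_cancel]
    · rw [map_mul, map_inv, h4, inv_mul_cancel]

lemma Siz.both {a b : Tm ι} (h : Siz a b) (w : Bool) : (kp w a)⁻¹ * kp w b ∈ RZ ι := by
  cases w
  · exact h.2
  · refine mem_RZ_B fun Q => ?_
    have h1 := RZ_B h.2 Q
    rw [map_mul, map_inv, inv_mul_eq_one] at h1 ⊢
    have e := Q.sq.trans a
    rw [h.1, h1, Q.sq.trans b] at e
    exact (Q.uniq e).2.symm

lemma red_nilz {m : ℕ} (hm : ∀ a b : Tm ι, size a < m → size b < m → Siz a b → a = b) (n : ℕ) :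
    ∀ L : List (Tm ι × Bool), L.length < n → IsReduced L → (∀ β ∈ L, size β.1 < m) →
      mk L ∈ RZ ι → L = [] := by
  induction n with
  | zero => intro L h; omega
  | succ n ih =>
    intro L h1 h2 h3 h4
    rcases L with _ | ⟨⟨a, e⟩, L⟩
    · rfl
    exfalso
    obtain ⟨L₁, ⟨c, e'⟩, L₂, rfl, h5, h6⟩ := foxz h4
    obtain rfl : a = c := hm a c (h3 (a, e) (by simp)) (h3 (c, e') (by simp)) h5
    have sub : ∀ L', L' <:+: (a, e) :: (L₁ ++ (a, e') :: L₂) → L'.length ≤ L₁.length + 1 →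
        mk L' ∈ RZ ι → L' = [] := fun L' k1 k2 k3 =>
      ih L' (by simp at h1; omega) (by
        obtain ⟨u, v, e⟩ := k1
        rw [← e] at h2
        exact (List.IsChain.left_of_append h2).right_of_append)
        (fun β hβ => h3 β (k1.subset hβ)) k3
    have mid : mk L₁ ∈ RZ ι → e = e' := fun k => by
      obtain rfl := sub L₁ ⟨[(a, e)], (a, e') :: L₂, by simp⟩ (by omega) k
      exact (isReduced_cons_cons.1 h2).1 rfl
    cases e <;> cases e'
    · refine absurd (sub (L₁ ++ [(a, false)]) ⟨[(a, false)], L₂, by simp⟩ (by simp) ?_) (by simp)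
      rw [← mul_mk, show mk [(a, false)] = (of a)⁻¹ from sg_false a]
      simpa only [hd, sg_false, Bool.false_eq_true, if_false, inv_mul_cancel, inv_one, one_mul]
        using h6
    · exact absurd (mid (by simpa [hd, sg_false] using h6)) (by simp)
    · refine absurd (mid ?_) (by simp)
      simpa [hd, sg_true, mul_assoc] using RZ_normal.conj_mem' _ h6 (of a)
    · refine absurd (sub ((a, true) :: L₁) ⟨[], (a, true) :: L₂, by simp⟩ (by simp) ?_) (by simp)
      rw [mk_cons']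
      simpa [hd] using h6

lemma WW_RZ {m : ℕ} (hm : ∀ a b : Tm ι, size a < m → size b < m → Siz a b → a = b) {g : FG ι}
    (h1 : g ∈ WW ι m) (h2 : g ∈ RZ ι) : g = 1 :=
  toWord_eq_nil_iff.1 (red_nilz hm _ _ (Nat.lt_succ_self _) isReduced_toWord h1
    (by rwa [mk_toWord]))

lemma siz_eq (m : ℕ) : ∀ a b : Tm ι, size a < m → size b < m → Siz a b → a = b := by
  induction m with
  | zero => intro a b h; omega
  | succ m ih =>
    have same : ∀ w (a b : Tm ι), kp w a ∈ WW ι m → kp w b ∈ WW ι m → Siz a b → a = b :=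
      fun w a b ha hb h => kp_inj h.1
        (inv_mul_eq_one.1 (WW_RZ ih (mul_mem (inv_mem ha) hb) (h.both w)))
    intro a b ha hb h
    obtain ⟨w, a1, a2⟩ := kp_side (Nat.lt_succ_iff.1 ha)
    obtain ⟨w', b1, -⟩ := kp_side (Nat.lt_succ_iff.1 hb)
    by_cases hw : w' = w
    · exact same w a b a1 (hw ▸ b1) h
    obtain rfl : w' = !w := Bool.eq_not_iff.2 hw
    rcases a2 with a2 | ⟨c, e, x, hx, hc, a2⟩
    · exact same _ a b a2 b1 h
    exfalso
    have h1 : mk ((c, e) :: (x * (kp (!w) b)⁻¹).toWord) ∈ RZ ι := by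
      rw [mk_cons', mk_toWord, ← mul_assoc, ← a2]
      simpa [mul_assoc] using RZ_normal.conj_mem _ (inv_mem (h.both (!w))) (kp (!w) b)
    obtain ⟨L₁, γ, L₂, e1, e2, -⟩ := foxz h1
    have h2 : size γ.1 < m := mul_mem hx (inv_mem b1) γ (by simp [e1])
    obtain ⟨v, c1, -⟩ := kp_side hc.le
    have := same v c γ.1 c1 (WW_mono h2 (kp_mem v _)) e2
    rw [← this] at h2
    omega

theorem sepz {g : FG ι} (hg : g ≠ 1) : ∃ Q : Mz ι, Q.A g ≠ 1 ∧ Q.B g ≠ 1 := by
  obtain ⟨Q, hQ⟩ := detz [g]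
  have h : g ∉ RZ ι := fun h => hg (WW_RZ (siz_eq ((g.toWord.map fun β => size β.1).sum + 1))
    (fun β hβ => Nat.lt_succ_of_le (List.single_le_sum (by simp) _ (List.mem_map_of_mem hβ))) h)
  exact ⟨Q, not_or.1 fun h1 => h (hQ g (by simp) h1)⟩

end Pool.Agent.MP_e4304e_gt.RP

end
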